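import Pool.Agent.J6H86.NP.Main

/-!
# The action of a segment of a solution and its first variation
-/

set_option autoImplicit false

open Complex Finset Filter Topology ComplexConjugate
open scoped ContDiff

namespace Pool.Agent.J6H86.NP

open Pool.Agent.W821.TB

variable {n : ℕ} {m : Fin n → ℝ}

/-- the Lagrangian -/
noncomputable def lag (m : Fin n → ℝ) (q v : Fin n → ℂ) : ℝ :=
  (∑ a, m a * ‖v a‖ ^ 2) / 2 + upot m q

/-- half the derivative of the moment of inertia -/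
noncomputable def gv (m : Fin n → ℝ) (z : Ph n) : ℝ := ∑ a, m a * ip (z.1 a) (z.2 a)

theorem ip_comm (a b : ℂ) : ip a b = ip b a := by rw [ip_eq, ip_eq]; ring

/-- the virial identity -/
theorem vir {q : Fin n → ℂ} (hq : ∀ a b, a ≠ b → q a ≠ q b) :
    ∑ a, m a * ip (q a) (acc m q a) + upot m q = 0 := by
  have h1 : ∑ a, m a * ip (q a) (acc m q a) =
      ∑ a, ∑ b ∈ univ.erase a, m a * (m b / ‖q b - q a‖ ^ 3 * ip (q b - q a) (q a)) := by
    refine Finset.sum_congr rfl fun a _ => ?_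
    rw [ip_comm, ip_acc, Finset.mul_sum]
  have h2 := sum_swap (fun a b => m a * (m b / ‖q b - q a‖ ^ 3 * ip (q b - q a) (q a)))
  have h3 : ∑ a, ∑ b ∈ univ.erase a, m a * (m b / ‖q b - q a‖ ^ 3 * ip (q b - q a) (q a)) +
      ∑ a, ∑ b ∈ univ.erase a, m b * (m a / ‖q a - q b‖ ^ 3 * ip (q a - q b) (q b)) =
      - ∑ a, ∑ b ∈ univ.erase a, m a * m b / ‖q b - q a‖ := by
    rw [← Finset.sum_add_distrib, ← Finset.sum_neg_distrib]
    refine Finset.sum_congr rfl fun a _ => ?_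
    rw [← Finset.sum_add_distrib, ← Finset.sum_neg_distrib]
    refine Finset.sum_congr rfl fun b hb => ?_
    have hne : q b - q a ≠ 0 := sub_ne_zero.2 (hq b a (Finset.ne_of_mem_erase hb))
    have hpos : 0 < ‖q b - q a‖ := norm_pos_iff.2 hne
    rw [norm_sub_rev (q a) (q b)]
    have h4 : ip (q b - q a) (q a) + ip (q a - q b) (q b) = - ‖q b - q a‖ ^ 2 := by
      rw [← ip_self, ip_eq, ip_eq, ip_eq]
      simp only [Complex.sub_re, Complex.sub_im]
      ring
    have h5 : ip (q a - q b) (q b) = - ‖q b - q a‖ ^ 2 - ip (q b - q a) (q a) := by linarith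
    rw [h5]
    field_simp
    ring
  rw [h1]
  unfold upot
  linarith

theorem hasDerivAt_gv {z : ℝ → Ph n} {ξ η : Fin n → ℂ} {t : ℝ}
    (h1 : ∀ a, HasDerivAt (fun s => (z s).1 a) (ξ a) t)
    (h2 : ∀ a, HasDerivAt (fun s => (z s).2 a) (η a) t) :
    HasDerivAt (fun s => gv m (z s))
      (∑ a, m a * (ip (ξ a) ((z t).2 a) + ip ((z t).1 a) (η a))) t := by
  unfold gv
  exact HasDerivAt.fun_sum fun a _ => (hasDerivAt_ip (h1 a) (h2 a)).const_mul _

/-- derivative of the acceleration along a line -/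
theorem acc_line {q : Fin n → ℂ} (hq : ∀ a b, a ≠ b → q a ≠ q b) (δ : Fin n → ℂ) (a : Fin n) :
    HasDerivAt (fun s : ℝ => acc m (q + s • δ) a) (fderiv ℝ (acc m) q δ a) 0 := by
  have h1 : HasFDerivAt (acc m) (fderiv ℝ (acc m) q) (q + (0 : ℝ) • δ) := by
    rw [zero_smul, add_zero]
    exact ((contDiffAt_acc' (m := m) hq).differentiableAt (by simp)).hasFDerivAt
  have h2 : HasDerivAt (fun s : ℝ => q + s • δ) δ 0 := by
    have h := ((hasDerivAt_id (0 : ℝ)).smul_const δ).const_add q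
    rw [one_smul] at h
    exact h
  have h3 : HasDerivAt (fun s : ℝ => acc m (q + s • δ)) (fderiv ℝ (acc m) q δ) 0 :=
    HasFDerivAt.comp_hasDerivAt (l := acc m) (f := fun s : ℝ => q + s • δ) (0 : ℝ) h1 h2
  exact hasDerivAt_pi.1 h3 a

/-- derivative of the virial identity -/
theorem vir_deriv {q : Fin n → ℂ} (hq : ∀ a b, a ≠ b → q a ≠ q b) (δ : Fin n → ℂ) :
    ∑ a, m a * (ip (δ a) (acc m q a) + ip (q a) (fderiv ℝ (acc m) q δ a)) =
      - ∑ a, m a * ip (acc m q a) (δ a) := by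
  have hl : ∀ a, HasDerivAt (fun s : ℝ => (q + s • δ) a) (δ a) 0 := by
    intro a
    have h := ((hasDerivAt_id (0 : ℝ)).smul_const (δ a)).const_add (q a)
    rw [one_smul] at h
    exact h
  have h0 : q + (0 : ℝ) • δ = q := by rw [zero_smul, add_zero]
  have h1 : HasDerivAt (fun s : ℝ => ∑ a, m a * ip ((q + s • δ) a) (acc m (q + s • δ) a))
      (∑ a, m a * (ip (δ a) (acc m (q + (0 : ℝ) • δ) a) +
        ip ((q + (0 : ℝ) • δ) a) (fderiv ℝ (acc m) q δ a))) 0 :=
    HasDerivAt.fun_sum fun a _ => (hasDerivAt_ip (hl a) (acc_line hq δ a)).const_mul _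
  have h2 := hasDerivAt_upot (m := m) hl (by rw [h0]; exact hq)
  have h3 := h1.fun_add h2
  rw [h0] at h3
  have hc : Continuous fun s : ℝ => q + s • δ := by fun_prop
  have h4 : ∀ᶠ s : ℝ in 𝓝 0, ∀ a b, a ≠ b → (q + s • δ) a ≠ (q + s • δ) b := by
    have h5 : ∀ a b, ∀ᶠ s : ℝ in 𝓝 0, a ≠ b → (q + s • δ) a ≠ (q + s • δ) b := by
      intro a b
      by_cases hab : a = b
      · exact Eventually.of_forall fun s h => absurd hab h
      · have hc2 : Continuous fun s : ℝ => (q + s • δ) a - (q + s • δ) b := by fun_prop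
        have h6 : (q + (0 : ℝ) • δ) a - (q + (0 : ℝ) • δ) b ≠ 0 := by
          rw [h0]; exact sub_ne_zero.2 (hq a b hab)
        exact (hc2.continuousAt.eventually_ne h6).mono fun s hs _ => sub_ne_zero.1 hs
    exact eventually_all.2 fun a => eventually_all.2 fun b => h5 a b
  have h5 : (fun s : ℝ => ∑ a, m a * ip ((q + s • δ) a) (acc m (q + s • δ) a) +
      upot m (q + s • δ)) =ᶠ[𝓝 0] fun _ => (0 : ℝ) := by
    filter_upwards [h4] with s hs
    exact vir hs
  have h6 := h3.congr_of_eventuallyEq h5.symm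
  have h7 := h6.unique (hasDerivAt_const (0 : ℝ) (0 : ℝ))
  linarith

/-- the action of the segment of the solution with the initial value `z` -/
noncomputable def actn (m : Fin n → ℝ) (F : ℝ → Ph n → Ph n) (D : ℝ) (z : Ph n) : ℝ :=
  2 * (gv m (F D z) - gv m z) - 3 * D * energy m z

section

variable {d R : ℝ} {F : ℝ → Ph n → Ph n}

theorem lag_deriv (hd : 0 < d) (hR : 0 < R) (hF : IsFl (cvf m d R) F) {z : Ph n} {t : ℝ}
    (ht0 : 0 ≤ t) (h : ∀ s ∈ Set.Icc 0 t, F s z ∈ good d R) :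
    HasDerivAt (fun s => 2 * gv m (F s z) - 3 * s * energy m z)
      (lag m (F t z).1 (F t z).2) t := by
  have ht : F t z ∈ good d R := h t ⟨ht0, le_rfl⟩
  have h1 := flow_vf hd hR hF ht
  have h2 := hasDerivAt_gv (m := m) (fst_deriv h1) (snd_deriv h1)
  have h3 : HasDerivAt (fun s : ℝ => 3 * s * energy m z) (3 * energy m z) t := by
    have := ((hasDerivAt_id t).const_mul (3 : ℝ)).mul_const (energy m z)
    simpa using this
  refine ((h2.const_mul 2).fun_sub h3).congr_deriv ?_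
  have h4 := (flow_energy hd hR hF ht0 h).1
  rw [← h4]
  have h5 := vir (m := m) (good_col hd ht)
  have h6 : ∑ a, m a * (ip ((vf m (F t z)).1 a) ((F t z).2 a) + ip ((F t z).1 a) ((vf m (F t z)).2 a)) =
      ∑ a, m a * ‖(F t z).2 a‖ ^ 2 + ∑ a, m a * ip ((F t z).1 a) (acc m (F t z).1 a) := by
    rw [← Finset.sum_add_distrib]
    refine Finset.sum_congr rfl fun a _ => ?_
    rw [← ip_self]
    simp only [vf]
    ring
  rw [h6]
  unfold lag energy
  linarith

theorem fderiv_cvf' (hd : 0 < d) (hR : 0 < R) {w : Ph n} (hw : w ∈ good d R) (ζ : Ph n) :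
    fderiv ℝ (cvf m d R) w ζ = (ζ.2, fderiv ℝ (acc m) w.1 ζ.1) := by
  have h : cvf m d R =ᶠ[𝓝 w] vf m := by
    filter_upwards [(isOpen_good d R).mem_nhds hw] with z hz
    exact cvf_good hd hR hz
  rw [h.fderiv_eq, fderiv_vf (good_col hd hw)]

theorem var' (hd : 0 < d) (hR : 0 < R) (hF : IsFl (cvf m d R) F) {z : Ph n} {t : ℝ}
    (h : F t z ∈ good d R) (ζ : Ph n) :
    HasDerivAt (fun t => fderiv ℝ (F t) z ζ)
      ((fderiv ℝ (F t) z ζ).2, fderiv ℝ (acc m) (F t z).1 (fderiv ℝ (F t) z ζ).1) t := by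
  have h1 := hF.var (contDiff_cvf hd R) t z ζ
  rw [fderiv_cvf' hd hR h] at h1
  exact h1

theorem energy_var (hd : 0 < d) (hR : 0 < R) (hF : IsFl (cvf m d R) F) {z : Ph n} {t : ℝ}
    (ht0 : 0 ≤ t) (h : ∀ s ∈ Set.Icc 0 t, F s z ∈ good d R) (ζ : Ph n) :
    B m (gE m (F t z)) (fderiv ℝ (F t) z ζ) = B m (gE m z) ζ := by
  have ht : F t z ∈ good d R := h t ⟨ht0, le_rfl⟩
  have hz : z ∈ good d R := by simpa [hF.zero] using h 0 ⟨le_rfl, ht0⟩
  rw [← fderiv_energy (good_col hd ht), ← fderiv_energy (good_col hd hz)]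
  have h0 := ((contDiffAt_energy (m := m) (good_col hd hz)).differentiableAt (by simp)).hasFDerivAt
  have h2 := ((contDiffAt_energy (m := m) (good_col hd ht)).differentiableAt (by simp)).hasFDerivAt
  have h1 : HasFDerivAt (fun z => energy m (F t z)) ((fderiv ℝ (energy m) (F t z)).comp
      (fderiv ℝ (F t) z)) z := h2.comp z (hF.hasFDerivAt t z)
  have hfl : ∀ᶠ w in 𝓝 z, energy m w = energy m (F t w) :=
    (near_good hF h).mono fun w hw => (flow_energy hd hR hF ht0 hw).1.symm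
  have h3 := (h1.congr_of_eventuallyEq hfl).unique h0
  exact congrArg (fun L : Ph n →L[ℝ] ℝ => L ζ) h3

/-- the first variation of the action of a segment of a solution -/
theorem first_var (hd : 0 < d) (hR : 0 < R) (hF : IsFl (cvf m d R) F) {z : Ph n} {D : ℝ}
    (hD : 0 ≤ D) (h : ∀ s ∈ Set.Icc 0 D, F s z ∈ good d R) (ζ : Ph n) :
    2 * (∑ a, m a * (ip ((fderiv ℝ (F D) z ζ).1 a) ((F D z).2 a) +
        ip ((F D z).1 a) ((fderiv ℝ (F D) z ζ).2 a)) -
      ∑ a, m a * (ip (ζ.1 a) (z.2 a) + ip (z.1 a) (ζ.2 a))) - 3 * D * B m (gE m z) ζ =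
    ∑ a, m a * ip ((F D z).2 a) ((fderiv ℝ (F D) z ζ).1 a) - ∑ a, m a * ip (z.2 a) (ζ.1 a) := by
  set ξ : ℝ → Ph n := fun s => fderiv ℝ (F s) z ζ with hξ
  have hz0 : ξ 0 = ζ := hF.fderiv_zero z ζ
  set φ : ℝ → ℝ := fun s => 2 * (∑ a, m a * (ip ((ξ s).1 a) ((F s z).2 a) +
      ip ((F s z).1 a) ((ξ s).2 a))) - 3 * s * B m (gE m z) ζ -
      ∑ a, m a * ip ((F s z).2 a) ((ξ s).1 a) with hφ
  have key : ∀ t ∈ Set.Icc 0 D, HasDerivAt φ 0 t := by
    intro t ht
    have hg : F t z ∈ good d R := h t ht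
    have h1 := flow_vf hd hR hF hg
    have h2 : HasDerivAt ξ ((ξ t).2, fderiv ℝ (acc m) (F t z).1 (ξ t).1) t := var' hd hR hF hg ζ
    have hq := fst_deriv h1
    have hv := snd_deriv h1
    have hξq := fst_deriv h2
    have hξv := snd_deriv h2
    have e1 : HasDerivAt (fun s => ∑ a, m a * (ip ((ξ s).1 a) ((F s z).2 a) +
        ip ((F s z).1 a) ((ξ s).2 a)))
        (∑ a, m a * ((ip ((ξ t).2 a) ((F t z).2 a) + ip ((ξ t).1 a) (acc m (F t z).1 a)) +
          (ip ((F t z).2 a) ((ξ t).2 a) +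
            ip ((F t z).1 a) (fderiv ℝ (acc m) (F t z).1 (ξ t).1 a)))) t :=
      HasDerivAt.fun_sum fun a _ =>
        ((hasDerivAt_ip (hξq a) (hv a)).fun_add (hasDerivAt_ip (hq a) (hξv a))).const_mul _
    have e2 : HasDerivAt (fun s : ℝ => 3 * s * B m (gE m z) ζ) (3 * B m (gE m z) ζ) t := by
      have := ((hasDerivAt_id t).const_mul (3 : ℝ)).mul_const (B m (gE m z) ζ)
      simpa using this
    have e3 : HasDerivAt (fun s => ∑ a, m a * ip ((F s z).2 a) ((ξ s).1 a))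
        (∑ a, m a * (ip (acc m (F t z).1 a) ((ξ t).1 a) + ip ((F t z).2 a) ((ξ t).2 a))) t :=
      HasDerivAt.fun_sum fun a _ => (hasDerivAt_ip (hv a) (hξq a)).const_mul _
    refine (((e1.const_mul 2).fun_sub e2).fun_sub e3).congr_deriv ?_
    have e4 := energy_var hd hR hF ht.1 (fun s hs => h s ⟨hs.1, hs.2.trans ht.2⟩) ζ
    rw [← e4]
    have e5 := vir_deriv (m := m) (good_col hd hg) (ξ t).1
    have e6 : B m (gE m (F t z)) (ξ t) = ∑ a, m a * ip ((F t z).2 a) ((ξ t).2 a) -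
        ∑ a, m a * ip (acc m (F t z).1 a) ((ξ t).1 a) := by
      unfold B gE
      rw [← Finset.sum_sub_distrib]
      refine Finset.sum_congr rfl fun a _ => ?_
      simp only [ip_eq, Complex.neg_re, Complex.neg_im]
      ring
    have e7 : ∑ a, m a * ((ip ((ξ t).2 a) ((F t z).2 a) + ip ((ξ t).1 a) (acc m (F t z).1 a)) +
          (ip ((F t z).2 a) ((ξ t).2 a) +
            ip ((F t z).1 a) (fderiv ℝ (acc m) (F t z).1 (ξ t).1 a))) =
        2 * ∑ a, m a * ip ((F t z).2 a) ((ξ t).2 a) +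
          ∑ a, m a * (ip ((ξ t).1 a) (acc m (F t z).1 a) +
            ip ((F t z).1 a) (fderiv ℝ (acc m) (F t z).1 (ξ t).1 a)) := by
      rw [Finset.mul_sum, ← Finset.sum_add_distrib]
      refine Finset.sum_congr rfl fun a _ => ?_
      rw [ip_comm ((ξ t).2 a)]
      ring
    have e8 : ∑ a, m a * (ip (acc m (F t z).1 a) ((ξ t).1 a) + ip ((F t z).2 a) ((ξ t).2 a)) =
        ∑ a, m a * ip (acc m (F t z).1 a) ((ξ t).1 a) +
          ∑ a, m a * ip ((F t z).2 a) ((ξ t).2 a) := by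
      rw [← Finset.sum_add_distrib]
      refine Finset.sum_congr rfl fun a _ => ?_
      ring
    change 2 * _ - 3 * B m (gE m (F t z)) (ξ t) - _ = 0
    rw [e6, e7, e8, e5]
    ring
  have hend := constant_of_has_deriv_right_zero
      (fun t ht => (key t ht).continuousAt.continuousWithinAt)
      (fun t ht => (key t ⟨ht.1, ht.2.le⟩).hasDerivWithinAt) D ⟨hD, le_rfl⟩
  simp only [hφ, hz0, hF.zero, mul_zero, zero_mul, sub_zero] at hend
  linarith

/-- the derivative of the action of a segment along a curve of initial values -/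
theorem hasDerivAt_actn (hd : 0 < d) (hR : 0 < R) (hF : IsFl (cvf m d R) F) {D : ℝ}
    (hD : 0 ≤ D) {z : ℝ → Ph n} {ζ : Ph n} {r : ℝ} (hz : HasDerivAt z ζ r)
    (h : ∀ s ∈ Set.Icc 0 D, F s (z r) ∈ good d R) :
    HasDerivAt (fun r => actn m F D (z r))
      (∑ a, m a * ip ((F D (z r)).2 a) ((fderiv ℝ (F D) (z r) ζ).1 a) -
        ∑ a, m a * ip ((z r).2 a) (ζ.1 a)) r := by
  have h0 : z r ∈ good d R := by simpa [hF.zero] using h 0 ⟨le_rfl, hD⟩
  have h1 : HasDerivAt (fun r => F D (z r)) (fderiv ℝ (F D) (z r) ζ) r :=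
    (hF.hasFDerivAt D (z r)).comp_hasDerivAt r hz
  have h2 := hasDerivAt_gv (m := m) (fst_deriv h1) (snd_deriv h1)
  have h3 := hasDerivAt_gv (m := m) (fst_deriv hz) (snd_deriv hz)
  have h4 : HasDerivAt (fun r => energy m (z r)) (B m (gE m (z r)) ζ) r := by
    have h5 := ((contDiffAt_energy (m := m) (good_col hd h0)).differentiableAt (by simp)).hasFDerivAt
    have h6 := h5.comp_hasDerivAt r hz
    rw [fderiv_energy (good_col hd h0)] at h6
    exact h6
  refine (((h2.fun_sub h3).const_mul 2).fun_sub (h4.const_mul (3 * D))).congr_deriv ?_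
  exact first_var hd hR hF hD h ζ

end

end Pool.Agent.J6H86.NP
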