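import Pool.Agent.J6H86.NP.Bvp

/-!
# Broken solutions
-/

set_option autoImplicit false

open Complex Finset Filter Topology ComplexConjugate MeasureTheory
open scoped ContDiff

namespace Pool.Agent.J6H86.NP

open Pool.Agent.W821.TB

variable {n : ℕ} {m : Fin n → ℝ} {d R : ℝ} {F : ℝ → Ph n → Ph n} {D S : ℝ} {Z : ℤ → Ph n}

/-- the action of a closed curve -/
noncomputable def action (m : Fin n → ℝ) (q : ℝ → Fin n → ℂ) (S : ℝ) : ℝ :=
  ∫ t in (0 : ℝ)..S, lag m (q t) (deriv q t)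

/-- the curve of phase points which consists of the segments of solutions starting at `Z j` at the
time `j D` -/
noncomputable def bt (F : ℝ → Ph n → Ph n) (D : ℝ) (Z : ℤ → Ph n) (t : ℝ) : Ph n :=
  F (t - ⌊t / D⌋ * D) (Z ⌊t / D⌋)

theorem floor_eq' (hD : 0 < D) {j : ℤ} {t : ℝ} (h1 : j * D ≤ t) (h2 : t < (j + 1) * D) :
    ⌊t / D⌋ = j := by
  rw [Int.floor_eq_iff]
  exact ⟨(le_div_iff₀ hD).2 h1, (div_lt_iff₀ hD).2 h2⟩

theorem floor_spec (hD : 0 < D) (t : ℝ) : (⌊t / D⌋ : ℝ) * D ≤ t ∧ t < (⌊t / D⌋ + 1) * D :=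
  ⟨(le_div_iff₀ hD).1 (Int.floor_le _), (div_lt_iff₀ hD).1 (Int.lt_floor_add_one _)⟩

theorem bt_eq (hD : 0 < D) {j : ℤ} {t : ℝ} (h1 : j * D ≤ t) (h2 : t < (j + 1) * D) :
    bt F D Z t = F (t - j * D) (Z j) := by
  unfold bt
  rw [floor_eq' hD h1 h2]

theorem bt_fst (hF : IsFl (cvf m d R) F) (hD : 0 < D) (hJ : ∀ j, (F D (Z j)).1 = (Z (j + 1)).1)
    {j : ℤ} {t : ℝ} (h1 : j * D ≤ t) (h2 : t ≤ (j + 1) * D) :
    (bt F D Z t).1 = (F (t - j * D) (Z j)).1 := by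
  rcases h2.lt_or_eq with h | h
  · rw [bt_eq hD h1 h]
  · have h3 : ((j + 1 : ℤ) : ℝ) * D ≤ t := by push_cast; exact h.ge
    have h4 : t < (((j + 1 : ℤ) : ℝ) + 1) * D := by push_cast; nlinarith
    rw [bt_eq hD h3 h4]
    have h5 : t - ((j + 1 : ℤ) : ℝ) * D = 0 := by push_cast; linarith
    have h6 : t - j * D = D := by rw [h]; ring
    rw [h5, h6, hF.zero, hJ]

theorem seg_deriv (hd : 0 < d) (hR : 0 < R) (hF : IsFl (cvf m d R) F)
    (hg : ∀ j, ∀ s ∈ Set.Icc 0 D, F s (Z j) ∈ good d R) {j : ℤ} {t : ℝ}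
    (h1 : j * D ≤ t) (h2 : t ≤ (j + 1) * D) :
    HasDerivAt (fun t => (F (t - j * D) (Z j)).1) (F (t - j * D) (Z j)).2 t := by
  have h3 : F (t - j * D) (Z j) ∈ good d R := hg j _ ⟨by linarith, by linarith⟩
  have h4 := flow_vf hd hR hF h3
  have h5 : HasDerivAt (fun s => (F s (Z j)).1) (F (t - j * D) (Z j)).2 (t - j * D) :=
    hasDerivAt_pi.2 (fst_deriv h4)
  exact h5.comp_sub_const t (j * D)

theorem bt_right (hd : 0 < d) (hR : 0 < R) (hF : IsFl (cvf m d R) F) (hD : 0 < D)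
    (hg : ∀ j, ∀ s ∈ Set.Icc 0 D, F s (Z j) ∈ good d R) (t : ℝ) :
    HasDerivWithinAt (fun t => (bt F D Z t).1) (bt F D Z t).2 (Set.Ici t) t := by
  obtain ⟨h1, h2⟩ := floor_spec hD t
  set j := ⌊t / D⌋ with hj
  have h3 := (seg_deriv hd hR hF hg h1 h2.le).hasDerivWithinAt (s := Set.Ici t)
  rw [bt_eq hD h1 h2]
  refine h3.congr_of_eventuallyEq ?_ (by rw [bt_eq hD h1 h2])
  have h4 : Set.Ico t ((j + 1) * D) ∈ 𝓝[≥] t := Ico_mem_nhdsGE h2
  filter_upwards [h4] with u hu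
  rw [bt_eq hD (h1.trans hu.1) hu.2]

theorem bt_deriv (hd : 0 < d) (hR : 0 < R) (hF : IsFl (cvf m d R) F) (hD : 0 < D)
    (hg : ∀ j, ∀ s ∈ Set.Icc 0 D, F s (Z j) ∈ good d R) {t : ℝ} (ht : ∀ j : ℤ, t ≠ j * D) :
    HasDerivAt (fun t => (bt F D Z t).1) (bt F D Z t).2 t := by
  obtain ⟨h1, h2⟩ := floor_spec hD t
  set j := ⌊t / D⌋ with hj
  have h3 := seg_deriv hd hR hF hg h1 h2.le
  rw [bt_eq hD h1 h2]
  refine h3.congr_of_eventuallyEq ?_
  have h4 : Set.Ioo (j * D) ((j + 1) * D) ∈ 𝓝 t := Ioo_mem_nhds (lt_of_le_of_ne h1 (ht j).symm) h2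
  filter_upwards [h4] with u hu
  rw [bt_eq hD hu.1.le hu.2]

theorem bt_cont (hd : 0 < d) (hR : 0 < R) (hF : IsFl (cvf m d R) F) (hD : 0 < D)
    (hJ : ∀ j, (F D (Z j)).1 = (Z (j + 1)).1)
    (hg : ∀ j, ∀ s ∈ Set.Icc 0 D, F s (Z j) ∈ good d R) :
    Continuous fun t => (bt F D Z t).1 := by
  rw [continuous_iff_continuousAt]
  intro t
  rw [continuousAt_iff_continuous_left_right]
  refine ⟨?_, (bt_right hd hR hF hD hg t).continuousWithinAt⟩
  -- the segment to the left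
  obtain ⟨j, h1, h2⟩ : ∃ j : ℤ, j * D < t ∧ t ≤ (j + 1) * D := by
    refine ⟨⌈t / D⌉ - 1, ?_, ?_⟩
    · have := Int.ceil_lt_add_one (t / D)
      have h3 : ((⌈t / D⌉ - 1 : ℤ) : ℝ) < t / D := by push_cast; linarith
      exact (lt_div_iff₀ hD).1 h3
    · have := Int.le_ceil (t / D)
      have h3 : t / D ≤ ((⌈t / D⌉ - 1 : ℤ) : ℝ) + 1 := by push_cast; linarith
      exact (div_le_iff₀ hD).1 h3
  have h3 := (seg_deriv hd hR hF hg h1.le h2).continuousAt.continuousWithinAt (s := Set.Iic t)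
  refine h3.congr_of_eventuallyEq ?_ (bt_fst hF hD hJ h1.le h2)
  have h4 : Set.Ioc (j * D) t ∈ 𝓝[≤] t := Ioc_mem_nhdsLE h1
  filter_upwards [h4] with u hu
  exact bt_fst hF hD hJ hu.1.le (hu.2.trans h2)

theorem bt_good (hD : 0 < D) (hg : ∀ j, ∀ s ∈ Set.Icc 0 D, F s (Z j) ∈ good d R) (t : ℝ) :
    bt F D Z t ∈ good d R := by
  obtain ⟨h1, h2⟩ := floor_spec hD t
  exact hg _ _ ⟨by linarith, by linarith⟩

theorem bt_com (hF : IsFl (cvf m d R) F) (hZ : ∀ j, Z j ∈ com m) (t : ℝ) :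
    bt F D Z t ∈ com m := flow_com hF (hZ _) _

theorem bt_period (hF : IsFl (cvf m d R) F) (hD : 0 < D) {N : ℕ} (hN : (N : ℝ) * D = S) {c : ℂ}
    (hc : ‖c‖ = 1) {σ : Equiv.Perm (Fin n)} (hσ : ∀ a, m (σ a) = m a)
    (hP : ∀ j, Z (j + N) = rot c σ (Z j)) (t : ℝ) :
    bt F D Z (t + S) = rot c σ (bt F D Z t) := by
  obtain ⟨h1, h2⟩ := floor_spec hD t
  have h3 : ((⌊t / D⌋ + N : ℤ) : ℝ) * D ≤ t + S := by push_cast; rw [← hN]; linarith
  have h4 : t + S < (((⌊t / D⌋ + N : ℤ) : ℝ) + 1) * D := by push_cast; rw [← hN]; linarith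
  rw [bt_eq hD h3 h4, hP, hF.comm (rot c σ) (cvf_rot hc σ hσ d R)]
  have h5 : t + S - ((⌊t / D⌋ + N : ℤ) : ℝ) * D = t - ⌊t / D⌋ * D := by
    push_cast; rw [← hN]; ring
  rw [h5]
  rfl

/-! ### the Lagrangian along segments -/

theorem lag_cont (hd : 0 < d) (hR : 0 < R) (hF : IsFl (cvf m d R) F) {z : Ph n}
    (hz : ∀ s ∈ Set.Icc 0 D, F s z ∈ good d R) :
    ContinuousOn (fun s => lag m (F s z).1 (F s z).2) (Set.Icc 0 D) := by
  intro t ht
  have h1 := flow_vf hd hR hF (hz t ht)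
  have h2 := (hasDerivAt_upot (m := m) (fst_deriv h1) (good_col hd (hz t ht))).continuousAt
  have h3 : ContinuousAt (fun s => (∑ a, m a * ‖(F s z).2 a‖ ^ 2) / 2) t := by
    refine ContinuousAt.div_const ?_ _
    refine tendsto_finsetSum _ fun a _ => ?_
    exact (((snd_deriv h1 a).continuousAt.norm).pow 2).const_mul (m a)
  exact (h3.add h2).continuousWithinAt

theorem lag_integral (hd : 0 < d) (hR : 0 < R) (hF : IsFl (cvf m d R) F) {z : Ph n} (hD : 0 ≤ D)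
    (hz : ∀ s ∈ Set.Icc 0 D, F s z ∈ good d R) :
    ∫ s in (0 : ℝ)..D, lag m (F s z).1 (F s z).2 = actn m F D z := by
  have h1 : ∀ t ∈ Set.uIcc 0 D, HasDerivAt (fun s => 2 * gv m (F s z) - 3 * s * energy m z)
      (lag m (F t z).1 (F t z).2) t := by
    intro t ht
    rw [Set.uIcc_of_le hD] at ht
    exact lag_deriv hd hR hF ht.1 fun s hs => hz s ⟨hs.1, hs.2.trans ht.2⟩
  rw [intervalIntegral.integral_eq_sub_of_hasDerivAt h1]
  · unfold actn
    rw [hF.zero]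
    ring
  · have h2 := lag_cont hd hR hF hz
    rw [← Set.uIcc_of_le hD] at h2
    exact h2.intervalIntegrable

theorem lag_rot {c : ℂ} (hc : ‖c‖ = 1) {σ : Equiv.Perm (Fin n)} (hσ : ∀ a, m (σ a) = m a)
    (z : Ph n) : lag m (rot c σ z).1 (rot c σ z).2 = lag m z.1 z.2 := by
  have h1 := energy_rot hc hσ z
  have h2 : ∑ a, m a * ‖(rot c σ z).2 a‖ ^ 2 = ∑ a, m a * ‖z.2 a‖ ^ 2 := by
    rw [← Equiv.sum_comp σ (fun a => m a * ‖z.2 a‖ ^ 2)]
    refine Finset.sum_congr rfl fun a _ => ?_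
    rw [rot_snd, norm_mul, hc, one_mul, hσ]
  unfold energy at h1
  unfold lag
  linarith

theorem actn_rot (hF : IsFl (cvf m d R) F) {c : ℂ} (hc : ‖c‖ = 1) {σ : Equiv.Perm (Fin n)}
    (hσ : ∀ a, m (σ a) = m a) (z : Ph n) (D : ℝ) : actn m F D (rot c σ z) = actn m F D z := by
  have hgv : ∀ z : Ph n, gv m (rot c σ z) = gv m z := by
    intro z
    unfold gv
    rw [← Equiv.sum_comp σ (fun a => m a * ip (z.1 a) (z.2 a))]
    refine Finset.sum_congr rfl fun a _ => ?_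
    rw [rot_fst, rot_snd, hσ]
    have h1 : conj c * c = 1 := by
      rw [← Complex.normSq_eq_conj_mul_self, Complex.normSq_eq_norm_sq, hc]; simp
    have h2 : ip (c * z.1 (σ a)) (c * z.2 (σ a)) = ip (z.1 (σ a)) (z.2 (σ a)) := by
      unfold ip
      have : conj (c * z.1 (σ a)) * (c * z.2 (σ a)) = (conj c * c) * (conj (z.1 (σ a)) * z.2 (σ a)) := by
        rw [map_mul]; ring
      rw [this, h1, one_mul]
    rw [h2]
  unfold actn
  rw [hF.comm (rot c σ) (cvf_rot hc σ hσ d R), hgv, hgv, energy_rot hc hσ]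

/-- the action of one period of the broken solution -/
theorem bt_integral (hd : 0 < d) (hR : 0 < R) (hF : IsFl (cvf m d R) F) (hD : 0 < D)
    (hg : ∀ j, ∀ s ∈ Set.Icc 0 D, F s (Z j) ∈ good d R) (N : ℕ) :
    ∫ t in (0 : ℝ)..(N * D), lag m (bt F D Z t).1 (bt F D Z t).2 =
      ∑ k ∈ Finset.range N, actn m F D (Z k) := by
  set f : ℝ → ℝ := fun t => lag m (bt F D Z t).1 (bt F D Z t).2 with hf
  have hpiece : ∀ k : ℕ, IntervalIntegrable f volume (k * D) ((k + 1 : ℕ) * D) ∧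
      ∫ t in (k * D : ℝ)..((k + 1 : ℕ) * D), f t = actn m F D (Z k) := by
    intro k
    have hle : (k * D : ℝ) ≤ (k + 1 : ℕ) * D := by push_cast; nlinarith
    set g : ℝ → ℝ := fun t => lag m (F (t - k * D) (Z k)).1 (F (t - k * D) (Z k)).2 with hgdef
    have hgc : ContinuousOn g (Set.uIcc (k * D) ((k + 1 : ℕ) * D)) := by
      rw [Set.uIcc_of_le hle]
      have h1 := lag_cont hd hR hF (hg k)
      have h2 : ContinuousOn (fun t : ℝ => t - k * D) (Set.Icc (k * D) ((k + 1 : ℕ) * D)) := by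
        fun_prop
      refine h1.comp h2 fun t ht => ?_
      have h3 := ht.1
      have h4 := ht.2
      push_cast at h4
      exact ⟨by linarith, by linarith⟩
    have heq : Set.EqOn g f (Set.uIoo (k * D) ((k + 1 : ℕ) * D)) := by
      intro t ht
      rw [Set.uIoo_of_le hle] at ht
      have h1 : ((k : ℤ) : ℝ) * D ≤ t := by push_cast; exact ht.1.le
      have h2 : t < (((k : ℤ) : ℝ) + 1) * D := by
        have := ht.2
        push_cast at this ⊢
        exact this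
      simp only [hf, hgdef]
      rw [bt_eq hD h1 h2]
      push_cast
      rfl
    refine ⟨hgc.intervalIntegrable.congr_uIoo heq, ?_⟩
    rw [← intervalIntegral.integral_congr_uIoo heq]
    have h1 : ∫ t in (k * D : ℝ)..((k + 1 : ℕ) * D), g t =
        ∫ s in (k * D - k * D : ℝ)..((k + 1 : ℕ) * D - k * D), lag m (F s (Z k)).1 (F s (Z k)).2 :=
      intervalIntegral.integral_comp_sub_right (fun s => lag m (F s (Z k)).1 (F s (Z k)).2) _
    rw [h1]
    have h2 : (k * D - k * D : ℝ) = 0 := by ring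
    have h3 : ((k + 1 : ℕ) * D - k * D : ℝ) = D := by push_cast; ring
    rw [h2, h3]
    exact lag_integral hd hR hF hD.le (hg k)
  have h1 := intervalIntegral.sum_integral_adjacent_intervals (f := f) (μ := volume)
    (a := fun k : ℕ => (k : ℝ) * D) (n := N) fun k _ => (hpiece k).1
  simp only [Nat.cast_zero, zero_mul] at h1
  rw [← h1]
  exact Finset.sum_congr rfl fun k _ => (hpiece k).2

end Pool.Agent.J6H86.NP
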