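import Pool.Agent.J6H86.NP.Act

/-!
# Solutions with given positions at the times `0` and `D`, for small `D`
-/

set_option autoImplicit false

open Complex Finset Filter Topology ComplexConjugate
open scoped ContDiff

namespace Pool.Agent.J6H86.NP

open Pool.Agent.W821.TB

variable {n : ℕ} {m : Fin n → ℝ} {d R : ℝ} {F : ℝ → Ph n → Ph n}

theorem IsFl.continuous_fderiv {E : Type} [NormedAddCommGroup E] [NormedSpace ℝ E] [CompleteSpace E]
    {Y : E → E} {F : ℝ → E → E} (h : IsFl Y F) :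
    Continuous fun p : ℝ × E => fderiv ℝ (F p.1) p.2 := by
  have h1 : Continuous (fderiv ℝ (fun p : ℝ × E => F p.1 p.2)) :=
    h.smooth.continuous_fderiv (by simp)
  have h2 : (fun p : ℝ × E => fderiv ℝ (F p.1) p.2) = fun p =>
      (fderiv ℝ (fun p : ℝ × E => F p.1 p.2) p).comp (ContinuousLinearMap.inr ℝ ℝ E) := by
    funext p
    have h3 : HasFDerivAt (fun p : ℝ × E => F p.1 p.2)
        (fderiv ℝ (fun p : ℝ × E => F p.1 p.2) p) ((fun z : E => (p.1, z)) p.2) :=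
      (h.smooth.differentiable (by simp) p).hasFDerivAt
    have h4 : HasFDerivAt (fun z : E => (p.1, z)) (ContinuousLinearMap.inr ℝ ℝ E) p.2 :=
      hasFDerivAt_prodMk_right p.1 p.2
    exact (h3.comp p.2 h4).fderiv
  rw [h2]
  exact h1.clm_comp continuous_const

theorem norm_le_of_good {z : Ph n} (hR : 0 < R) (hz : z ∈ good d R) : ‖z‖ ≤ R := by
  rcases sq_le_ssq z with h | h
  · have h1 : ‖z‖ ^ 2 < R ^ 2 := lt_of_le_of_lt h hz.2
    exact (lt_of_pow_lt_pow_left₀ 2 hR.le h1).le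
  · rw [h]; exact hR.le

/-- for small times the position depends in a nondegenerate way on the initial velocity -/
theorem exists_small (hd : 0 < d) (hR : 0 < R) (hF : IsFl (cvf m d R) F) :
    ∃ D₀ : ℝ, 0 < D₀ ∧ ∀ D : ℝ, 0 < D → D ≤ D₀ → ∀ z : Ph n,
      (∀ s ∈ Set.Icc 0 D, F s z ∈ good d R) → ∀ w : Fin n → ℂ,
      (fderiv ℝ (F D) z (0, w)).1 = 0 → w = 0 := by
  set A : ℝ → Ph n → ((Fin n → ℂ) →L[ℝ] (Fin n → ℂ)) := fun s z =>
    (ContinuousLinearMap.snd ℝ (Fin n → ℂ) (Fin n → ℂ)).comp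
      ((fderiv ℝ (F s) z).comp (ContinuousLinearMap.inr ℝ (Fin n → ℂ) (Fin n → ℂ))) with hA
  have hAc : Continuous fun p : ℝ × Ph n => A p.1 p.2 :=
    continuous_const.clm_comp (hF.continuous_fderiv.clm_comp continuous_const)
  have hA0 : ∀ z, A 0 z = ContinuousLinearMap.id ℝ _ := by
    intro z
    ext1 w
    simp [hA, hF.fderiv_zero]
  have hK : IsCompact (Metric.closedBall (0 : Ph n) R) := isCompact_closedBall _ _
  have h1 : ∀ᶠ s : ℝ in 𝓝 0, ∀ z ∈ Metric.closedBall (0 : Ph n) R,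
      ‖A s z - ContinuousLinearMap.id ℝ _‖ < 1 / 2 := by
    refine hK.eventually_forall_of_forall_eventually fun z _ => ?_
    have h2 : ContinuousAt (fun p : ℝ × Ph n => ‖A p.1 p.2 - ContinuousLinearMap.id ℝ _‖) (0, z) :=
      (hAc.sub continuous_const).norm.continuousAt
    have h3 : ‖A ((0 : ℝ), z).1 ((0 : ℝ), z).2 - ContinuousLinearMap.id ℝ _‖ < 1 / 2 := by
      simp only [hA0, sub_self, norm_zero]
      norm_num
    exact h2.eventually (gt_mem_nhds h3)
  obtain ⟨ε, hε, h2⟩ := Metric.eventually_nhds_iff.1 h1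
  refine ⟨ε / 2, by positivity, fun D hD hDε z hz w hw => ?_⟩
  have hzK : z ∈ Metric.closedBall (0 : Ph n) R := by
    rw [mem_closedBall_zero_iff]
    exact norm_le_of_good hR (by simpa [hF.zero] using hz 0 ⟨le_rfl, hD.le⟩)
  set g : ℝ → (Fin n → ℂ) := fun s => (fderiv ℝ (F s) z (0, w)).1 - s • w with hg
  have hgd : ∀ s ∈ Set.Icc 0 D, HasDerivWithinAt g (A s z w - w) (Set.Icc 0 D) s := by
    intro s hs
    have h3 := var' hd hR hF (hz s hs) (0, w)
    have h4 : HasDerivAt (fun s => (fderiv ℝ (F s) z (0, w)).1) ((fderiv ℝ (F s) z (0, w)).2) s :=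
      hasDerivAt_pi.2 (fst_deriv h3)
    have h5 : HasDerivAt (fun s : ℝ => s • w) w s := by
      have := (hasDerivAt_id s).smul_const w
      rwa [one_smul] at this
    exact (h4.fun_sub h5).hasDerivWithinAt
  have hbound : ∀ s ∈ Set.Icc 0 D, ‖A s z w - w‖ ≤ 1 / 2 * ‖w‖ := by
    intro s hs
    have h3 : ‖A s z - ContinuousLinearMap.id ℝ _‖ < 1 / 2 := by
      refine h2 ?_ z hzK
      rw [Real.dist_eq, sub_zero, abs_of_nonneg hs.1]
      linarith [hs.2]
    have h4 := (A s z - ContinuousLinearMap.id ℝ (Fin n → ℂ)).le_opNorm w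
    have h5 : (A s z - ContinuousLinearMap.id ℝ (Fin n → ℂ)) w = A s z w - w := rfl
    rw [h5] at h4
    exact h4.trans (mul_le_mul_of_nonneg_right h3.le (norm_nonneg w))
  have h3 := (convex_Icc (0 : ℝ) D).norm_image_sub_le_of_norm_hasDerivWithin_le hgd hbound
    ⟨le_rfl, hD.le⟩ ⟨hD.le, le_rfl⟩
  have h4 : g D - g 0 = - (D • w) := by
    simp only [hg, hw, hF.fderiv_zero, zero_smul, sub_zero, zero_sub]
  rw [h4, norm_neg, norm_smul, sub_zero, Real.norm_eq_abs, abs_of_pos hD] at h3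
  have h5 : ‖w‖ ≤ 0 := by
    by_contra hcon
    push Not at hcon
    nlinarith
  exact norm_le_zero_iff.1 h5

/-- a segment whose end points are in the centre of mass frame is in the centre of mass frame -/
theorem com_of_ends (hd : 0 < d) (hR : 0 < R) (hF : IsFl (cvf m d R) F) {D : ℝ} (hD : 0 < D)
    {z : Ph n} (hz : ∀ s ∈ Set.Icc 0 D, F s z ∈ good d R)
    (h0 : ∑ a, (m a : ℂ) * z.1 a = 0) (h1 : ∑ a, (m a : ℂ) * (F D z).1 a = 0) : z ∈ com m := by
  refine ⟨h0, ?_⟩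
  set p : ℂ := ∑ a, (m a : ℂ) * z.2 a with hp
  have hmom : ∀ t, ∑ a, (m a : ℂ) * (F t z).2 a = p := by
    intro t
    have h2 : ∀ t, HasDerivAt (fun s => ∑ a, (m a : ℂ) * (F s z).2 a) 0 t := by
      intro t
      have h3 := HasDerivAt.fun_sum (u := univ) fun a _ =>
        (snd_deriv (hF.deriv t z) a).const_mul (m a : ℂ)
      have h4 : ∑ a, (m a : ℂ) * (cvf m d R (F t z)).2 a = 0 := sum_smul_zero _ (force_zero (F t z).1)
      rwa [h4] at h3
    have h3 := is_const_of_deriv_eq_zero (f := fun s => ∑ a, (m a : ℂ) * (F s z).2 a)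
      (fun u => (h2 u).differentiableAt) (fun u => (h2 u).deriv) t 0
    rw [h3]
    simp only [hF.zero, hp]
  have hpos : ∀ t ∈ Set.Icc 0 D, HasDerivAt
      (fun s : ℝ => (∑ a, (m a : ℂ) * (F s z).1 a) - s • p) 0 t := by
    intro t ht
    have h3 := HasDerivAt.fun_sum (u := univ) fun a _ =>
        (fst_deriv (flow_vf hd hR hF (hz t ht)) a).const_mul (m a : ℂ)
    have h4 : ∑ a, (m a : ℂ) * (vf m (F t z)).1 a = p := hmom t
    rw [h4] at h3
    have h5 : HasDerivAt (fun s : ℝ => s • p) p t := by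
      have := (hasDerivAt_id t).smul_const p
      rwa [one_smul] at this
    have h6 := h3.fun_sub h5
    rwa [sub_self] at h6
  have h2 := constant_of_has_deriv_right_zero
      (fun t ht => (hpos t ht).continuousAt.continuousWithinAt)
      (fun t ht => (hpos t ⟨ht.1, ht.2.le⟩).hasDerivWithinAt) D ⟨hD.le, le_rfl⟩
  simp only [hF.zero] at h2
  rw [h0, h1, zero_smul, sub_zero, zero_sub, neg_eq_zero] at h2
  exact (smul_eq_zero.1 h2).resolve_left hD.ne'

/-- the local solution of the boundary value problem -/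
theorem exists_inv (hd : 0 < d) (hR : 0 < R) (hF : IsFl (cvf m d R) F) {D : ℝ} (hD : 0 < D)
    (hDs : ∀ z : Ph n, (∀ s ∈ Set.Icc 0 D, F s z ∈ good d R) → ∀ w : Fin n → ℂ,
      (fderiv ℝ (F D) z (0, w)).1 = 0 → w = 0)
    {z : Ph n} (hz : ∀ s ∈ Set.Icc 0 D, F s z ∈ good d R) :
    ∃ (g : Ph n → Ph n) (g' : Ph n →L[ℝ] Ph n),
      HasFDerivAt g g' (z.1, (F D z).1) ∧ g (z.1, (F D z).1) = z ∧
      (∀ p, (g' p).1 = p.1 ∧ (fderiv ℝ (F D) z (g' p)).1 = p.2) ∧
      ∀ᶠ p in 𝓝 (z.1, (F D z).1), (g p).1 = p.1 ∧ (F D (g p)).1 = p.2 ∧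
        (∀ s ∈ Set.Icc 0 D, F s (g p) ∈ good d R) ∧ (p ∈ com m → g p ∈ com m) := by
  set E : Ph n → Ph n := fun z => (z.1, (F D z).1) with hE
  set L : Ph n →L[ℝ] Ph n := (ContinuousLinearMap.fst ℝ (Fin n → ℂ) (Fin n → ℂ)).prod
    ((ContinuousLinearMap.fst ℝ (Fin n → ℂ) (Fin n → ℂ)).comp (fderiv ℝ (F D) z)) with hL
  have hLs : HasStrictFDerivAt E L z := by
    have h1 : HasStrictFDerivAt (F D) (fderiv ℝ (F D) z) z :=
      (hF.smooth_at D).contDiffAt.hasStrictFDerivAt (by simp)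
    exact hasStrictFDerivAt_fst.prodMk (hasStrictFDerivAt_fst.comp z h1)
  have hLapp : ∀ ζ, L ζ = (ζ.1, (fderiv ℝ (F D) z ζ).1) := fun ζ => rfl
  have hinj : Function.Injective L := by
    rw [injective_iff_map_eq_zero]
    intro ζ hζ
    rw [hLapp] at hζ
    have h1 : ζ.1 = 0 := congrArg Prod.fst hζ
    have h2 : (fderiv ℝ (F D) z ζ).1 = 0 := congrArg Prod.snd hζ
    have h3 : ζ = (0, ζ.2) := Prod.ext_iff.2 ⟨h1, rfl⟩
    rw [h3] at h2
    have h4 := hDs z hz ζ.2 h2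
    exact Prod.ext_iff.2 ⟨h1, h4⟩
  set Le : Ph n ≃L[ℝ] Ph n := (LinearEquiv.ofInjectiveEndo L.toLinearMap hinj).toContinuousLinearEquiv
    with hLe
  have hLe2 : (Le : Ph n →L[ℝ] Ph n) = L := ContinuousLinearMap.ext fun ζ => rfl
  rw [← hLe2] at hLs
  have hinv := hLs.to_localInverse
  have hright := hLs.eventually_right_inverse
  have himg := hLs.localInverse_apply_image
  refine ⟨hLs.localInverse E Le z, (Le.symm : Ph n →L[ℝ] Ph n), hinv.hasFDerivAt, himg, ?_, ?_⟩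
  · intro p
    have h1 : ((Le.symm p).1, (fderiv ℝ (F D) z (Le.symm p)).1) = p := by
      have h2 : L (Le.symm p) = Le (Le.symm p) := rfl
      rw [← hLapp, h2]
      exact Le.apply_symm_apply p
    have h2 := Prod.ext_iff.1 h1
    exact ⟨h2.1, h2.2⟩
  · have hcont : ContinuousAt (hLs.localInverse E Le z) (z.1, (F D z).1) :=
      hinv.hasFDerivAt.continuousAt
    have hg : ∀ᶠ w in 𝓝 z, ∀ s ∈ Set.Icc 0 D, F s w ∈ good d R := near_good hF hz
    have hg2 : ∀ᶠ p in 𝓝 (z.1, (F D z).1), ∀ s ∈ Set.Icc 0 D,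
        F s (hLs.localInverse E Le z p) ∈ good d R := by
      have h3 : Tendsto (hLs.localInverse E Le z) (𝓝 (z.1, (F D z).1)) (𝓝 z) := by
        have := hcont.tendsto
        rwa [himg] at this
      exact h3.eventually hg
    filter_upwards [hright, hg2] with p hp1 hp2
    have h0 := Prod.ext_iff.1 hp1
    have h1 : (hLs.localInverse E Le z p).1 = p.1 := h0.1
    have h2 : (F D (hLs.localInverse E Le z p)).1 = p.2 := h0.2
    refine ⟨h1, h2, hp2, fun hpc => ?_⟩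
    refine com_of_ends hd hR hF hD hp2 ?_ ?_
    · rw [h1]; exact hpc.1
    · rw [h2]; exact hpc.2

/-- varying the end points of a segment -/
theorem exists_curve (hd : 0 < d) (hR : 0 < R) (hF : IsFl (cvf m d R) F) {D : ℝ} (hD : 0 < D)
    (hDs : ∀ z : Ph n, (∀ s ∈ Set.Icc 0 D, F s z ∈ good d R) → ∀ w : Fin n → ℂ,
      (fderiv ℝ (F D) z (0, w)).1 = 0 → w = 0)
    {z : Ph n} (hz : ∀ s ∈ Set.Icc 0 D, F s z ∈ good d R) (hzc : z ∈ com m) {k : Ph n}
    (hk : k ∈ com m) :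
    ∃ y : ℝ → Ph n, y 0 = z ∧ ContinuousAt y 0 ∧
      HasDerivAt (fun r => actn m F D (y r))
        (∑ a, m a * ip ((F D z).2 a) (k.2 a) - ∑ a, m a * ip (z.2 a) (k.1 a)) 0 ∧
      ∀ᶠ r in 𝓝 (0 : ℝ), (y r).1 = z.1 + r • k.1 ∧ (F D (y r)).1 = (F D z).1 + r • k.2 ∧
        y r ∈ com m ∧ (∀ s ∈ Set.Icc 0 D, F s (y r) ∈ good d R) := by
  obtain ⟨g, g', hg1, hg2, hg3, hg4⟩ := exists_inv hd hR hF hD hDs hz
  set P : Ph n := (z.1, (F D z).1) with hP
  have hc : Continuous fun r : ℝ => P + r • k := by fun_prop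
  have h0 : P + (0 : ℝ) • k = P := by rw [zero_smul, add_zero]
  have hl : HasDerivAt (fun r : ℝ => P + r • k) k 0 := by
    have h := ((hasDerivAt_id (0 : ℝ)).smul_const k).const_add P
    rw [one_smul] at h
    exact h
  have hy : HasDerivAt (fun r : ℝ => g (P + r • k)) (g' k) 0 := by
    have h1 : HasFDerivAt g g' (P + (0 : ℝ) • k) := by rw [h0]; exact hg1
    exact HasFDerivAt.comp_hasDerivAt (l := g) (f := fun r : ℝ => P + r • k) (0 : ℝ) h1 hl
  have hy0 : g (P + (0 : ℝ) • k) = z := by rw [h0, hg2]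
  refine ⟨fun r => g (P + r • k), hy0, hy.continuousAt, ?_, ?_⟩
  · have h1 := hasDerivAt_actn (m := m) hd hR hF hD.le hy (by rw [hy0]; exact hz)
    rw [hy0] at h1
    rw [(hg3 k).1, (hg3 k).2] at h1
    exact h1
  · have ht : Tendsto (fun r : ℝ => P + r • k) (𝓝 0) (𝓝 P) := by
      have := hc.tendsto 0
      rwa [h0] at this
    filter_upwards [ht.eventually hg4] with r hr
    refine ⟨hr.1, hr.2.1, hr.2.2.2 ?_, hr.2.2.1⟩
    refine (com m).add_mem ?_ ((com m).smul_mem r hk)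
    exact ⟨hzc.1, (flow_com hF hzc D).1⟩

end Pool.Agent.J6H86.NP
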