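import Pool.Agent.J6H86.NP.Broken

/-!
# Comparison of a strict local minimiser with the broken solutions
-/

set_option autoImplicit false

open Complex Finset Filter Topology ComplexConjugate MeasureTheory
open scoped ContDiff

namespace Pool.Agent.J6H86.NP

open Pool.Agent.W821.TB

variable {n : ℕ} {m : Fin n → ℝ} {d R : ℝ} {F : ℝ → Ph n → Ph n} {D S : ℝ} {Z : ℤ → Ph n}
variable {x : ℝ → Ph n} {c : ℂ} {σ : Equiv.Perm (Fin n)}

/-- `x` minimises the action among the closed curves which are `ρ`-close to it, and it is the only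
minimiser up to rotations and shifts of the time -/
def MinWith (m : Fin n → ℝ) (x : ℝ → Ph n) (c : ℂ) (σ : Equiv.Perm (Fin n)) (S ρ : ℝ) : Prop :=
  ∀ q : ℝ → Fin n → ℂ,
    (∀ t a, q (t + S) a = c * q t (σ a)) →
    (∀ t, ∑ a, (m a : ℂ) * q t a = 0) →
    (∀ t, ‖q t - (x t).1‖ ≤ ρ) →
    (∀ s t, ‖(q t - (x t).1) - (q s - (x s).1)‖ ≤ ρ * |t - s|) →
    action m (fun t => (x t).1) S < action m q S ∨
      ∃ (w : ℂ) (τ : ℝ), ‖w‖ = 1 ∧ ∀ t, q t = w • (x (t + τ)).1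

theorem Sit.Fxu (s : Sit m x c σ S d R F) (t u : ℝ) : F t (x u) = x (t + u) := by
  rw [← s.Fx u, ← s.hF.add, s.Fx]

theorem smul_eq_rot (w : ℂ) (z : Ph n) : w • z = rot w 1 z := by
  ext a <;> simp

theorem Sit.Fwx (s : Sit m x c σ S d R F) {w : ℂ} (hw : ‖w‖ = 1) (t u : ℝ) :
    F t (w • x u) = w • x (t + u) := by
  rw [smul_eq_rot, s.hF.comm (rot w 1) (cvf_rot hw 1 (fun _ => rfl) d R), s.Fxu, smul_eq_rot]

theorem bt_close (hD : 0 < D) {w : ℂ} {τ ρ : ℝ}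
    (hclose : ∀ j : ℤ, ∀ s ∈ Set.Icc 0 D, ‖F s (Z j) - w • x (j * D + s + τ)‖ ≤ ρ) (t : ℝ) :
    ‖bt F D Z t - w • x (t + τ)‖ ≤ ρ := by
  obtain ⟨h1, h2⟩ := floor_spec hD t
  have h3 := hclose ⌊t / D⌋ (t - ⌊t / D⌋ * D) ⟨by linarith, by linarith⟩
  have h4 : ⌊t / D⌋ * D + (t - ⌊t / D⌋ * D) + τ = t + τ := by ring
  rw [h4] at h3
  exact h3

theorem norm_inv_smul_le {w : ℂ} (hw : ‖w‖ = 1) (u v : Fin n → ℂ) :
    ‖w⁻¹ • u - v‖ ≤ ‖u - w • v‖ := by
  have hw0 : w ≠ 0 := by rintro rfl; simp at hw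
  have h1 : w⁻¹ • u - v = w⁻¹ • (u - w • v) := by
    rw [smul_sub, smul_smul, inv_mul_cancel₀ hw0, one_smul]
  rw [h1, norm_smul, norm_inv, hw, inv_one, one_mul]

theorem comp_spec (s : Sit m x c σ S d R F) (hD : 0 < D) {N : ℕ} (hN : (N : ℝ) * D = S)
    (hJ : ∀ j, (F D (Z j)).1 = (Z (j + 1)).1)
    (hg : ∀ j, ∀ u ∈ Set.Icc 0 D, F u (Z j) ∈ good d R) (hZ : ∀ j, Z j ∈ com m)
    (hP : ∀ j, Z (j + N) = rot c σ (Z j)) {w : ℂ} (hw : ‖w‖ = 1) {τ ρ : ℝ}
    (hclose : ∀ j : ℤ, ∀ u ∈ Set.Icc 0 D, ‖F u (Z j) - w • x (j * D + u + τ)‖ ≤ ρ) :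
    let q : ℝ → Fin n → ℂ := fun t => w⁻¹ • (bt F D Z (t - τ)).1
    (∀ t a, q (t + S) a = c * q t (σ a)) ∧
    (∀ t, ∑ a, (m a : ℂ) * q t a = 0) ∧
    (∀ t, ‖q t - (x t).1‖ ≤ ρ) ∧
    (∀ s t, ‖(q t - (x t).1) - (q s - (x s).1)‖ ≤ ρ * |t - s|) ∧
    action m q S = ∑ k ∈ Finset.range N, actn m F D (Z k) := by
  intro q
  have hw0 : w ≠ 0 := by rintro rfl; simp at hw
  have hb := fun t => bt_close hD hclose t
  have hb' : ∀ t, ‖bt F D Z (t - τ) - w • x t‖ ≤ ρ := by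
    intro t
    have := hb (t - τ)
    rwa [sub_add_cancel] at this
  have hb1 : ∀ t, ‖(bt F D Z (t - τ)).1 - w • (x t).1‖ ≤ ρ := fun t =>
    (norm_fst_le (bt F D Z (t - τ) - w • x t)).trans (hb' t)
  have hb2 : ∀ t, ‖(bt F D Z (t - τ)).2 - w • (x t).2‖ ≤ ρ := fun t =>
    (norm_snd_le (bt F D Z (t - τ) - w • x t)).trans (hb' t)
  have hqc : Continuous q := by
    have h1 := bt_cont s.hd s.hR s.hF hD hJ hg
    have h2 : Continuous fun t : ℝ => (bt F D Z (t - τ)).1 :=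
      h1.comp (continuous_id.sub continuous_const)
    exact h2.const_smul w⁻¹
  have hxc : Continuous fun t => (x t).1 := s.hx.continuous.fst
  have hqr : ∀ t, HasDerivWithinAt q (w⁻¹ • (bt F D Z (t - τ)).2) (Set.Ici t) t := by
    intro t
    have h1 := bt_right s.hd s.hR s.hF hD hg (t - τ)
    have h2 : HasDerivWithinAt (fun t : ℝ => t - τ) 1 (Set.Ici t) t :=
      ((hasDerivAt_id t).sub_const τ).hasDerivWithinAt
    have h3 := HasDerivWithinAt.scomp t h1 h2 (fun u hu => sub_le_sub_right hu τ)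
    rw [one_smul] at h3
    exact h3.const_smul w⁻¹
  have hxr : ∀ t, HasDerivAt (fun t => (x t).1) (x t).2 t := fun t =>
    hasDerivAt_pi.2 (hasDerivAt_pos s.hx t)
  refine ⟨?_, ?_, ?_, ?_, ?_⟩
  · intro t a
    have h1 := bt_period s.hF hD hN s.hc s.hσ hP (t - τ)
    have h2 : t + S - τ = t - τ + S := by ring
    change w⁻¹ * (bt F D Z (t + S - τ)).1 a = c * (w⁻¹ * (bt F D Z (t - τ)).1 (σ a))
    rw [h2, h1, rot_fst]
    ring
  · intro t
    have h1 := (bt_com (D := D) s.hF hZ (t - τ)).1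
    have h2 : ∑ a, (m a : ℂ) * q t a = w⁻¹ * ∑ a, (m a : ℂ) * (bt F D Z (t - τ)).1 a := by
      rw [Finset.mul_sum]
      refine Finset.sum_congr rfl fun a _ => ?_
      change (m a : ℂ) * (w⁻¹ * (bt F D Z (t - τ)).1 a) = _
      ring
    rw [h2, h1, mul_zero]
  · intro t
    exact (norm_inv_smul_le hw _ _).trans (hb1 t)
  · have hle : ∀ s₀ t₀ : ℝ, s₀ ≤ t₀ →
        ‖(q t₀ - (x t₀).1) - (q s₀ - (x s₀).1)‖ ≤ ρ * (t₀ - s₀) := by
      intro s₀ t₀ hst
      refine norm_image_sub_le_of_norm_deriv_right_le_segment (f := fun t => q t - (x t).1)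
        (f' := fun t => w⁻¹ • (bt F D Z (t - τ)).2 - (x t).2) (a := s₀) (b := t₀)
        (hqc.sub hxc).continuousOn ?_ ?_ t₀ ⟨hst, le_rfl⟩
      · intro t _
        exact (hqr t).sub (hxr t).hasDerivWithinAt
      · intro t _
        exact (norm_inv_smul_le hw _ _).trans (hb2 t)
    intro s₀ t₀
    rcases le_total s₀ t₀ with h | h
    · rw [abs_of_nonneg (by linarith)]
      exact hle s₀ t₀ h
    · rw [abs_of_nonpos (by linarith), norm_sub_rev]
      have := hle t₀ s₀ h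
      have h2 : -(t₀ - s₀) = s₀ - t₀ := by ring
      rw [h2]
      exact this
  · set f : ℝ → ℝ := fun t => lag m (bt F D Z t).1 (bt F D Z t).2 with hf
    have hlagw : ∀ z : Ph n, lag m (w⁻¹ • z.1) (w⁻¹ • z.2) = lag m z.1 z.2 := by
      intro z
      have h1 : ‖w⁻¹‖ = 1 := by rw [norm_inv, hw, inv_one]
      have h2 := lag_rot (m := m) h1 (σ := 1) (fun _ => rfl) z
      rw [← smul_eq_rot] at h2
      exact h2
    have hae : ∀ᵐ t : ℝ, t ∈ Set.uIoc 0 S → lag m (q t) (deriv q t) = f (t - τ) := by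
      have hcount : (Set.range fun j : ℤ => (j : ℝ) * D + τ).Countable := Set.countable_range _
      filter_upwards [hcount.ae_notMem volume] with t ht _
      have h1 : ∀ j : ℤ, t - τ ≠ j * D := by
        intro j hj
        exact ht ⟨j, by linarith⟩
      have h2 := bt_deriv s.hd s.hR s.hF hD hg h1
      have h3 : HasDerivAt (fun t => (bt F D Z (t - τ)).1) (bt F D Z (t - τ)).2 t :=
        h2.comp_sub_const t τ
      have h4 : HasDerivAt q (w⁻¹ • (bt F D Z (t - τ)).2) t := h3.const_smul w⁻¹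
      rw [h4.deriv]
      exact hlagw _
    unfold action
    rw [intervalIntegral.integral_congr_ae hae, intervalIntegral.integral_comp_sub_right f τ]
    have hper : Function.Periodic f S := by
      intro t
      simp only [hf]
      rw [bt_period s.hF hD hN s.hc s.hσ hP, lag_rot s.hc s.hσ]
    have h1 := hper.intervalIntegral_add_eq (0 - τ) 0
    have h2 : 0 - τ + S = S - τ := by ring
    rw [h2, zero_add] at h1
    rw [h1, ← hN]
    exact bt_integral s.hd s.hR s.hF hD hg N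

/-- the action of `x` itself -/
theorem action_x (s : Sit m x c σ S d R F) (hD : 0 < D) {N : ℕ} (hN : (N : ℝ) * D = S) :
    action m (fun t => (x t).1) S = ∑ k ∈ Finset.range N, actn m F D (x (k * D)) := by
  have hgx : ∀ j : ℤ, ∀ u ∈ Set.Icc 0 D, F u (x (j * D)) ∈ good d R := by
    intro j u _
    rw [s.Fxu]
    exact s.hgood _
  have hbt : ∀ t, bt F D (fun j : ℤ => x (j * D)) t = x t := by
    intro t
    unfold bt
    rw [s.Fxu, sub_add_cancel]
  have h1 := bt_integral (m := m) s.hd s.hR s.hF hD hgx N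
  simp only [hbt] at h1
  rw [hN] at h1
  have h2 : action m (fun t => (x t).1) S = ∫ t in (0 : ℝ)..S, lag m (x t).1 (x t).2 := by
    unfold action
    refine intervalIntegral.integral_congr fun t _ => ?_
    have h3 : HasDerivAt (fun t => (x t).1) (x t).2 t := hasDerivAt_pi.2 (hasDerivAt_pos s.hx t)
    simp only
    rw [h3.deriv]
  rw [h2, h1]
  simp

/-- a broken solution near `x` has a larger action, unless it comes from `x` -/
theorem strict_use (s : Sit m x c σ S d R F) (hD : 0 < D) {N : ℕ} (hN : (N : ℝ) * D = S)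
    (hJ : ∀ j, (F D (Z j)).1 = (Z (j + 1)).1)
    (hg : ∀ j, ∀ u ∈ Set.Icc 0 D, F u (Z j) ∈ good d R) (hZ : ∀ j, Z j ∈ com m)
    (hP : ∀ j, Z (j + N) = rot c σ (Z j)) {w : ℂ} (hw : ‖w‖ = 1) {τ ρ : ℝ}
    (hclose : ∀ j : ℤ, ∀ u ∈ Set.Icc 0 D, ‖F u (Z j) - w • x (j * D + u + τ)‖ ≤ ρ)
    (hmin : MinWith m x c σ S ρ) :
    ∑ k ∈ Finset.range N, actn m F D (x (k * D)) < ∑ k ∈ Finset.range N, actn m F D (Z k) ∨
      ∃ (w' : ℂ) (τ' : ℝ), ‖w'‖ = 1 ∧ ∀ j : ℤ, Z j = w' • x (j * D + τ') := by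
  obtain ⟨h1, h2, h3, h4, h5⟩ := comp_spec s hD hN hJ hg hZ hP hw hclose
  have hw0 : w ≠ 0 := by rintro rfl; simp at hw
  rcases hmin _ h1 h2 h3 h4 with h | ⟨w₁, τ₁, hw₁, h⟩
  · left
    rw [h5, action_x s hD hN] at h
    exact h
  · right
    refine ⟨w * w₁, τ + τ₁, by rw [norm_mul, hw, hw₁, one_mul], fun j => ?_⟩
    have hpos : ∀ t, (bt F D Z t).1 = (w * w₁) • (x (t + (τ + τ₁))).1 := by
      intro t
      have h6 := h (t + τ)
      simp only [add_sub_cancel_right] at h6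
      have h7 : (bt F D Z t).1 = w • (w⁻¹ • (bt F D Z t).1) := by
        rw [smul_smul, mul_inv_cancel₀ hw0, one_smul]
      rw [h7, h6, smul_smul]
      congr 3
      ring
    have hbj : bt F D Z (j * D) = Z j := by
      have h6 : (j : ℝ) * D < (j + 1) * D := by nlinarith
      rw [bt_eq hD le_rfl h6, sub_self, s.hF.zero]
    have hr := bt_right s.hd s.hR s.hF hD hg (j * D)
    have hr2 : HasDerivAt (fun t : ℝ => (w * w₁) • (x (t + (τ + τ₁))).1)
        ((w * w₁) • (x (j * D + (τ + τ₁))).2) (j * D) := by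
      have h6 : HasDerivAt (fun t => (x t).1) (x (j * D + (τ + τ₁))).2 (j * D + (τ + τ₁)) :=
        hasDerivAt_pi.2 (hasDerivAt_pos s.hx _)
      exact (h6.comp_add_const (j * D) (τ + τ₁)).const_smul (w * w₁)
    have hfun : (fun t => (bt F D Z t).1) = fun t : ℝ => (w * w₁) • (x (t + (τ + τ₁))).1 :=
      funext hpos
    rw [hfun] at hr
    have hvel := (uniqueDiffWithinAt_Ici ((j : ℝ) * D)).eq_deriv _ hr hr2.hasDerivWithinAt
    refine Prod.ext_iff.2 ⟨?_, ?_⟩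
    · have := hpos (j * D)
      rw [hbj] at this
      exact this
    · rw [hbj] at hvel
      exact hvel

/-! ### finite configurations -/

/-- the point which should follow the `k`-th segment -/
noncomputable def nxt {M : ℕ} (c : ℂ) (σ : Equiv.Perm (Fin n)) (z : Fin (M + 1) → Ph n)
    (k : Fin (M + 1)) : Ph n :=
  if k = Fin.last M then rot c σ (z 0) else z (k + 1)

/-- extension of a finite configuration to all integers -/
noncomputable def ext {M : ℕ} (c : ℂ) (σ : Equiv.Perm (Fin n)) (z : Fin (M + 1) → Ph n)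
    (j : ℤ) : Ph n :=
  rot (c ^ (j / (M + 1 : ℕ))) (σ ^ (j / (M + 1 : ℕ))) (z ⟨(j % (M + 1 : ℕ)).toNat, by
    have h1 := Int.emod_lt_of_pos j (b := ((M + 1 : ℕ) : ℤ)) (by exact_mod_cast Nat.succ_pos M)
    have h2 := Int.emod_nonneg j (b := ((M + 1 : ℕ) : ℤ)) (by exact_mod_cast (Nat.succ_ne_zero M))
    omega⟩)

theorem ext_apply {M : ℕ} (z : Fin (M + 1) → Ph n) (a : ℤ) (k : Fin (M + 1)) :
    ext c σ z (a * (M + 1 : ℕ) + k) = rot (c ^ a) (σ ^ a) (z k) := by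
  have hk := k.2
  have h1 : (a * (M + 1 : ℕ) + (k : ℤ)) / (M + 1 : ℕ) = a := by
    rw [add_comm, Int.add_mul_ediv_right _ _ (by exact_mod_cast (Nat.succ_ne_zero M))]
    rw [Int.ediv_eq_zero_of_lt (by positivity) (by exact_mod_cast hk)]
    ring
  have h2 : (a * (M + 1 : ℕ) + (k : ℤ)) % (M + 1 : ℕ) = k := by
    rw [add_comm, Int.add_mul_emod_self_right]
    exact Int.emod_eq_of_lt (by positivity) (by exact_mod_cast hk)
  unfold ext
  rw [h1]
  congr 2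
  apply Fin.ext
  simp only
  rw [h2]
  simp

theorem exists_rep (M : ℕ) (j : ℤ) : ∃ (a : ℤ) (k : Fin (M + 1)), j = a * (M + 1 : ℕ) + k := by
  have h1 := Int.emod_lt_of_pos j (b := ((M + 1 : ℕ) : ℤ)) (by exact_mod_cast Nat.succ_pos M)
  have h2 := Int.emod_nonneg j (b := ((M + 1 : ℕ) : ℤ)) (by exact_mod_cast (Nat.succ_ne_zero M))
  refine ⟨j / (M + 1 : ℕ), ⟨(j % (M + 1 : ℕ)).toNat, by omega⟩, ?_⟩
  simp only [Int.toNat_of_nonneg h2]
  have := Int.mul_ediv_add_emod j ((M + 1 : ℕ) : ℤ)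
  linarith

theorem rot_zpow_succ (hc : ‖c‖ = 1) (a : ℤ) (z : Ph n) :
    rot (c ^ (a + 1)) (σ ^ (a + 1)) z = rot (c ^ a) (σ ^ a) (rot c σ z) := by
  have hc0 : c ≠ 0 := by rintro rfl; simp at hc
  rw [rot_comp, zpow_add₀ hc0, zpow_one, zpow_add, zpow_one, ← zpow_one_add, ← zpow_add_one,
    add_comm]

theorem rot_zpow_succ' (hc : ‖c‖ = 1) (a : ℤ) (z : Ph n) :
    rot (c ^ (a + 1)) (σ ^ (a + 1)) z = rot c σ (rot (c ^ a) (σ ^ a) z) := by
  have hc0 : c ≠ 0 := by rintro rfl; simp at hc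
  rw [rot_comp, zpow_add₀ hc0, zpow_one, zpow_add, zpow_one, mul_comm c]

theorem norm_zpow_one {c : ℂ} (hc : ‖c‖ = 1) (a : ℤ) : ‖c ^ a‖ = 1 := by
  rw [norm_zpow, hc, one_zpow]

theorem zpow_mass (hσ : ∀ a, m (σ a) = m a) (k : ℤ) : ∀ a, m ((σ ^ k) a) = m a := by
  have h1 : ∀ (τ : Equiv.Perm (Fin n)), (∀ a, m (τ a) = m a) → ∀ (k : ℕ) (a), m ((τ ^ k) a) = m a := by
    intro τ hτ k
    induction k with
    | zero => intro a; rfl
    | succ k ih => intro a; rw [pow_succ, Equiv.Perm.mul_apply, ih, hτ]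
  intro a
  rcases k with k | k
  · simpa using h1 σ hσ k a
  · have h2 : ∀ a, m (σ⁻¹ a) = m a := by
      intro a
      have := hσ (σ⁻¹ a)
      rw [← this]
      simp
    have := h1 σ⁻¹ h2 (k + 1) a
    rw [zpow_negSucc, ← inv_pow]
    exact this

theorem ext_period (hc : ‖c‖ = 1) {M : ℕ} (z : Fin (M + 1) → Ph n) (j : ℤ) :
    ext c σ z (j + (M + 1 : ℕ)) = rot c σ (ext c σ z j) := by
  obtain ⟨a, k, rfl⟩ := exists_rep M j
  have h1 : a * (M + 1 : ℕ) + (k : ℤ) + (M + 1 : ℕ) = (a + 1) * (M + 1 : ℕ) + k := by ring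
  rw [h1, ext_apply, ext_apply, rot_zpow_succ' hc]

theorem ext_joint (hF : IsFl (cvf m d R) F) (hc : ‖c‖ = 1) (hσ : ∀ a, m (σ a) = m a) {M : ℕ}
    {z : Fin (M + 1) → Ph n} (h : ∀ k, (F D (z k)).1 = (nxt c σ z k).1) (j : ℤ) :
    (F D (ext c σ z j)).1 = (ext c σ z (j + 1)).1 := by
  obtain ⟨a, k, rfl⟩ := exists_rep M j
  have hfst : ∀ (u v : Ph n), u.1 = v.1 → (rot (c ^ a) (σ ^ a) u).1 = (rot (c ^ a) (σ ^ a) v).1 := by
    intro u v huv
    funext b
    rw [rot_fst, rot_fst, huv]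
  rw [ext_apply, hF.comm _ (cvf_rot (norm_zpow_one hc a) (σ ^ a) (zpow_mass hσ a) d R)]
  have h2 := hfst _ _ (h k)
  rw [h2]
  by_cases hk : k = Fin.last M
  · have h1 : a * (M + 1 : ℕ) + (k : ℤ) + 1 = (a + 1) * (M + 1 : ℕ) + ((0 : Fin (M + 1)) : ℤ) := by
      rw [hk]
      simp
      ring
    rw [h1, ext_apply, rot_zpow_succ hc, nxt, if_pos hk]
  · have h1 : a * (M + 1 : ℕ) + (k : ℤ) + 1 = a * (M + 1 : ℕ) + ((k + 1 : Fin (M + 1)) : ℤ) := by
      have h3 : ((k + 1 : Fin (M + 1)) : ℕ) = (k : ℕ) + 1 :=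
        Fin.val_add_one_of_lt (Fin.lt_last_iff_ne_last.2 hk)
      have h4 : (((k + 1 : Fin (M + 1)) : ℕ) : ℤ) = (k : ℤ) + 1 := by rw [h3]; push_cast; ring
      rw [h4]
      ring
    rw [h1, ext_apply, nxt, if_neg hk]

theorem x_zshift (s : Sit m x c σ S d R F) (a : ℤ) (t : ℝ) :
    x (t + a * S) = rot (c ^ a) (σ ^ a) (x t) := by
  have hpos : ∀ (k : ℕ) (t : ℝ), x (t + (k : ℤ) * S) = rot (c ^ (k : ℤ)) (σ ^ (k : ℤ)) (x t) := by
    intro k t
    have := iter_rot s.hper k t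
    simpa using this
  rcases a with k | k
  · exact hpos k t
  · have h1 := hpos (k + 1) (t + (Int.negSucc k : ℤ) * S)
    have h2 : t + (Int.negSucc k : ℤ) * S + ((k + 1 : ℕ) : ℤ) * S = t := by
      rw [Int.negSucc_eq]
      push_cast
      ring
    rw [h2] at h1
    have hc0 : c ≠ 0 := by
      have := s.hc
      rintro rfl; simp at this
    rw [h1, rot_comp, ← zpow_add₀ hc0, ← zpow_add]
    have h3 : (Int.negSucc k : ℤ) + ((k + 1 : ℕ) : ℤ) = 0 := by omega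
    have h4 : ((k + 1 : ℕ) : ℤ) + (Int.negSucc k : ℤ) = 0 := by omega
    rw [h3, h4]
    ext a <;> simp

/-- the comparison for finite configurations -/
theorem strict_fin (s : Sit m x c σ S d R F) (hD : 0 < D) {M : ℕ} (hN : ((M + 1 : ℕ) : ℝ) * D = S)
    {z : Fin (M + 1) → Ph n} (hJ : ∀ k, (F D (z k)).1 = (nxt c σ z k).1)
    (hg : ∀ k, ∀ u ∈ Set.Icc 0 D, F u (z k) ∈ good d R) (hZ : ∀ k, z k ∈ com m)
    {w : ℂ} (hw : ‖w‖ = 1) {τ ρ : ℝ}
    (hclose : ∀ k : Fin (M + 1), ∀ u ∈ Set.Icc 0 D, ‖F u (z k) - w • x (k * D + u + τ)‖ ≤ ρ)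
    (hmin : MinWith m x c σ S ρ) :
    ∑ k : Fin (M + 1), actn m F D (x (k * D)) < ∑ k, actn m F D (z k) ∨
      ∃ (w' : ℂ) (τ' : ℝ), ‖w'‖ = 1 ∧ ∀ k : Fin (M + 1), z k = w' • x (k * D + τ') := by
  have hval : ∀ k : Fin (M + 1), ext c σ z (k : ℕ) = z k := by
    intro k
    have h1 := ext_apply (c := c) (σ := σ) z 0 k
    have h2 : (0 : ℤ) * (M + 1 : ℕ) + (k : ℤ) = ((k : ℕ) : ℤ) := by simp
    rw [h2] at h1
    rw [h1]
    ext a <;> simp
  have h := strict_use (Z := ext c σ z) (τ := τ) s hD hN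
    (ext_joint s.hF s.hc s.hσ hJ) ?_ ?_ (ext_period s.hc z) hw ?_ hmin
  · rcases h with h | ⟨w', τ', hw', h⟩
    · left
      rw [Finset.sum_range, Finset.sum_range] at h
      simpa only [hval] using h
    · right
      refine ⟨w', τ', hw', fun k => ?_⟩
      have := h (k : ℕ)
      rw [hval] at this
      simpa using this
  · intro j u hu
    obtain ⟨a, k, rfl⟩ := exists_rep M j
    rw [ext_apply, s.hF.comm _ (cvf_rot (norm_zpow_one s.hc a) (σ ^ a) (zpow_mass s.hσ a) d R),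
      good_rot (norm_zpow_one s.hc a)]
    exact hg k u hu
  · intro j
    obtain ⟨a, k, rfl⟩ := exists_rep M j
    rw [ext_apply]
    exact rot_mem (zpow_mass s.hσ a) (hZ k)
  · intro j u hu
    obtain ⟨a, k, rfl⟩ := exists_rep M j
    rw [ext_apply, s.hF.comm _ (cvf_rot (norm_zpow_one s.hc a) (σ ^ a) (zpow_mass s.hσ a) d R)]
    have h1 : ((a * (M + 1 : ℕ) + (k : ℤ) : ℤ) : ℝ) * D + u + τ = (k * D + u + τ) + a * S := by
      rw [← hN]
      push_cast
      ring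
    rw [h1, x_zshift s]
    have h2 : w • rot (c ^ a) (σ ^ a) (x (k * D + u + τ)) =
        rot (c ^ a) (σ ^ a) (w • x (k * D + u + τ)) := by
      ext b <;> simp [mul_left_comm]
    rw [h2, ← map_sub]
    exact (norm_rot_le (norm_zpow_one s.hc a) _ _).trans (hclose k u hu)

end Pool.Agent.J6H86.NP
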