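import Pool.Agent.J6H86.NP.Comp

/-!
# Constrained minimisers are solutions
-/

set_option autoImplicit false

open Complex Finset Filter Topology ComplexConjugate
open scoped ContDiff

namespace Pool.Agent.J6H86.NP

open Pool.Agent.W821.TB

variable {n : ℕ} {m : Fin n → ℝ} {d R : ℝ} {F : ℝ → Ph n → Ph n} {D S : ℝ}
variable {x : ℝ → Ph n} {c : ℂ} {σ : Equiv.Perm (Fin n)} {M : ℕ}

theorem nxt_eq (c : ℂ) (σ : Equiv.Perm (Fin n)) (z : Fin (M + 1) → Ph n) (k : Fin (M + 1)) :
    nxt c σ z k = rot (if k = Fin.last M then c else 1) (if k = Fin.last M then σ else 1)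
      (z (k + 1)) := by
  unfold nxt
  by_cases hk : k = Fin.last M
  · rw [if_pos hk, if_pos hk, if_pos hk, hk, Fin.last_add_one]
  · rw [if_neg hk, if_neg hk, if_neg hk]
    ext a <;> simp

/-- the joint conditions: the positions fit together -/
def Joint (F : ℝ → Ph n → Ph n) (D : ℝ) (c : ℂ) (σ : Equiv.Perm (Fin n))
    (z : Fin (M + 1) → Ph n) : Prop :=
  ∀ k, (F D (z k)).1 = (nxt c σ z k).1

theorem rot_inv {c : ℂ} (hc : ‖c‖ = 1) (σ : Equiv.Perm (Fin n)) (z : Ph n) :
    rot c σ (rot c⁻¹ σ⁻¹ z) = z := by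
  have hc0 : c ≠ 0 := by rintro rfl; simp at hc
  rw [rot_comp, mul_inv_cancel₀ hc0, inv_mul_cancel]
  ext a <;> simp

/-- rotations preserve the mass inner product of velocities -/
theorem ip_rot {c : ℂ} (hc : ‖c‖ = 1) {σ : Equiv.Perm (Fin n)} (hσ : ∀ a, m (σ a) = m a)
    (z w : Ph n) : ∑ a, m a * ip ((rot c σ z).2 a) ((rot c σ w).1 a) =
      ∑ a, m a * ip (z.2 a) (w.1 a) := by
  rw [← Equiv.sum_comp σ (fun a => m a * ip (z.2 a) (w.1 a))]
  refine Finset.sum_congr rfl fun a _ => ?_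
  rw [rot_fst, rot_snd, hσ]
  have h1 : conj c * c = 1 := by
    rw [← Complex.normSq_eq_conj_mul_self, Complex.normSq_eq_norm_sq, hc]; simp
  have h2 : ip (c * z.2 (σ a)) (c * w.1 (σ a)) = ip (z.2 (σ a)) (w.1 (σ a)) := by
    unfold ip
    have : conj (c * z.2 (σ a)) * (c * w.1 (σ a)) = (conj c * c) * (conj (z.2 (σ a)) * w.1 (σ a)) := by
      rw [map_mul]; ring
    rw [this, h1, one_mul]
  rw [h2]

theorem sum_update₂ {ι : Type} [Fintype ι] [DecidableEq ι] {α : Type} (f : α → ℝ) (z : ι → α)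
    {k k' : ι} (h : k ≠ k') (u v : α) :
    ∑ i, f (Function.update (Function.update z k u) k' v i) =
      (∑ i ∈ (univ.erase k).erase k', f (z i)) + f u + f v := by
  have h1 : k' ∈ (univ : Finset ι).erase k := Finset.mem_erase.2 ⟨h.symm, Finset.mem_univ _⟩
  rw [← Finset.add_sum_erase univ _ (Finset.mem_univ k), ← Finset.add_sum_erase _ _ h1]
  rw [Function.update_of_ne h, Function.update_self, Function.update_self]
  have h2 : ∑ i ∈ (univ.erase k).erase k', f (Function.update (Function.update z k u) k' v i) =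
      ∑ i ∈ (univ.erase k).erase k', f (z i) := by
    refine Finset.sum_congr rfl fun i hi => ?_
    have h3 : i ≠ k' := Finset.ne_of_mem_erase hi
    have h4 : i ≠ k := Finset.ne_of_mem_erase (Finset.mem_of_mem_erase hi)
    rw [Function.update_of_ne h3, Function.update_of_ne h4]
  rw [h2]
  ring

/-- a local minimiser of the action among the broken solutions is a solution -/
theorem crit (hm : ∀ a, 0 < m a) (hd : 0 < d) (hR : 0 < R) (hF : IsFl (cvf m d R) F) (hD : 0 < D)
    (hDs : ∀ z : Ph n, (∀ s ∈ Set.Icc 0 D, F s z ∈ good d R) → ∀ w : Fin n → ℂ,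
      (fderiv ℝ (F D) z (0, w)).1 = 0 → w = 0) (hM : 0 < M)
    (hc : ‖c‖ = 1) (hσ : ∀ a, m (σ a) = m a) {z : Fin (M + 1) → Ph n}
    (hg : ∀ k, ∀ u ∈ Set.Icc 0 D, F u (z k) ∈ good d R) (hZ : ∀ k, z k ∈ com m)
    (hJ : Joint F D c σ z)
    (hloc : ∀ᶠ z' in 𝓝 z, (∀ k, z' k ∈ com m) → Joint F D c σ z' →
      ∑ k, actn m F D (z k) ≤ ∑ k, actn m F D (z' k)) (k : Fin (M + 1)) :
    F D (z k) = nxt c σ z k := by
  classical
  set ck : ℂ := if k = Fin.last M then c else 1 with hck
  set σk : Equiv.Perm (Fin n) := if k = Fin.last M then σ else 1 with hσk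
  have hck1 : ‖ck‖ = 1 := by
    rw [hck]; split_ifs
    · exact hc
    · simp
  have hσk1 : ∀ a, m (σk a) = m a := by
    intro a
    rw [hσk]; split_ifs
    · exact hσ a
    · rfl
  have hnxt : nxt c σ z k = rot ck σk (z (k + 1)) := nxt_eq c σ z k
  have hkk : k ≠ k + 1 := by
    intro h
    have h1 : (1 : Fin (M + 1)) = 0 := by
      have := congrArg (fun i => i - k) h
      simpa using this.symm
    have h2 := Fin.one_eq_zero_iff.1 h1
    omega
  -- the jump of the velocities
  set η : Fin n → ℂ := fun a => (F D (z k)).2 a - (rot ck σk (z (k + 1))).2 a with hη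
  have hηc : ∑ a, (m a : ℂ) * η a = 0 := by
    have h1 := (flow_com hF (hZ k) D).2
    have h2 := (rot_mem (c := ck) hσk1 (hZ (k + 1))).2
    simp only [hη, mul_sub, Finset.sum_sub_distrib]
    rw [h1, h2, sub_zero]
  -- directions
  set dm : Ph n := (0, η) with hdm
  set hp : Ph n := rot ck⁻¹ σk⁻¹ (η, 0) with hhp
  have hσki : ∀ a, m (σk⁻¹ a) = m a := by
    intro a
    have := hσk1 (σk⁻¹ a)
    rw [← this]
    simp
  have hdmc : dm ∈ com m := by
    refine ⟨by simp [hdm], hηc⟩
  have hpc : hp ∈ com m := by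
    refine rot_mem hσki ⟨hηc, by simp⟩
  have hp2 : hp.2 = 0 := by
    funext a
    rw [hhp, rot_snd]
    simp
  have hprot : rot ck σk hp = (η, 0) := rot_inv hck1 σk (η, 0)
  obtain ⟨y₁, hy₁0, hy₁c, hy₁d, hy₁e⟩ := exists_curve hd hR hF hD hDs (hg k) (hZ k) hdmc
  obtain ⟨y₂, hy₂0, hy₂c, hy₂d, hy₂e⟩ := exists_curve hd hR hF hD hDs (hg (k + 1)) (hZ (k + 1)) hpc
  set zr : ℝ → Fin (M + 1) → Ph n := fun r =>
    Function.update (Function.update z k (y₁ r)) (k + 1) (y₂ r) with hzr
  have hz0 : zr 0 = z := by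
    simp only [hzr, hy₁0, hy₂0]
    rw [Function.update_eq_self k z, Function.update_eq_self]
  have hzrc : ContinuousAt zr 0 :=
    ((continuousAt_const (y := z)).update k hy₁c).update (k + 1) hy₂c
  have hev1 : ∀ᶠ r in 𝓝 (0 : ℝ), (∀ k, zr r k ∈ com m) → Joint F D c σ (zr r) →
      ∑ k, actn m F D (z k) ≤ ∑ k, actn m F D (zr r k) := by
    have h1 : Tendsto zr (𝓝 0) (𝓝 z) := by
      have := hzrc.tendsto
      rwa [hz0] at this
    exact h1.eventually hloc
  have hmin : IsLocalMin (fun r => ∑ k, actn m F D (zr r k)) 0 := by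
    have h0 : ∑ k, actn m F D (zr 0 k) = ∑ k, actn m F D (z k) := by rw [hz0]
    unfold IsLocalMin IsMinFilter
    filter_upwards [hev1, hy₁e, hy₂e] with r hr h1 h2
    rw [h0]
    have hv1 : zr r (k + 1) = y₂ r := by simp only [hzr, Function.update_self]
    have hv2 : zr r k = y₁ r := by
      simp only [hzr]
      rw [Function.update_of_ne hkk, Function.update_self]
    have hv3 : ∀ i, i ≠ k → i ≠ k + 1 → zr r i = z i := by
      intro i h3 h4
      simp only [hzr]
      rw [Function.update_of_ne h4, Function.update_of_ne h3]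
    have hpos : ∀ i, i ≠ k + 1 → (zr r i).1 = (z i).1 := by
      intro i hi
      by_cases hik : i = k
      · rw [hik, hv2, h1.1]
        simp [hdm]
      · rw [hv3 i hik hi]
    apply hr
    · intro i
      by_cases hi1 : i = k + 1
      · rw [hi1, hv1]; exact h2.2.2.1
      · by_cases hi2 : i = k
        · rw [hi2, hv2]; exact h1.2.2.1
        · rw [hv3 i hi2 hi1]; exact hZ i
    · intro i
      by_cases hik : i = k
      · -- the moved joint
        have h3 : nxt c σ (zr r) k = rot ck σk (y₂ r) := by rw [nxt_eq, hv1]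
        rw [hik, hv2, h3, h1.2.1]
        have h4 : (rot ck σk (y₂ r)).1 = (rot ck σk (z (k + 1))).1 + r • (rot ck σk hp).1 := by
          funext a
          rw [rot_fst, h2.1]
          simp only [Pi.add_apply, Pi.smul_apply, rot_fst, Complex.real_smul]
          ring
        have h5 := hJ k
        rw [hnxt] at h5
        rw [h4, hprot, h5]
      · have h3 : (nxt c σ (zr r) i).1 = (nxt c σ z i).1 := by
          have hi1 : i + 1 ≠ k + 1 := fun h => hik (add_right_cancel h)
          rw [nxt_eq, nxt_eq]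
          funext a
          rw [rot_fst, rot_fst, hpos (i + 1) hi1]
        rw [h3, ← hJ i]
        by_cases hi1 : i = k + 1
        · rw [hi1, hv1, h2.2.1, hp2, smul_zero, add_zero]
        · rw [hv3 i hik hi1]
  have hder : HasDerivAt (fun r => ∑ k, actn m F D (zr r k))
      ((∑ a, m a * ip ((F D (z k)).2 a) (dm.2 a) - ∑ a, m a * ip ((z k).2 a) (dm.1 a)) +
       (∑ a, m a * ip ((F D (z (k + 1))).2 a) (hp.2 a) -
        ∑ a, m a * ip ((z (k + 1)).2 a) (hp.1 a))) 0 := by
    have h1 : (fun r => ∑ k, actn m F D (zr r k)) = fun r =>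
        ((∑ i ∈ (univ.erase k).erase (k + 1), actn m F D (z i)) + actn m F D (y₁ r)) +
          actn m F D (y₂ r) := by
      funext r
      exact sum_update₂ (actn m F D) z hkk (y₁ r) (y₂ r)
    rw [h1]
    exact (hy₁d.const_add _).add hy₂d
  have hzero := hmin.hasDerivAt_eq_zero hder
  have e1 : ∑ a, m a * ip ((z k).2 a) (dm.1 a) = 0 := by
    refine Finset.sum_eq_zero fun a _ => ?_
    simp [hdm, ip_eq]
  have e2 : ∑ a, m a * ip ((F D (z (k + 1))).2 a) (hp.2 a) = 0 := by
    refine Finset.sum_eq_zero fun a _ => ?_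
    rw [hp2]
    simp [ip_eq]
  have e3 : ∑ a, m a * ip ((z (k + 1)).2 a) (hp.1 a) =
      ∑ a, m a * ip ((rot ck σk (z (k + 1))).2 a) (η a) := by
    rw [← ip_rot hck1 hσk1, hprot]
  rw [e1, e2, e3] at hzero
  have e4 : ∑ a, m a * ip (η a) (η a) = 0 := by
    have h1 : ∑ a, m a * ip (η a) (η a) = ∑ a, m a * ip ((F D (z k)).2 a) (η a) -
        ∑ a, m a * ip ((rot ck σk (z (k + 1))).2 a) (η a) := by
      rw [← Finset.sum_sub_distrib]
      refine Finset.sum_congr rfl fun a _ => ?_
      have h2 : η a = (F D (z k)).2 a - (rot ck σk (z (k + 1))).2 a := rfl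
      have h3 : ip (η a) (η a) = ip ((F D (z k)).2 a - (rot ck σk (z (k + 1))).2 a) (η a) := by
        rw [← h2]
      rw [h3, ip_eq, ip_eq, ip_eq]
      simp only [Complex.sub_re, Complex.sub_im]
      ring
    rw [h1]
    have h2 : dm.2 = η := rfl
    rw [h2] at hzero
    linarith
  have hη0 : ∀ a, η a = 0 := by
    intro a
    have h1 := (Finset.sum_eq_zero_iff_of_nonneg fun a _ => by
      rw [ip_self]
      have := hm a
      positivity).1 e4 a (Finset.mem_univ a)
    rw [ip_self] at h1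
    rcases mul_eq_zero.1 h1 with h2 | h2
    · exact absurd h2 (hm a).ne'
    · exact norm_eq_zero.1 (pow_eq_zero_iff (two_ne_zero)|>.1 h2)
  rw [hnxt]
  refine Prod.ext_iff.2 ⟨?_, ?_⟩
  · have := hJ k
    rwa [hnxt] at this
  · funext a
    have := hη0 a
    exact sub_eq_zero.1 this

/-- a smooth configuration closes up -/
theorem closed_of_joint (hF : IsFl (cvf m d R) F) (hD : 0 < D) {z : Fin (M + 1) → Ph n}
    (hg : ∀ k, ∀ u ∈ Set.Icc 0 D, F u (z k) ∈ good d R)
    (h : ∀ k, F D (z k) = nxt c σ z k) :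
    F ((M + 1 : ℕ) * D) (z 0) = rot c σ (z 0) ∧
      ∀ t ∈ Set.Icc (0 : ℝ) ((M + 1 : ℕ) * D), F t (z 0) ∈ good d R := by
  have key : ∀ k : ℕ, ∀ hk : k < M + 1, z ⟨k, hk⟩ = F (k * D) (z 0) := by
    intro k
    induction k with
    | zero =>
      intro hk
      simp only [Nat.cast_zero, zero_mul, hF.zero]
      rfl
    | succ k ih =>
      intro hk
      have h1 := ih (by omega)
      have h2 := h ⟨k, by omega⟩
      have h3 : (⟨k, by omega⟩ : Fin (M + 1)) ≠ Fin.last M := by
        intro h4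
        have := congrArg Fin.val h4
        simp at this
        omega
      rw [nxt, if_neg h3] at h2
      have h4 : (⟨k, by omega⟩ : Fin (M + 1)) + 1 = ⟨k + 1, hk⟩ := by
        apply Fin.ext
        rw [Fin.val_add_one_of_lt (Fin.lt_last_iff_ne_last.2 h3)]
      rw [h4] at h2
      rw [← h2, h1, ← hF.add]
      congr 1
      push_cast
      ring
  constructor
  · have h1 := h (Fin.last M)
    rw [nxt, if_pos rfl] at h1
    have h2 := key M (by omega)
    have h3 : (⟨M, by omega⟩ : Fin (M + 1)) = Fin.last M := rfl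
    rw [h3] at h2
    rw [h2, ← hF.add] at h1
    rw [← h1]
    congr 1
    push_cast
    ring
  · intro t ht
    -- choose the segment
    obtain ⟨k, hk, h1, h2⟩ : ∃ k : ℕ, k < M + 1 ∧ (k : ℝ) * D ≤ t ∧ t ≤ (k + 1) * D := by
      rcases ht.2.lt_or_eq with hlt | heq
      · refine ⟨⌊t / D⌋₊, ?_, ?_, ?_⟩
        · have h3 : t / D < (M + 1 : ℕ) := (div_lt_iff₀ hD).2 hlt
          exact (Nat.floor_lt (div_nonneg ht.1 hD.le)).2 h3
        · exact (le_div_iff₀ hD).1 (Nat.floor_le (div_nonneg ht.1 hD.le))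
        · exact ((div_lt_iff₀ hD).1 (Nat.lt_floor_add_one _)).le
      · refine ⟨M, by omega, ?_, ?_⟩
        · rw [heq]; push_cast; nlinarith
        · rw [heq]; push_cast; exact le_rfl
    have h3 := hg ⟨k, hk⟩ (t - k * D) ⟨by linarith, by linarith⟩
    rw [key k hk, ← hF.add, sub_add_cancel] at h3
    exact h3

end Pool.Agent.J6H86.NP
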