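import Pool.Agent.J6H86.NP.Flow
import Pool.Agent.W821.TB.Rigid

/-!
# The Newtonian vector field cut off near the collisions and at infinity
-/

set_option autoImplicit false

open Complex Finset Filter Topology
open scoped ContDiff NNReal

namespace Pool.Agent.J6H86.NP

open Pool.Agent.W821.TB

variable {n : ℕ} {m : Fin n → ℝ}

/-- rotation by `c` and permutation of the bodies by `σ` -/
noncomputable def rot (c : ℂ) (σ : Equiv.Perm (Fin n)) : Ph n →L[ℝ] Ph n :=
  LinearMap.toContinuousLinearMap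
    { toFun := fun z => (fun a => c * z.1 (σ a), fun a => c * z.2 (σ a))
      map_add' := fun z w => by
        ext a <;> simp [mul_add]
      map_smul' := fun r z => by
        ext a <;> simp [mul_left_comm] }

@[simp] theorem rot_fst (c : ℂ) (σ : Equiv.Perm (Fin n)) (z : Ph n) (a : Fin n) :
    (rot c σ z).1 a = c * z.1 (σ a) := rfl

@[simp] theorem rot_snd (c : ℂ) (σ : Equiv.Perm (Fin n)) (z : Ph n) (a : Fin n) :
    (rot c σ z).2 a = c * z.2 (σ a) := rfl

theorem rot_comp (c d : ℂ) (σ τ : Equiv.Perm (Fin n)) (z : Ph n) :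
    rot c σ (rot d τ z) = rot (c * d) (τ * σ) z := by
  ext a <;> simp [mul_assoc]

theorem norm_rot_le {c : ℂ} (hc : ‖c‖ = 1) (σ : Equiv.Perm (Fin n)) (z : Ph n) :
    ‖rot c σ z‖ ≤ ‖z‖ := by
  rw [Prod.norm_def, max_le_iff]
  constructor
  · refine (pi_norm_le_iff_of_nonneg (norm_nonneg _)).2 fun a => ?_
    rw [rot_fst, norm_mul, hc, one_mul]
    exact (norm_le_pi_norm z.1 (σ a)).trans (norm_fst_le z)
  · refine (pi_norm_le_iff_of_nonneg (norm_nonneg _)).2 fun a => ?_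
    rw [rot_snd, norm_mul, hc, one_mul]
    exact (norm_le_pi_norm z.2 (σ a)).trans (norm_snd_le z)

theorem acc_perm (σ : Equiv.Perm (Fin n)) (hσ : ∀ a, m (σ a) = m a) (q : Fin n → ℂ) (a : Fin n) :
    acc m (fun b => q (σ b)) a = acc m q (σ a) := by
  unfold acc
  refine Finset.sum_bij (fun b _ => σ b) ?_ ?_ ?_ ?_
  · intro b hb
    simp only [Finset.mem_erase, Finset.mem_univ, and_true] at hb ⊢
    exact fun h => hb (σ.injective h)
  · intro b _ b' _ h
    exact σ.injective h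
  · intro b hb
    refine ⟨σ.symm b, ?_, by simp⟩
    simp only [Finset.mem_erase, Finset.mem_univ, and_true] at hb ⊢
    intro h
    apply hb
    rw [← h]; simp
  · intro b _
    rw [hσ]

theorem acc_rot {c : ℂ} (hc : ‖c‖ = 1) (σ : Equiv.Perm (Fin n)) (hσ : ∀ a, m (σ a) = m a)
    (q : Fin n → ℂ) (a : Fin n) : acc m (fun b => c * q (σ b)) a = c * acc m q (σ a) := by
  have h := acc_smul (m := m) c hc (fun b => q (σ b)) a
  rw [acc_perm σ hσ] at h
  exact h

theorem vf_rot {c : ℂ} (hc : ‖c‖ = 1) (σ : Equiv.Perm (Fin n)) (hσ : ∀ a, m (σ a) = m a)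
    (z : Ph n) : vf m (rot c σ z) = rot c σ (vf m z) := by
  ext a
  · rfl
  · exact acc_rot hc σ hσ z.1 a

/-- the sum of the squares of all coordinates -/
noncomputable def ssq (z : Ph n) : ℝ := ∑ a, (‖z.1 a‖ ^ 2 + ‖z.2 a‖ ^ 2)

/-- a smooth cutoff function which is invariant under rotations and permutations -/
noncomputable def chi (d R : ℝ) (z : Ph n) : ℝ :=
  (∏ a, ∏ b ∈ univ.erase a, Real.smoothTransition (‖z.1 a - z.1 b‖ ^ 2 / d ^ 2 - 1)) *
    Real.smoothTransition (2 - ssq z / R ^ 2)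

theorem ssq_rot {c : ℂ} (hc : ‖c‖ = 1) (σ : Equiv.Perm (Fin n)) (z : Ph n) :
    ssq (rot c σ z) = ssq z := by
  unfold ssq
  rw [← Equiv.sum_comp σ (fun a => ‖z.1 a‖ ^ 2 + ‖z.2 a‖ ^ 2)]
  refine Finset.sum_congr rfl fun a _ => ?_
  rw [rot_fst, rot_snd, norm_mul, norm_mul, hc, one_mul, one_mul]

theorem chi_rot {c : ℂ} (hc : ‖c‖ = 1) (σ : Equiv.Perm (Fin n)) (d R : ℝ) (z : Ph n) :
    chi d R (rot c σ z) = chi d R z := by
  unfold chi
  rw [ssq_rot hc]
  congr 1
  rw [← Equiv.prod_comp σ (fun a => ∏ b ∈ univ.erase a,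
    Real.smoothTransition (‖z.1 a - z.1 b‖ ^ 2 / d ^ 2 - 1))]
  refine Finset.prod_congr rfl fun a _ => ?_
  refine Finset.prod_bij (fun b _ => σ b) ?_ ?_ ?_ ?_
  · intro b hb
    simp only [Finset.mem_erase, Finset.mem_univ, and_true] at hb ⊢
    exact fun h => hb (σ.injective h)
  · intro b _ b' _ h
    exact σ.injective h
  · intro b hb
    refine ⟨σ.symm b, ?_, by simp⟩
    simp only [Finset.mem_erase, Finset.mem_univ, and_true] at hb ⊢
    intro h
    apply hb
    rw [← h]; simp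
  · intro b _
    have : (rot c σ z).1 a - (rot c σ z).1 b = c * (z.1 (σ a) - z.1 (σ b)) := by
      rw [rot_fst, rot_fst]; ring
    rw [this, norm_mul, hc, one_mul]

/-- the region where nothing is cut off -/
def good (d R : ℝ) : Set (Ph n) :=
  {z | (∀ a b, a ≠ b → 2 * d ^ 2 < ‖z.1 a - z.1 b‖ ^ 2) ∧ ssq z < R ^ 2}

theorem good_rot {c : ℂ} (hc : ‖c‖ = 1) (σ : Equiv.Perm (Fin n)) {d R : ℝ} {z : Ph n} :
    rot c σ z ∈ good d R ↔ z ∈ good d R := by
  unfold good
  simp only [Set.mem_setOf_eq, ssq_rot hc]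
  refine and_congr_left fun _ => ?_
  have h1 : ∀ a b, ‖(rot c σ z).1 a - (rot c σ z).1 b‖ = ‖z.1 (σ a) - z.1 (σ b)‖ := by
    intro a b
    have : (rot c σ z).1 a - (rot c σ z).1 b = c * (z.1 (σ a) - z.1 (σ b)) := by
      rw [rot_fst, rot_fst]; ring
    rw [this, norm_mul, hc, one_mul]
  simp only [h1]
  constructor
  · intro h a b hab
    have := h (σ.symm a) (σ.symm b) (fun e => hab (σ.symm.injective e))
    simpa using this
  · intro h a b hab
    exact h _ _ (fun e => hab (σ.injective e))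

theorem continuous_ssq : Continuous (ssq (n := n)) := by
  unfold ssq
  fun_prop

theorem isOpen_good (d R : ℝ) : IsOpen (good (n := n) d R) := by
  have h1 : good (n := n) d R = (⋂ a, ⋂ b, {z : Ph n | a ≠ b → 2 * d ^ 2 < ‖z.1 a - z.1 b‖ ^ 2}) ∩
      {z | ssq z < R ^ 2} := by
    ext z
    simp [good, Set.mem_iInter]
  rw [h1]
  refine IsOpen.inter ?_ (isOpen_lt continuous_ssq continuous_const)
  refine isOpen_iInter_of_finite fun a => isOpen_iInter_of_finite fun b => ?_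
  by_cases hab : a = b
  · simp [hab]
  · simp only [ne_eq, hab, not_false_eq_true, true_implies]
    exact isOpen_lt continuous_const (by fun_prop)

theorem chi_good {d R : ℝ} (hd : 0 < d) (hR : 0 < R) {z : Ph n} (hz : z ∈ good d R) :
    chi d R z = 1 := by
  unfold chi
  have h1 : Real.smoothTransition (2 - ssq z / R ^ 2) = 1 := by
    apply Real.smoothTransition.one_of_one_le
    have : ssq z / R ^ 2 ≤ 1 := by
      rw [div_le_one (by positivity)]
      exact hz.2.le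
    linarith
  rw [h1, mul_one]
  refine Finset.prod_eq_one fun a _ => Finset.prod_eq_one fun b hb => ?_
  apply Real.smoothTransition.one_of_one_le
  have hab : a ≠ b := (Finset.ne_of_mem_erase hb).symm
  have h2 : 2 ≤ ‖z.1 a - z.1 b‖ ^ 2 / d ^ 2 := by
    rw [le_div_iff₀ (by positivity)]
    exact (hz.1 a b hab).le
  linarith

/-- the truncated vector field -/
noncomputable def cvf (m : Fin n → ℝ) (d R : ℝ) (z : Ph n) : Ph n := chi d R z • vf m z

theorem cvf_good {d R : ℝ} (hd : 0 < d) (hR : 0 < R) {z : Ph n} (hz : z ∈ good d R) :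
    cvf m d R z = vf m z := by
  unfold cvf
  rw [chi_good hd hR hz, one_smul]

theorem cvf_rot {c : ℂ} (hc : ‖c‖ = 1) (σ : Equiv.Perm (Fin n)) (hσ : ∀ a, m (σ a) = m a)
    (d R : ℝ) (z : Ph n) : cvf m d R (rot c σ z) = rot c σ (cvf m d R z) := by
  unfold cvf
  rw [chi_rot hc, vf_rot hc σ hσ, map_smul]

theorem contDiff_chi (d R : ℝ) : ContDiff ℝ ∞ (chi (n := n) d R) := by
  unfold chi ssq
  refine ContDiff.mul ?_ ?_
  · refine contDiff_prod fun a _ => contDiff_prod fun b _ => ?_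
    refine Real.smoothTransition.contDiff.comp ?_
    refine ContDiff.sub (ContDiff.div_const ?_ _) contDiff_const
    have : ContDiff ℝ ∞ (fun z : Ph n => z.1 a - z.1 b) := by fun_prop
    exact this.norm_sq ℝ
  · refine Real.smoothTransition.contDiff.comp ?_
    refine ContDiff.sub contDiff_const (ContDiff.div_const ?_ _)
    refine ContDiff.sum fun a _ => ?_
    have h1 : ContDiff ℝ ∞ (fun z : Ph n => z.1 a) := by fun_prop
    have h2 : ContDiff ℝ ∞ (fun z : Ph n => z.2 a) := by fun_prop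
    exact (h1.norm_sq ℝ).add (h2.norm_sq ℝ)

theorem contDiffAt_acc' {q : Fin n → ℂ} (hq : ∀ a b, a ≠ b → q a ≠ q b) :
    ContDiffAt ℝ ∞ (acc m) q := by
  refine contDiffAt_pi.2 fun a => ?_
  unfold acc
  refine ContDiffAt.sum fun b hb => ?_
  have hne : q b - q a ≠ 0 := sub_ne_zero.2 (hq b a (Finset.ne_of_mem_erase hb))
  have hd : ContDiffAt ℝ ∞ (fun p : Fin n → ℂ => p b - p a) q := by fun_prop
  have hn : ContDiffAt ℝ ∞ (fun p : Fin n → ℂ => ‖p b - p a‖) q := hd.norm ℝ hne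
  have hn3 : ContDiffAt ℝ ∞ (fun p : Fin n → ℂ => m b / ‖p b - p a‖ ^ 3) q :=
    contDiffAt_const.div (hn.pow 3) (pow_ne_zero 3 (norm_ne_zero_iff.2 hne))
  have ho : ContDiffAt ℝ ∞ (fun p : Fin n → ℂ => ((m b / ‖p b - p a‖ ^ 3 : ℝ) : ℂ)) q :=
    (Complex.ofRealCLM.contDiff.contDiffAt).comp q hn3
  exact ho.mul hd

theorem contDiffAt_vf' {z : Ph n} (hz : ∀ a b, a ≠ b → z.1 a ≠ z.1 b) :
    ContDiffAt ℝ ∞ (vf m) z := by
  refine ContDiffAt.prodMk contDiffAt_snd ?_
  exact ContDiffAt.comp (g := acc m) (f := Prod.fst) z (contDiffAt_acc' (m := m) hz) contDiffAt_fst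

theorem contDiff_cvf {d : ℝ} (hd : 0 < d) (R : ℝ) : ContDiff ℝ ∞ (cvf m d R) := by
  rw [contDiff_iff_contDiffAt]
  intro z
  by_cases hz : ∀ a b, a ≠ b → z.1 a ≠ z.1 b
  · exact (contDiff_chi d R).contDiffAt.smul (contDiffAt_vf' hz)
  · push Not at hz
    obtain ⟨a, b, hab, h⟩ := hz
    have h1 : ∀ᶠ w : Ph n in 𝓝 z, ‖w.1 a - w.1 b‖ ^ 2 < d ^ 2 := by
      have hc : Continuous fun w : Ph n => ‖w.1 a - w.1 b‖ ^ 2 := by fun_prop
      refine (hc.tendsto z).eventually (gt_mem_nhds ?_)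
      rw [h]; simp; positivity
    refine (contDiffAt_const (c := (0 : Ph n))).congr_of_eventuallyEq ?_
    filter_upwards [h1] with w hw
    unfold cvf chi
    have h2 : (∏ a, ∏ b ∈ univ.erase a,
        Real.smoothTransition (‖w.1 a - w.1 b‖ ^ 2 / d ^ 2 - 1)) = 0 := by
      refine Finset.prod_eq_zero (Finset.mem_univ a) (Finset.prod_eq_zero
        (Finset.mem_erase.2 ⟨Ne.symm hab, Finset.mem_univ b⟩) ?_)
      apply Real.smoothTransition.zero_of_nonpos
      have : ‖w.1 a - w.1 b‖ ^ 2 / d ^ 2 < 1 := by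
        rw [div_lt_one (by positivity)]
        exact hw
      linarith
    rw [h2, zero_mul, zero_smul]

theorem sq_le_ssq (z : Ph n) : ‖z‖ ^ 2 ≤ ssq z ∨ ‖z‖ = 0 := by
  by_cases h0 : ‖z‖ = 0
  · exact Or.inr h0
  left
  have hterm : ∀ a, ‖z.1 a‖ ^ 2 + ‖z.2 a‖ ^ 2 ≤ ssq z := fun a =>
    Finset.single_le_sum (f := fun a => ‖z.1 a‖ ^ 2 + ‖z.2 a‖ ^ 2) (fun a _ => by positivity)
      (Finset.mem_univ a)
  have hs : 0 ≤ ssq z := Finset.sum_nonneg fun a _ => by positivity
  have h1 : ‖z‖ ≤ Real.sqrt (ssq z) := by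
    rw [Prod.norm_def, max_le_iff]
    constructor
    · refine (pi_norm_le_iff_of_nonneg (Real.sqrt_nonneg _)).2 fun a => ?_
      apply Real.le_sqrt_of_sq_le
      nlinarith [hterm a, sq_nonneg ‖z.2 a‖]
    · refine (pi_norm_le_iff_of_nonneg (Real.sqrt_nonneg _)).2 fun a => ?_
      apply Real.le_sqrt_of_sq_le
      nlinarith [hterm a, sq_nonneg ‖z.1 a‖]
  calc ‖z‖ ^ 2 ≤ Real.sqrt (ssq z) ^ 2 := by gcongr
    _ = ssq z := Real.sq_sqrt hs

theorem hasCompactSupport_cvf (d : ℝ) {R : ℝ} (hR : 0 < R) : HasCompactSupport (cvf m d R) := by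
  refine HasCompactSupport.intro (isCompact_closedBall (0 : Ph n) (2 * R)) fun z hz => ?_
  have h1 : 2 * R < ‖z‖ := by
    rw [mem_closedBall_zero_iff, not_le] at hz
    exact hz
  have h2 : 2 * R ^ 2 ≤ ssq z := by
    rcases sq_le_ssq z with h | h
    · nlinarith
    · rw [h] at h1; linarith
  unfold cvf chi
  have h3 : Real.smoothTransition (2 - ssq z / R ^ 2) = 0 := by
    apply Real.smoothTransition.zero_of_nonpos
    have : 2 ≤ ssq z / R ^ 2 := by
      rw [le_div_iff₀ (by positivity)]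
      exact h2
    linarith
  rw [h3, mul_zero, zero_smul]

end Pool.Agent.J6H86.NP
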