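import Pool.Agent.J6H86.NP.Act

/-!
# Families of relative periodic solutions through reduced nondegenerate ones
-/

set_option autoImplicit false

open Complex Finset Filter Topology ComplexConjugate
open scoped ContDiff

namespace Pool.Agent.J6H86.NP

open Pool.Agent.W821.TB

/-- the derivative of a flow along curves of times and points -/
theorem IsFl.deriv_curve {E : Type} [NormedAddCommGroup E] [NormedSpace ℝ E] [CompleteSpace E]
    {Y : E → E} {F : ℝ → E → E} (h : IsFl Y F) {τ : ℝ → ℝ} {γ : ℝ → E} {τ' r : ℝ} {γ' : E}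
    (hτ : HasDerivAt τ τ' r) (hγ : HasDerivAt γ γ' r) :
    HasDerivAt (fun r => F (τ r) (γ r)) (τ' • Y (F (τ r) (γ r)) + fderiv ℝ (F (τ r)) (γ r) γ') r := by
  set G : ℝ × E → E := fun p => F p.1 p.2 with hG
  have h1 : HasFDerivAt G (fderiv ℝ G (τ r, γ r)) (τ r, γ r) :=
    ((h.smooth.differentiable (by simp)) _).hasFDerivAt
  set L := fderiv ℝ G (τ r, γ r) with hL
  have h2 : HasDerivAt (fun r => ((τ r, γ r) : ℝ × E)) (τ', γ') r := hτ.prodMk hγ
  have h3 : HasDerivAt (fun r => F (τ r) (γ r)) (L (τ', γ')) r :=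
    HasFDerivAt.comp_hasDerivAt (l := G) (f := fun r => ((τ r, γ r) : ℝ × E)) r h1 h2
  have e1 : L (1, 0) = Y (F (τ r) (γ r)) := by
    have h4 : HasDerivAt (fun t : ℝ => ((t, γ r) : ℝ × E)) (1, 0) (τ r) :=
      (hasDerivAt_id (τ r)).prodMk (hasDerivAt_const (τ r) (γ r))
    have h5 : HasDerivAt (fun t : ℝ => F t (γ r)) (L (1, 0)) (τ r) :=
      HasFDerivAt.comp_hasDerivAt (l := G) (f := fun t : ℝ => ((t, γ r) : ℝ × E)) (τ r) h1 h4
    exact h5.unique (h.deriv (τ r) (γ r))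
  have e2 : L (0, γ') = fderiv ℝ (F (τ r)) (γ r) γ' := by
    have h4 : HasDerivAt (fun u : ℝ => γ r + u • γ') γ' 0 := by
      have h := ((hasDerivAt_id (0 : ℝ)).smul_const γ').const_add (γ r)
      rw [one_smul] at h
      exact h
    have h0 : γ r + (0 : ℝ) • γ' = γ r := by rw [zero_smul, add_zero]
    have h5 : HasDerivAt (fun u : ℝ => ((τ r, γ r + u • γ') : ℝ × E)) (0, γ') 0 :=
      (hasDerivAt_const (0 : ℝ) (τ r)).prodMk h4
    have h6 : HasDerivAt (fun u : ℝ => F (τ r) (γ r + u • γ')) (L (0, γ')) 0 :=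
      HasFDerivAt.comp_hasDerivAt (l := G) (f := fun u : ℝ => ((τ r, γ r + u • γ') : ℝ × E)) (0 : ℝ)
        (by rw [h0]; exact h1) h5
    have h7 : HasDerivAt (fun u : ℝ => F (τ r) (γ r + u • γ')) (fderiv ℝ (F (τ r)) (γ r) γ') 0 :=
      HasFDerivAt.comp_hasDerivAt (l := F (τ r)) (f := fun u : ℝ => γ r + u • γ') (0 : ℝ)
        (by rw [h0]; exact h.hasFDerivAt (τ r) (γ r)) h4
    exact h6.unique h7
  have e3 : L (τ', γ') = τ' • Y (F (τ r) (γ r)) + fderiv ℝ (F (τ r)) (γ r) γ' := by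
    have : ((τ', γ') : ℝ × E) = τ' • ((1, 0) : ℝ × E) + (0, γ') := by
      ext <;> simp
    rw [this, map_add, map_smul, e1, e2]
  rwa [e3] at h3

variable {n : ℕ} {m : Fin n → ℝ}

/-- reduced nondegeneracy: a solution of the linearised equations with vanishing derivatives of energy
and angular momentum which has the symmetry of `x` up to a shift of the time and a rotation comes from
a shift of the time and a rotation -/
def RedNonDeg (m : Fin n → ℝ) (x : ℝ → Ph n) (c : ℂ) (σ : Equiv.Perm (Fin n)) (S : ℝ) : Prop :=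
  ∀ (ξ : ℝ → Ph n) (α β : ℝ), (∀ t, ξ t ∈ com m) →
    (∀ t, HasDerivAt ξ ((ξ t).2, fderiv ℝ (acc m) (x t).1 (ξ t).1) t) →
    (∀ t, ξ (t + S) = rot c σ (ξ t + α • vf m (x t) + β • (I • x t))) →
    fderiv ℝ (energy m) (x 0) (ξ 0) = 0 → fderiv ℝ (ang m) (x 0) (ξ 0) = 0 →
    ∃ a b : ℝ, ∀ t, ξ t = a • vf m (x t) + b • (I • x t)

/-- linear forms from the bilinear form `B` -/
noncomputable def Bl (m : Fin n → ℝ) (k : Ph n) : Ph n →L[ℝ] ℝ :=
  LinearMap.toContinuousLinearMap
    { toFun := B m k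
      map_add' := fun u w => by
        have := B_sub_smul (m := m) k u w (-1)
        rw [neg_one_smul, sub_neg_eq_add] at this
        rw [this]; ring
      map_smul' := fun r u => by rw [B_smul]; rfl }

theorem Bl_apply (k u : Ph n) : Bl m k u = B m k u := rfl

theorem vf_mem {z : Ph n} (hz : z ∈ com m) : vf m z ∈ com m :=
  mem_com.2 ⟨(mem_com.1 hz).2, force_zero (m := m) z.1⟩

theorem I_smul_mem {z : Ph n} (hz : z ∈ com m) : I • z ∈ com m := by
  obtain ⟨h1, h2⟩ := mem_com.1 hz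
  refine mem_com.2 ⟨?_, ?_⟩
  · have := congrArg (fun w => I * w) h1
    simpa [Finset.mul_sum, mul_left_comm] using this
  · have := congrArg (fun w => I * w) h2
    simpa [Finset.mul_sum, mul_left_comm] using this

theorem real_I (κ : ℝ) (z : Ph n) : ((κ : ℂ) * I) • z = κ • (I • z) := by
  ext a <;> simp [mul_assoc]

/-- the velocity and the infinitesimal rotation are independent -/
theorem indep (hn : 2 ≤ n) {x : ℝ → Ph n} (hx : IsSol m Set.univ x) (hne : ¬ IsRelEq x) (t : ℝ) :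
    I • x t ≠ 0 ∧ vf m (x t) ≠ 0 ∧ (∀ r : ℝ, vf m (x t) ≠ r • (I • x t)) ∧
      ∀ r : ℝ, I • x t ≠ r • vf m (x t) := by
  have h1 : ∀ r : ℝ, vf m (x t) ≠ r • (I • x t) := by
    intro r h
    apply hne
    refine relEq_of hx (t₀ := t) (κ := r) ?_
    rw [real_I]
    exact h
  have h2 : I • x t ≠ 0 := by
    intro h
    obtain ⟨a, ha⟩ := exists_ne_zero hn (hx.mem t)
    apply ha
    have := congrFun (congrArg Prod.fst h) a
    simpa using this
  refine ⟨h2, fun h => h1 0 (by rw [h, zero_smul]), h1, ?_⟩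
  intro r h
  have hr : r ≠ 0 := by
    rintro rfl
    rw [zero_smul] at h
    exact h2 h
  apply h1 r⁻¹
  rw [h, smul_smul, inv_mul_cancel₀ hr, one_smul]

/-- linear forms which are dual to the velocity and the infinitesimal rotation -/
theorem exists_slice (hn : 2 ≤ n) (hm : ∀ a, 0 < m a) {x : ℝ → Ph n} (hx : IsSol m Set.univ x)
    (hne : ¬ IsRelEq x) (t : ℝ) : ∃ l₁ l₂ : Ph n →L[ℝ] ℝ, l₁ (vf m (x t)) = 1 ∧
      l₁ (I • x t) = 0 ∧ l₂ (vf m (x t)) = 0 ∧ l₂ (I • x t) = 1 := by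
  obtain ⟨h2, h3, h1, h4⟩ := indep hn hx hne t
  have hc : x t ∈ com m := (hx.mem t).2
  obtain ⟨e, _, he1, he2⟩ := exists_dual hm (vf_mem hc) (I_smul_mem hc) h3 h2 h4
  obtain ⟨j, _, hj1, hj2⟩ := exists_dual hm (I_smul_mem hc) (vf_mem hc) h2 h3 h1
  refine ⟨Bl m e, Bl m j, ?_, ?_, ?_, ?_⟩
  · rw [Bl_apply, B_comm, he1]
  · rw [Bl_apply, B_comm, he2]
  · rw [Bl_apply, B_comm, hj2]
  · rw [Bl_apply, B_comm, hj1]

/-- the energy of a relative periodic solution is negative -/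
theorem energy_neg (hn : 2 ≤ n) (hm : ∀ a, 0 < m a) {x : ℝ → Ph n} (hx : IsSol m Set.univ x) {c : ℂ}
    (hc : ‖c‖ = 1) {σ : Equiv.Perm (Fin n)} (hσ : ∀ a, m (σ a) = m a) {S : ℝ} (hS : 0 < S)
    (hper : ∀ t, x (t + S) = rot c σ (x t)) : energy m (x 0) < 0 := by
  set φ : ℝ → ℝ := fun t => 2 * gv m (x t) - 3 * t * energy m (x 0) with hφ
  have hlag : ∀ t, 0 < (∑ a, m a * ‖(x t).2 a‖ ^ 2) / 2 + upot m (x t).1 := by
    intro t
    have h1 : 0 ≤ ∑ a, m a * ‖(x t).2 a‖ ^ 2 := Finset.sum_nonneg fun a _ =>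
      mul_nonneg (hm a).le (by positivity)
    have h2 : 0 < upot m (x t).1 := by
      unfold upot
      have hnn : ∀ a b, b ∈ univ.erase a → 0 < m a * m b / ‖(x t).1 b - (x t).1 a‖ := by
        intro a b hb
        have hne : (x t).1 b - (x t).1 a ≠ 0 :=
          sub_ne_zero.2 ((hx.mem t).1 b a (Finset.ne_of_mem_erase hb))
        have := norm_pos_iff.2 hne
        have := hm a
        have := hm b
        positivity
      have h3 : 0 < ∑ a, ∑ b ∈ univ.erase a, m a * m b / ‖(x t).1 b - (x t).1 a‖ := by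
        refine Finset.sum_pos' (fun a _ => Finset.sum_nonneg fun b hb => (hnn a b hb).le)
          ⟨⟨0, by omega⟩, Finset.mem_univ _, ?_⟩
        exact Finset.sum_pos (fun b hb => hnn _ b hb) ⟨⟨1, by omega⟩, by simp [Fin.ext_iff]⟩
      linarith
    linarith
  have hd : ∀ t, HasDerivAt φ ((∑ a, m a * ‖(x t).2 a‖ ^ 2) / 2 + upot m (x t).1) t := by
    intro t
    have h1 := hasDerivAt_gv (m := m) (hasDerivAt_pos hx t) (hasDerivAt_vel hx t)
    have h3 : HasDerivAt (fun s : ℝ => 3 * s * energy m (x 0)) (3 * energy m (x 0)) t := by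
      have := ((hasDerivAt_id t).const_mul (3 : ℝ)).mul_const (energy m (x 0))
      simpa using this
    refine ((h1.const_mul 2).fun_sub h3).congr_deriv ?_
    rw [energy_const hx 0 t]
    have h5 := vir (m := m) (hx.mem t).1
    have h6 : ∑ a, m a * (ip ((x t).2 a) ((x t).2 a) + ip ((x t).1 a) (acc m (x t).1 a)) =
        ∑ a, m a * ‖(x t).2 a‖ ^ 2 + ∑ a, m a * ip ((x t).1 a) (acc m (x t).1 a) := by
      rw [← Finset.sum_add_distrib]
      refine Finset.sum_congr rfl fun a _ => ?_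
      rw [← ip_self]
      ring
    rw [h6]
    unfold energy
    linarith
  have hmono : StrictMono φ := strictMono_of_hasDerivAt_pos hd hlag
  have h1 := hmono hS
  have h2 : gv m (x S) = gv m (x 0) := by
    have h3 : x S = rot c σ (x 0) := by
      have := hper 0
      rwa [zero_add] at this
    rw [h3]
    unfold gv
    rw [← Equiv.sum_comp σ (fun a => m a * ip ((x 0).1 a) ((x 0).2 a))]
    refine Finset.sum_congr rfl fun a _ => ?_
    rw [rot_fst, rot_snd, hσ]
    have h4 : normSq c = 1 := by rw [Complex.normSq_eq_norm_sq, hc, one_pow]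
    rw [Complex.normSq_apply] at h4
    simp only [ip_eq, Complex.mul_re, Complex.mul_im]
    linear_combination (m a * ((x 0).1 (σ a)).re * ((x 0).2 (σ a)).re +
      m a * ((x 0).1 (σ a)).im * ((x 0).2 (σ a)).im) * h4
  simp only [hφ] at h1
  rw [h2] at h1
  nlinarith

end Pool.Agent.J6H86.NP
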