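import Pool.Agent.J6H86.NP.Fam

/-!
# The map whose zeros are the relative periodic points with given energy and angular momentum
-/

set_option autoImplicit false

open Complex Finset Filter Topology ComplexConjugate
open scoped ContDiff

namespace Pool.Agent.J6H86.NP

open Pool.Agent.W821.TB

variable {n : ℕ} {m : Fin n → ℝ}

/-- phase points, two auxiliary parameters, and the changes of the period and of the angle -/
abbrev DD (n : ℕ) := Ph n × (ℝ × ℝ) × (ℝ × ℝ)

/-- the map whose zeros are the relative periodic points with given energy and angular momentum -/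
noncomputable def psi (m : Fin n → ℝ) (c : ℂ) (σ : Equiv.Perm (Fin n)) (S : ℝ)
    (F : ℝ → Ph n → Ph n) (e j z₀ : Ph n) (l₁ l₂ : Ph n →L[ℝ] ℝ) (p : DD n) : DD n :=
  (F (S + p.2.2.1) (cmp m p.1) + (2 : ℝ) • (p.1 - cmp m p.1) -
    (Real.cos p.2.2.2 • rot c σ p.1 + Real.sin p.2.2.2 • rot (I * c) σ p.1) +
    p.2.1.1 • e + p.2.1.2 • j,
    (energy m p.1 - energy m z₀, ang m p.1 - ang m z₀), (l₁ (p.1 - z₀), l₂ (p.1 - z₀)))

namespace Sit

variable {x : ℝ → Ph n} {c : ℂ} {σ : Equiv.Perm (Fin n)} {S d R : ℝ} {F : ℝ → Ph n → Ph n}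

theorem contDiffAt_psi (s : Sit m x c σ S d R F) (e j : Ph n) (l₁ l₂ : Ph n →L[ℝ] ℝ) {p : DD n}
    (hp : ∀ a b, a ≠ b → p.1.1 a ≠ p.1.1 b) :
    ContDiffAt ℝ ∞ (psi m c σ S F e j (x 0) l₁ l₂) p := by
  unfold psi
  have h1 : ContDiff ℝ ∞ (fun p : DD n => F (S + p.2.2.1) (cmp m p.1)) :=
    s.hF.smooth.comp ((contDiff_const.add (contDiff_fst.comp (contDiff_snd.comp contDiff_snd))).prodMk
      ((cmp m).contDiff.comp contDiff_fst))
  have h2 : ContDiff ℝ ∞ (fun p : DD n => cmp m p.1) := (cmp m).contDiff.comp contDiff_fst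
  have h3 : ContDiff ℝ ∞ (fun p : DD n => rot c σ p.1) := (rot c σ).contDiff.comp contDiff_fst
  have h4 : ContDiff ℝ ∞ (fun p : DD n => rot (I * c) σ p.1) :=
    (rot (I * c) σ).contDiff.comp contDiff_fst
  have h5 : ContDiff ℝ ∞ (fun p : DD n => Real.cos p.2.2.2) :=
    Real.contDiff_cos.comp (contDiff_snd.comp (contDiff_snd.comp contDiff_snd))
  have h6 : ContDiff ℝ ∞ (fun p : DD n => Real.sin p.2.2.2) :=
    Real.contDiff_sin.comp (contDiff_snd.comp (contDiff_snd.comp contDiff_snd))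
  have h7 : ContDiffAt ℝ ∞ (fun p : DD n => energy m p.1) p :=
    (contDiffAt_energy (m := m) hp).comp p contDiffAt_fst
  have h8 : ContDiff ℝ ∞ (fun p : DD n => ang m p.1) := (contDiff_ang (m := m)).comp contDiff_fst
  refine ContDiffAt.prodMk ?_ (ContDiffAt.prodMk ?_ ?_)
  · refine ContDiff.contDiffAt ?_
    refine ContDiff.add (ContDiff.add (ContDiff.sub (h1.add ?_) ((h5.smul h3).add (h6.smul h4))) ?_) ?_
    · exact (contDiff_const (c := (2 : ℝ))).smul (contDiff_fst.sub h2)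
    · exact (contDiff_fst.comp (contDiff_fst.comp contDiff_snd)).smul contDiff_const
    · exact (contDiff_snd.comp (contDiff_fst.comp contDiff_snd)).smul contDiff_const
  · exact (h7.sub contDiffAt_const).prodMk (h8.contDiffAt.sub contDiffAt_const)
  · exact ((l₁.contDiff.comp (contDiff_fst.sub contDiff_const)).prodMk
      (l₂.contDiff.comp (contDiff_fst.sub contDiff_const))).contDiffAt

theorem hasDerivAt_psi (s : Sit m x c σ S d R F) (e j : Ph n) (l₁ l₂ : Ph n →L[ℝ] ℝ) (v : Ph n)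
    (a b u τ : ℝ) :
    HasDerivAt (fun r : ℝ => psi m c σ S F e j (x 0) l₁ l₂
      (((x 0, (0, 0), (0, 0)) : DD n) + r • ((v, (a, b), (u, τ)) : DD n)))
      (((u • vf m (x S) + lin m x c σ S F v - τ • rot (I * c) σ (x 0) + a • e + b • j),
        (fderiv ℝ (energy m) (x 0) v, fderiv ℝ (ang m) (x 0) v), (l₁ v, l₂ v)) : DD n) 0 := by
  have h0 : HasDerivAt (fun r : ℝ => x 0 + r • v) v 0 := by
    have h := ((hasDerivAt_id (0 : ℝ)).smul_const v).const_add (x 0)
    rw [one_smul] at h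
    exact h
  have hτ : ∀ τ : ℝ, HasDerivAt (fun r : ℝ => 0 + r • τ) τ 0 := by
    intro τ
    have h := ((hasDerivAt_id (0 : ℝ)).smul_const τ).const_add 0
    rw [one_smul] at h
    exact h
  have hz : x 0 + (0 : ℝ) • v = x 0 := by rw [zero_smul, add_zero]
  have h1 : HasDerivAt (fun r : ℝ => cmp m (x 0 + r • v)) (cmp m v) 0 :=
    ((cmp m).hasFDerivAt (x := x 0 + (0 : ℝ) • v)).comp_hasDerivAt (0 : ℝ) h0
  have h2 := s.hF.deriv_curve ((hτ u).const_add S) h1
  have h3 : HasDerivAt (fun r : ℝ => rot c σ (x 0 + r • v)) (rot c σ v) 0 :=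
    ((rot c σ).hasFDerivAt (x := x 0 + (0 : ℝ) • v)).comp_hasDerivAt (0 : ℝ) h0
  have h4 : HasDerivAt (fun r : ℝ => rot (I * c) σ (x 0 + r • v)) (rot (I * c) σ v) 0 :=
    ((rot (I * c) σ).hasFDerivAt (x := x 0 + (0 : ℝ) • v)).comp_hasDerivAt (0 : ℝ) h0
  have h5 : HasDerivAt (fun r : ℝ => Real.cos (0 + r • τ)) (-Real.sin (0 + (0 : ℝ) • τ) * τ) 0 :=
    (hτ τ).cos
  have h6 : HasDerivAt (fun r : ℝ => Real.sin (0 + r • τ)) (Real.cos (0 + (0 : ℝ) • τ) * τ) 0 :=
    (hτ τ).sin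
  have h7 := h5.fun_smul h3
  have h8 := h6.fun_smul h4
  have h9 := (((h2.fun_add ((h0.fun_sub h1).fun_const_smul (2 : ℝ))).fun_sub (h7.fun_add h8)).fun_add
    ((hτ a).smul_const e)).fun_add ((hτ b).smul_const j)
  have hE : HasDerivAt (fun r : ℝ => energy m (x 0 + r • v)) (fderiv ℝ (energy m) (x 0) v) 0 :=
    HasFDerivAt.comp_hasDerivAt (l := energy m) (f := fun r : ℝ => x 0 + r • v) (0 : ℝ)
      (by
        rw [hz]
        exact ((contDiffAt_energy (m := m) (s.hx.mem 0).1).differentiableAt (by simp)).hasFDerivAt) h0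
  have hJ : HasDerivAt (fun r : ℝ => ang m (x 0 + r • v)) (fderiv ℝ (ang m) (x 0) v) 0 :=
    HasFDerivAt.comp_hasDerivAt (l := ang m) (f := fun r : ℝ => x 0 + r • v) (0 : ℝ)
      (by
        rw [hz]
        exact ((contDiff_ang (m := m)).differentiable (by simp) (x 0)).hasFDerivAt) h0
  have hl : ∀ l : Ph n →L[ℝ] ℝ, HasDerivAt (fun r : ℝ => l (x 0 + r • v - x 0)) (l v) 0 :=
    fun l => (l.hasFDerivAt (x := x 0 + (0 : ℝ) • v - x 0)).comp_hasDerivAt (0 : ℝ) (h0.sub_const (x 0))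
  have h10 := h9.prodMk (((hE.sub_const (energy m (x 0))).prodMk (hJ.sub_const (ang m (x 0)))).prodMk
    ((hl l₁).prodMk (hl l₂)))
  refine h10.congr_deriv ?_
  rw [lin_apply]
  refine Prod.ext_iff.2 ⟨?_, rfl⟩
  have hcv : cvf m d R (x S) = vf m (x S) := cvf_good s.hd s.hR (s.hgood S)
  simp only [zero_smul, add_zero, Real.sin_zero, Real.cos_zero, neg_zero, zero_mul, one_mul,
    one_smul]
  rw [cmp_of_mem (s.com0 0), s.Fx, hcv]
  abel

theorem fderiv_add' (s : Sit m x c σ S d R F) {ζ u : Ph n}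
    (h : fderiv ℝ (F S) (x 0) ζ = rot c σ u) (t : ℝ) :
    fderiv ℝ (F (t + S)) (x 0) ζ = rot c σ (fderiv ℝ (F t) (x 0) u) := by
  have h1 : F (t + S) = fun z => F t (F S z) := by funext z; exact s.hF.add t S z
  have h2 : HasFDerivAt (fun z => F t (F S z))
      ((fderiv ℝ (F t) (F S (x 0))).comp (fderiv ℝ (F S) (x 0))) (x 0) :=
    (s.hF.hasFDerivAt t _).comp (x 0) (s.hF.hasFDerivAt S (x 0))
  rw [h1, h2.fderiv, ContinuousLinearMap.comp_apply, h, s.Fx, s.xS]
  have h3 : (fun z => F t (rot c σ z)) = fun z => rot c σ (F t z) := by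
    funext z
    exact s.hF.comm (rot c σ) (cvf_rot s.hc σ s.hσ d R) t z
  have h4 : HasFDerivAt (fun z => F t (rot c σ z))
      ((fderiv ℝ (F t) (rot c σ (x 0))).comp (rot c σ)) (x 0) :=
    (s.hF.hasFDerivAt t _).comp (x 0) (rot c σ).hasFDerivAt
  have h5 : HasFDerivAt (fun z => rot c σ (F t z))
      ((rot c σ).comp (fderiv ℝ (F t) (x 0))) (x 0) :=
    (rot c σ).hasFDerivAt.comp (x 0) (s.hF.hasFDerivAt t _)
  rw [h3] at h4
  exact congrArg (fun L : Ph n →L[ℝ] Ph n => L u) (h4.unique h5)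

theorem fderiv_vel (s : Sit m x c σ S d R F) (t : ℝ) :
    fderiv ℝ (F t) (x 0) (vf m (x 0)) = vf m (x t) := by
  have h1 : HasDerivAt (fun r : ℝ => F t (x r)) (fderiv ℝ (F t) (x 0) (vf m (x 0))) 0 :=
    (s.hF.hasFDerivAt t (x 0)).comp_hasDerivAt 0 (s.hx.hasDerivAt 0)
  have h2 : (fun r : ℝ => F t (x r)) = fun r => x (t + r) := by
    funext r
    rw [← s.Fx r, ← s.hF.add, s.Fx]
  rw [h2] at h1
  have h3 : HasDerivAt (fun r : ℝ => x (t + r)) (vf m (x t)) 0 := by
    have h4 : HasDerivAt x (vf m (x t)) (t + 0) := by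
      rw [add_zero]; exact s.hx.hasDerivAt t
    exact h4.comp_const_add t 0
  exact h1.unique h3

theorem I_smul_rot {z : Ph n} : I • rot c σ z = rot c σ (I • z) := by
  ext a
  · change I * (rot c σ z).1 a = (rot c σ (I • z)).1 a
    rw [rot_fst, rot_fst]
    change I * (c * z.1 (σ a)) = c * (I * z.1 (σ a))
    ring
  · change I * (rot c σ z).2 a = (rot c σ (I • z)).2 a
    rw [rot_snd, rot_snd]
    change I * (c * z.2 (σ a)) = c * (I * z.2 (σ a))
    ring

theorem rot_I {z : Ph n} : rot (I * c) σ z = I • rot c σ z := by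
  ext a
  · change (rot (I * c) σ z).1 a = I * (rot c σ z).1 a
    rw [rot_fst, rot_fst]
    ring
  · change (rot (I * c) σ z).2 a = I * (rot c σ z).2 a
    rw [rot_snd, rot_snd]
    ring

theorem rot_one (z : Ph n) : rot 1 1 z = z := by
  ext a <;> simp

/-- the curve of rotated points -/
theorem hasDerivAt_turn (z : Ph n) :
    HasDerivAt (fun θ : ℝ => rot (Complex.exp (θ * I) * 1) 1 z) (I • z) 0 := by
  have e : (fun θ : ℝ => rot (Complex.exp (θ * I) * 1) 1 z) =
      fun θ : ℝ => Real.cos θ • rot 1 1 z + Real.sin θ • rot (I * 1) 1 z := by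
    funext θ; exact (rot_exp 1 1 θ z).symm
  rw [e]
  have h1 := ((Real.hasDerivAt_cos 0).smul_const (rot 1 1 z)).fun_add
    ((Real.hasDerivAt_sin 0).smul_const (rot (I * 1) 1 z))
  refine h1.congr_deriv ?_
  rw [rot_I, rot_one]
  simp

theorem fderiv_turn (s : Sit m x c σ S d R F) (t : ℝ) :
    fderiv ℝ (F t) (x 0) (I • x 0) = I • x t := by
  have h1 : HasDerivAt (fun θ : ℝ => F t (rot (Complex.exp (θ * I) * 1) 1 (x 0)))
      (fderiv ℝ (F t) (x 0) (I • x 0)) 0 := by
    have h2 : HasFDerivAt (F t) (fderiv ℝ (F t) (x 0))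
        (rot (Complex.exp ((0 : ℝ) * I) * 1) 1 (x 0)) := by
      have : rot (Complex.exp ((0 : ℝ) * I) * 1) 1 (x 0) = x 0 := by
        simp [rot_one]
      rw [this]
      exact s.hF.hasFDerivAt t (x 0)
    exact h2.comp_hasDerivAt (0 : ℝ) (hasDerivAt_turn (x 0))
  have h3 : (fun θ : ℝ => F t (rot (Complex.exp (θ * I) * 1) 1 (x 0))) =
      fun θ : ℝ => rot (Complex.exp (θ * I) * 1) 1 (x t) := by
    funext θ
    have hc' : ‖Complex.exp (θ * I) * 1‖ = 1 := by rw [norm_mul, norm_expI, one_mul, norm_one]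
    rw [s.hF.comm (rot (Complex.exp (θ * I) * 1) 1) (cvf_rot hc' 1 (fun _ => rfl) d R) t (x 0), s.Fx]
  rw [h3] at h1
  exact h1.unique (hasDerivAt_turn (x t))

theorem fderiv_energy_vel (s : Sit m x c σ S d R F) (t : ℝ) :
    fderiv ℝ (energy m) (x t) (vf m (x t)) = 0 ∧ fderiv ℝ (ang m) (x t) (vf m (x t)) = 0 := by
  constructor
  · have h1 : HasDerivAt (fun r => energy m (x r)) (fderiv ℝ (energy m) (x t) (vf m (x t))) t :=
      (((contDiffAt_energy (m := m) (s.hx.mem t).1).differentiableAt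
        (by simp)).hasFDerivAt).comp_hasDerivAt t (s.hx.hasDerivAt t)
    have h2 : (fun r => energy m (x r)) = fun _ => energy m (x 0) := by
      funext r; exact energy_const s.hx r 0
    rw [h2] at h1
    exact h1.unique (hasDerivAt_const t _)
  · have h1 : HasDerivAt (fun r => ang m (x r)) (fderiv ℝ (ang m) (x t) (vf m (x t))) t :=
      (((contDiff_ang (m := m)).differentiable (by simp) (x t)).hasFDerivAt).comp_hasDerivAt t
        (s.hx.hasDerivAt t)
    rw [fderiv_ang] at h1 ⊢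
    unfold B gJ vf
    simp only [ip_eq, Complex.neg_re, Complex.neg_im, Complex.mul_re, Complex.mul_im, Complex.I_re,
      Complex.I_im]
    have h3 := torque_zero (m := m) (x t).1
    simp only [Complex.mul_im, Complex.conj_re, Complex.conj_im] at h3
    refine Eq.trans (Finset.sum_congr rfl fun a _ => ?_) h3
    ring

theorem fderiv_energy_turn (s : Sit m x c σ S d R F) (t : ℝ) :
    fderiv ℝ (energy m) (x t) (I • x t) = 0 ∧ fderiv ℝ (ang m) (x t) (I • x t) = 0 := by
  have h0 : rot (Complex.exp ((0 : ℝ) * I) * 1) 1 (x t) = x t := by simp [rot_one]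
  have hc' : ∀ θ : ℝ, ‖Complex.exp (θ * I) * 1‖ = 1 := fun θ => by
    rw [norm_mul, norm_expI, one_mul, norm_one]
  constructor
  · have h1 : HasDerivAt (fun θ : ℝ => energy m (rot (Complex.exp (θ * I) * 1) 1 (x t)))
        (fderiv ℝ (energy m) (x t) (I • x t)) 0 := by
      have h2 : HasFDerivAt (energy m) (fderiv ℝ (energy m) (x t))
          (rot (Complex.exp ((0 : ℝ) * I) * 1) 1 (x t)) := by
        rw [h0]
        exact ((contDiffAt_energy (m := m) (s.hx.mem t).1).differentiableAt (by simp)).hasFDerivAt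
      exact h2.comp_hasDerivAt (0 : ℝ) (hasDerivAt_turn (x t))
    have h3 : (fun θ : ℝ => energy m (rot (Complex.exp (θ * I) * 1) 1 (x t))) =
        fun _ => energy m (x t) := by
      funext θ; exact energy_rot (hc' θ) (fun _ => rfl) _
    rw [h3] at h1
    exact h1.unique (hasDerivAt_const (0 : ℝ) _)
  · have h1 : HasDerivAt (fun θ : ℝ => ang m (rot (Complex.exp (θ * I) * 1) 1 (x t)))
        (fderiv ℝ (ang m) (x t) (I • x t)) 0 := by
      have h2 : HasFDerivAt (ang m) (fderiv ℝ (ang m) (x t))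
          (rot (Complex.exp ((0 : ℝ) * I) * 1) 1 (x t)) := by
        rw [h0]
        exact ((contDiff_ang (m := m)).differentiable (by simp) (x t)).hasFDerivAt
      exact h2.comp_hasDerivAt (0 : ℝ) (hasDerivAt_turn (x t))
    have h3 : (fun θ : ℝ => ang m (rot (Complex.exp (θ * I) * 1) 1 (x t))) =
        fun _ => ang m (x t) := by
      funext θ; exact ang_rot (hc' θ) (fun _ => rfl) _
    rw [h3] at h1
    exact h1.unique (hasDerivAt_const (0 : ℝ) _)

/-- the kernel of the differential of `psi` is trivial -/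
theorem psi_inj (s : Sit m x c σ S d R F) (hn : 2 ≤ n) (hne : ¬ IsRelEq x)
    (hnd : RedNonDeg m x c σ S) {e j : Ph n}
    (h1 : fderiv ℝ (energy m) (x S) e = 1) (h2 : fderiv ℝ (energy m) (x S) j = 0)
    (h3 : fderiv ℝ (ang m) (x S) e = 0) (h4 : fderiv ℝ (ang m) (x S) j = 1)
    {l₁ l₂ : Ph n →L[ℝ] ℝ} (k1 : l₁ (vf m (x 0)) = 1) (k2 : l₁ (I • x 0) = 0)
    (k3 : l₂ (vf m (x 0)) = 0) (k4 : l₂ (I • x 0) = 1) {v : Ph n} {a b u τ : ℝ}
    (g1 : u • vf m (x S) + lin m x c σ S F v - τ • rot (I * c) σ (x 0) + a • e + b • j = 0)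
    (g2 : fderiv ℝ (energy m) (x 0) v = 0) (g3 : fderiv ℝ (ang m) (x 0) v = 0) (g4 : l₁ v = 0)
    (g5 : l₂ v = 0) : v = 0 ∧ a = 0 ∧ b = 0 ∧ u = 0 ∧ τ = 0 := by
  have hI : rot (I * c) σ (x 0) = I • x S := by rw [rot_I, ← s.xS]
  rw [hI] at g1
  obtain ⟨hEv, hJv⟩ := s.fderiv_energy_vel S
  obtain ⟨hEt, hJt⟩ := s.fderiv_energy_turn S
  have ha : a = 0 := by
    have := congrArg (fderiv ℝ (energy m) (x S)) g1
    generalize I • x S = w at this hEt
    rw [map_add, map_add, map_sub, map_add, map_smul, map_smul, map_smul, map_smul, hEv, hEt,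
      s.lin_energy, h1, h2, map_zero] at this
    simpa using this
  have hb : b = 0 := by
    have := congrArg (fderiv ℝ (ang m) (x S)) g1
    generalize I • x S = w at this hJt
    rw [map_add, map_add, map_sub, map_add, map_smul, map_smul, map_smul, map_smul, hJv, hJt,
      s.lin_ang, h3, h4, map_zero] at this
    simpa using this
  rw [ha, hb, zero_smul, zero_smul, add_zero, add_zero] at g1
  have hlin : lin m x c σ S F v = τ • (I • x S) - u • vf m (x S) := by
    rw [← sub_eq_zero, ← g1]; abel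
  have hlc : lin m x c σ S F v ∈ com m := by
    rw [hlin]
    exact (com m).sub_mem ((com m).smul_mem _ (I_smul_mem (s.com0 S)))
      ((com m).smul_mem _ (vf_mem (s.com0 S)))
  -- `v` is in the centre of mass frame
  have e1 : cmp m v ∈ com m := cmp_mem s.hM v
  have e2 : fderiv ℝ (F S) (x 0) (cmp m v) ∈ com m := s.fderiv_mem e1 S
  have e3 : (2 : ℝ) • (v - cmp m v) = rot c σ (v - cmp m v) := by
    have e4 := cmp_of_mem hlc
    rw [lin_apply, map_sub, map_add, map_smul, cmp_sub_cmp s.hM, smul_zero, add_zero,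
      cmp_of_mem e2, cmp_rot s.hσ] at e4
    rw [map_sub, ← sub_eq_zero]
    rw [← sub_eq_zero] at e4
    rw [← neg_eq_zero, ← e4]
    abel
  have e5 : cmp m v = v := (sub_eq_zero.1 (two_smul_zero s.hc e3)).symm
  rw [e5] at e1
  have e6 : fderiv ℝ (F S) (x 0) v = rot c σ (v + (-u) • vf m (x 0) + τ • (I • x 0)) := by
    have e7 : vf m (x S) = rot c σ (vf m (x 0)) := by
      rw [s.xS, vf_rot s.hc σ s.hσ]
    have e8 : I • x S = rot c σ (I • x 0) := by rw [s.xS, I_smul_rot]
    rw [lin_apply, e5, sub_self, smul_zero, add_zero, e7, e8] at hlin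
    generalize I • x 0 = w at hlin ⊢
    rw [map_add, map_add, map_smul, map_smul, ← sub_eq_zero]
    rw [← sub_eq_zero] at hlin
    rw [← hlin, neg_smul]
    abel
  obtain ⟨p, q, hpq⟩ := hnd (fun t => fderiv ℝ (F t) (x 0) v) (-u) τ (fun t => s.fderiv_mem e1 t)
    (fun t => s.var v t) (fun t => by
      have h9 := s.fderiv_turn t
      have h8 := s.fderiv_add' e6 t
      generalize I • x 0 = w at h8 h9
      have h10 : fderiv ℝ (F t) (x 0) (v + (-u) • vf m (x 0) + τ • w) =
          fderiv ℝ (F t) (x 0) v + (-u) • vf m (x t) + τ • (I • x t) := by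
        rw [map_add, map_add, map_smul, map_smul, s.fderiv_vel, h9]
      rw [h8, h10])
    (by rw [s.hF.fderiv_zero]; exact g2) (by rw [s.hF.fderiv_zero]; exact g3)
  have hv := hpq 0
  rw [s.hF.fderiv_zero] at hv
  have hp : p = 0 := by
    rw [hv] at g4
    generalize I • x 0 = w at g4 k2
    rw [map_add, map_smul, map_smul, k1, k2] at g4
    simpa using g4
  have hq : q = 0 := by
    rw [hv] at g5
    generalize I • x 0 = w at g5 k4
    rw [map_add, map_smul, map_smul, k3, k4] at g5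
    simpa using g5
  have hv0 : v = 0 := by rw [hv, hp, hq, zero_smul, zero_smul, add_zero]
  rw [hv0, map_zero] at hlin
  obtain ⟨i1, i2, i3, i4⟩ := indep (m := m) hn s.hx hne S
  have hu : u = 0 := by
    by_contra hu
    apply i3 (u⁻¹ * τ)
    have : u • vf m (x S) = τ • (I • x S) := (sub_eq_zero.1 hlin.symm).symm
    rw [mul_smul, ← this, smul_smul, inv_mul_cancel₀ hu, one_smul]
  rw [hu, zero_smul, sub_zero] at hlin
  have hτ : τ = 0 := by
    rcases smul_eq_zero.1 hlin.symm with h | h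
    · exact h
    · exact absurd h i1
  exact ⟨hv0, ha, hb, hu, hτ⟩

end Sit

end Pool.Agent.J6H86.NP
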