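import Pool.Agent.J6H86.NP.Spec
import Pool.Agent.W821.TB.Final

/-!
# The values of `S² (-E)³` at the relative periodic solutions near a stable orbit form a thin set
-/

set_option autoImplicit false

open Complex Finset Filter Topology ComplexConjugate MeasureTheory
open scoped ContDiff

namespace Pool.Agent.J6H86.NP

open Pool.Agent.W821.TB

variable {n : ℕ} {m : Fin n → ℝ}

theorem mem_per {y : ℝ → Ph n} (hy : IsSol m Set.univ y) {S : ℝ} (hS : 0 < S) {K : ℕ} (hK : 1 ≤ K)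
    (hper : ∀ t, y (t + 2 * K * S) = y t) :
    S ^ 2 * (- energy m (y 0)) ^ 3 ∈ {v | ∃ j : ℕ, 0 < j ∧ ∃ p ∈ PerSet m,
      v = (1 / (j : ℝ) ^ 2) * (fun p : Ph n × ℝ => p.2 ^ 2 * (- energy m p.1) ^ 3) p} := by
  have hK0 : (0 : ℝ) < K := by exact_mod_cast hK
  refine ⟨2 * K, by omega, (y 0, 2 * K * S), ⟨by positivity, y, hy, rfl, hper⟩, ?_⟩
  push_cast
  field_simp

theorem thin_stable (hn : 2 ≤ n) (hm : ∀ a, 0 < m a) :
    Thin {κ | ∃ (x : ℝ → Ph n) (S : ℝ), IsSol m Set.univ x ∧ 0 < S ∧ DistPer x S ∧ ¬ IsRelEq x ∧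
      LyapunovStable m (Set.range x) ∧ κ = S ^ 2 * (- energy m (x 0)) ^ 3} := by
  refine (thin_of_locCrit (locCrit_per (m := m))).mono ?_
  rintro κ ⟨x, S, hx, hS, hd, hne, hst, rfl⟩
  rcases final hn hm hx hS hd hst with h | ⟨K, hK, -, U, -, hxU, -, h2⟩
  · exact absurd h hne
  · exact mem_per hx hS hK (h2 x hx (hxU ⟨0, rfl⟩) S hS hd)

theorem thin_near (hn : 2 ≤ n) (hm : ∀ a, 0 < m a) {x : ℝ → Ph n} (hx : IsSol m Set.univ x) {T : ℝ}
    (hT : 0 < T) (hd : DistPer x T) (hne : ¬ IsRelEq x) (hst : LyapunovStable m (Set.range x)) :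
    ∃ U : Set (Ph n), IsOpen U ∧ Set.range x ⊆ U ∧
      Thin {κ | ∃ (y : ℝ → Ph n) (S : ℝ), (IsSol m Set.univ y ∧ y 0 ∈ U ∧ 0 < S ∧ DistPer y S) ∧
        κ = S ^ 2 * (- energy m (y 0)) ^ 3} := by
  rcases final hn hm hx hT hd hst with h | ⟨K, hK, -, U, hU, hxU, -, h2⟩
  · exact absurd h hne
  · refine ⟨U, hU, hxU, (thin_of_locCrit (locCrit_per (m := m))).mono ?_⟩
    rintro κ ⟨y, S, ⟨hy, hyU, hS, hdy⟩, rfl⟩
    exact mem_per hy hS hK (h2 y hy hyU S hS hdy)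

/-- a continuous function with values in a null set is constant on preconnected sets -/
theorem const_of_null {X : Type} [TopologicalSpace X] {P : Set X} (hP : IsPreconnected P)
    {f : X → ℝ} (hf : ContinuousOn f P) {K : Set ℝ} (hK : volume K = 0) (hfK : ∀ p ∈ P, f p ∈ K) :
    ∀ p ∈ P, ∀ q ∈ P, f p = f q := by
  have key : ∀ p ∈ P, ∀ q ∈ P, ¬ f p < f q := by
    intro p hp q hq h
    have h1 : Set.Icc (f p) (f q) ⊆ f '' P :=
      (hP.image f hf).Icc_subset ⟨p, hp, rfl⟩ ⟨q, hq, rfl⟩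
    have h2 : volume (Set.Icc (f p) (f q)) = 0 := by
      refine measure_mono_null (h1.trans ?_) hK
      rintro _ ⟨r, hr, rfl⟩
      exact hfK r hr
    rw [Real.volume_Icc, ENNReal.ofReal_eq_zero] at h2
    linarith
  intro p hp q hq
  exact le_antisymm (not_lt.1 (key q hq p hp)) (not_lt.1 (key p hp q hq))

theorem const_near {U : Set (Ph n)}
    (hU : Thin {κ | ∃ (y : ℝ → Ph n) (S : ℝ), (IsSol m Set.univ y ∧ y 0 ∈ U ∧ 0 < S ∧ DistPer y S) ∧
        κ = S ^ 2 * (- energy m (y 0)) ^ 3}) {P : Set (Ph n × ℝ)} (hP : IsPreconnected P)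
    (h : ∀ p ∈ P, ∃ y : ℝ → Ph n, (IsSol m Set.univ y ∧ y 0 ∈ U ∧ 0 < p.2 ∧ DistPer y p.2) ∧
      y 0 = p.1) :
    ∀ p ∈ P, ∀ q ∈ P, p.2 ^ 2 * (- energy m p.1) ^ 3 = q.2 ^ 2 * (- energy m q.1) ^ 3 := by
  refine const_of_null (f := fun p : Ph n × ℝ => p.2 ^ 2 * (- energy m p.1) ^ 3) hP ?_ hU.null ?_
  · intro p hp
    obtain ⟨y, hy, hy0⟩ := h p hp
    have h1 : ∀ a b, a ≠ b → p.1.1 a ≠ p.1.1 b := by
      rw [← hy0]; exact (hy.1.mem 0).1
    have h2 : ContinuousAt (energy m) p.1 := (contDiffAt_energy (m := m) h1).continuousAt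
    have h3 : ContinuousAt (fun p : Ph n × ℝ => energy m p.1) p :=
      ContinuousAt.comp (g := energy m) (f := Prod.fst) h2 continuousAt_fst
    exact ((continuousAt_snd.pow 2).mul (h3.neg.pow 3)).continuousWithinAt
  · intro p hp
    obtain ⟨y, hy, hy0⟩ := h p hp
    exact ⟨y, p.2, hy, by rw [hy0]⟩

end Pool.Agent.J6H86.NP
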