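import Pool.Agent.J6H86.NP.Fam2
import Pool.Agent.J6H86.NP.SpecMain

/-!
# Stable reduced nondegenerate orbits lie in families with the same period, rotation and energy
-/

set_option autoImplicit false

open Complex Finset Filter Topology ComplexConjugate
open scoped ContDiff

namespace Pool.Agent.J6H86.NP

open Pool.Agent.W821.TB

variable {n : ℕ} {m : Fin n → ℝ}

namespace Sit

variable {x : ℝ → Ph n} {c : ℂ} {σ : Equiv.Perm (Fin n)} {S d R : ℝ} {F : ℝ → Ph n → Ph n}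

/-- zeros of the first component of `psi` close to the given one are relative periodic points -/
theorem close_ev (s : Sit m x c σ S d R F) {e j : Ph n} (he : e ∈ com m) (hj : j ∈ com m)
    (hEe : fderiv ℝ (energy m) (x S) e = 1) (hEj : fderiv ℝ (energy m) (x S) j = 0)
    (hJe : fderiv ℝ (ang m) (x S) e = 0) (hJj : fderiv ℝ (ang m) (x S) j = 1)
    (l₁ l₂ : Ph n →L[ℝ] ℝ) :
    ∀ᶠ p : DD n in 𝓝 (x 0, (0, 0), (0, 0)), (psi m c σ S F e j (x 0) l₁ l₂ p).1 = 0 →
      p.1 ∈ com m ∧ 0 < S + p.2.2.1 ∧ (∀ t ∈ Set.Icc 0 (S + p.2.2.1), F t p.1 ∈ good d R) ∧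
      F (S + p.2.2.1) p.1 = rot (Complex.exp (p.2.2.2 * I) * c) σ p.1 := by
  set P0 : DD n := (x 0, (0, 0), (0, 0)) with hP0
  have hE : HasStrictFDerivAt (energy m) (fderiv ℝ (energy m) (x S)) (x S) :=
    (contDiffAt_energy (s.hx.mem S).1).hasStrictFDerivAt (by simp)
  have hJ : HasStrictFDerivAt (ang m) (fderiv ℝ (ang m) (x S)) (x S) :=
    (contDiff_ang (m := m)).contDiffAt.hasStrictFDerivAt (by simp)
  obtain ⟨ε, hε, hε2⟩ : ∃ ε : ℝ, 0 < ε ∧ ε * (2 * (‖e‖ + ‖j‖)) < 1 := by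
    refine ⟨(2 * (‖e‖ + ‖j‖) + 1)⁻¹, by positivity, ?_⟩
    rw [inv_mul_lt_iff₀ (by positivity)]
    linarith
  have hE2 := hE.isLittleO.def hε
  have hJ2 := hJ.isLittleO.def hε
  set G : DD n → Ph n × Ph n := fun p =>
    ((Real.cos p.2.2.2 • rot c σ p.1 + Real.sin p.2.2.2 • rot (I * c) σ p.1) -
      (p.2.1.1 • e + p.2.1.2 • j),
      Real.cos p.2.2.2 • rot c σ p.1 + Real.sin p.2.2.2 • rot (I * c) σ p.1) with hG
  have hGc : Continuous G := by
    have h3 : Continuous (fun p : DD n => rot c σ p.1) := (rot c σ).continuous.comp continuous_fst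
    have h4 : Continuous (fun p : DD n => rot (I * c) σ p.1) :=
      (rot (I * c) σ).continuous.comp continuous_fst
    have h5 : Continuous (fun p : DD n => Real.cos p.2.2.2) :=
      Real.continuous_cos.comp (continuous_snd.comp (continuous_snd.comp continuous_snd))
    have h6 : Continuous (fun p : DD n => Real.sin p.2.2.2) :=
      Real.continuous_sin.comp (continuous_snd.comp (continuous_snd.comp continuous_snd))
    have h7 := (h5.smul h3).add (h6.smul h4)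
    refine (h7.sub (Continuous.add ?_ ?_)).prodMk h7
    · exact (continuous_fst.comp (continuous_fst.comp continuous_snd)).smul continuous_const
    · exact (continuous_snd.comp (continuous_fst.comp continuous_snd)).smul continuous_const
  have hG0 : G P0 = (x S, x S) := by
    simp only [hG, hP0]
    rw [s.xS]
    simp
  have hGt : Tendsto G (𝓝 P0) (𝓝 (x S, x S)) := by
    rw [← hG0]; exact hGc.continuousAt
  have hgood1 : ∀ᶠ z in 𝓝 (x 0), ∀ t ∈ Set.Icc 0 (S + 1), F t z ∈ good d R := by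
    refine near_good s.hF fun t _ => ?_
    rw [s.Fx]
    exact s.hgood t
  have h1 : Tendsto (fun p : DD n => p.1) (𝓝 P0) (𝓝 (x 0)) := continuous_fst.tendsto P0
  have h2 : Tendsto (fun p : DD n => S + p.2.2.1) (𝓝 P0) (𝓝 S) := by
    have h3 : Continuous (fun p : DD n => S + p.2.2.1) :=
      continuous_const.add (continuous_fst.comp (continuous_snd.comp continuous_snd))
    have h4 := h3.tendsto P0
    simpa [hP0] using h4
  have hS1 : Set.Ioo 0 (S + 1) ∈ 𝓝 S := isOpen_Ioo.mem_nhds ⟨s.hS, by linarith⟩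
  filter_upwards [h1.eventually hgood1, h2.eventually_mem hS1, hGt.eventually hE2,
    hGt.eventually hJ2] with p hpg hpS hE3 hJ3 hphi
  obtain ⟨z, ⟨a, b⟩, ⟨u, θ'⟩⟩ := p
  simp only [psi] at hphi
  simp only [hG] at hE3 hJ3
  simp only at hpg hpS
  rw [rot_exp] at hphi hE3 hJ3
  have hc' : ‖Complex.exp (θ' * I) * c‖ = 1 := by rw [norm_mul, norm_expI, one_mul, s.hc]
  set c' := Complex.exp (θ' * I) * c with hc'def
  have hzg : ∀ t ∈ Set.Icc 0 (S + u), F t z ∈ good d R := fun t ht =>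
    hpg t ⟨ht.1, ht.2.trans hpS.2.le⟩
  -- the centre of mass
  have hz1 : cmp m z ∈ com m := cmp_mem s.hM z
  have hz2 : F (S + u) (cmp m z) ∈ com m := flow_com s.hF hz1 (S + u)
  have hz3 := congrArg (cmp m) hphi
  rw [map_add, map_add, map_sub, map_add, map_smul, cmp_sub_cmp s.hM, smul_zero, add_zero, map_zero,
    cmp_of_mem hz2, cmp_rot s.hσ, map_smul, map_smul, cmp_of_mem he, cmp_of_mem hj] at hz3
  have hz4 : (2 : ℝ) • (z - cmp m z) = rot c' σ (z - cmp m z) := by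
    rw [map_sub, ← sub_eq_zero]
    have h5 : F (S + u) (cmp m z) = rot c' σ (cmp m z) - a • e - b • j := by
      rw [← sub_eq_zero, ← hz3]; abel
    rw [h5] at hphi
    rw [← hphi]
    abel
  have hz5 : cmp m z = z := (sub_eq_zero.1 (two_smul_zero hc' hz4)).symm
  have hzc : z ∈ com m := by rw [← hz5]; exact hz1
  have hcl : F (S + u) z = rot c' σ z - (a • e + b • j) := by
    rw [hz5] at hphi
    rw [← sub_eq_zero, ← hphi]
    simp only [sub_self, smul_zero, add_zero]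
    abel
  -- energy and angular momentum
  obtain ⟨hfE, hfJ⟩ := flow_energy s.hd s.hR s.hF hpS.1.le hzg
  rw [hcl] at hfE hfJ
  rw [hfE, energy_rot hc' s.hσ] at hE3
  rw [hfJ, ang_rot hc' s.hσ] at hJ3
  have hdiff : rot c' σ z - (a • e + b • j) - rot c' σ z = - (a • e + b • j) := by abel
  rw [hdiff, map_neg, map_add, map_smul, map_smul, hEe, hEj, norm_neg] at hE3
  rw [hdiff, map_neg, map_add, map_smul, map_smul, hJe, hJj, norm_neg] at hJ3
  simp only [sub_self, zero_sub, neg_neg, smul_eq_mul, mul_one, mul_zero, add_zero, zero_add,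
    Real.norm_eq_abs] at hE3 hJ3
  have hab : ‖a • e + b • j‖ ≤ |a| * ‖e‖ + |b| * ‖j‖ := by
    refine (norm_add_le _ _).trans ?_
    rw [norm_smul, norm_smul, Real.norm_eq_abs, Real.norm_eq_abs]
  have hab2 : ‖a • e + b • j‖ ≤ (|a| + |b|) * (‖e‖ + ‖j‖) := by
    refine hab.trans ?_
    nlinarith [mul_nonneg (abs_nonneg a) (norm_nonneg j), mul_nonneg (abs_nonneg b) (norm_nonneg e)]
  have hsum : |a| + |b| ≤ (ε * (2 * (‖e‖ + ‖j‖))) * (|a| + |b|) := by
    have h1 := mul_le_mul_of_nonneg_left hab2 hε.le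
    nlinarith
  have hab0 : |a| + |b| = 0 := by
    by_contra hne0
    have hpos : 0 < |a| + |b| := lt_of_le_of_ne (by positivity) (Ne.symm hne0)
    nlinarith
  have ha : a = 0 := by
    have := abs_nonneg a
    have := abs_nonneg b
    exact abs_eq_zero.1 (by linarith)
  have hb : b = 0 := by
    have := abs_nonneg a
    have := abs_nonneg b
    exact abs_eq_zero.1 (by linarith)
  refine ⟨hzc, hpS.1, hzg, ?_⟩
  simp only
  rw [hcl, ha, hb, zero_smul, zero_smul, add_zero, sub_zero]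

/-- the local inverse of `psi` -/
theorem exists_inv (s : Sit m x c σ S d R F) (hn : 2 ≤ n) (hne : ¬ IsRelEq x)
    (hnd : RedNonDeg m x c σ S) {e j : Ph n}
    (h1 : fderiv ℝ (energy m) (x S) e = 1) (h2 : fderiv ℝ (energy m) (x S) j = 0)
    (h3 : fderiv ℝ (ang m) (x S) e = 0) (h4 : fderiv ℝ (ang m) (x S) j = 1)
    {l₁ l₂ : Ph n →L[ℝ] ℝ} (k1 : l₁ (vf m (x 0)) = 1) (k2 : l₁ (I • x 0) = 0)
    (k3 : l₂ (vf m (x 0)) = 0) (k4 : l₂ (I • x 0) = 1) :
    ∃ g : DD n → DD n, ContDiffAt ℝ ∞ g 0 ∧ g 0 = (x 0, (0, 0), (0, 0)) ∧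
      ∀ᶠ w in 𝓝 (0 : DD n), psi m c σ S F e j (x 0) l₁ l₂ (g w) = w := by
  set P0 : DD n := (x 0, (0, 0), (0, 0)) with hP0
  set Ψ := psi m c σ S F e j (x 0) l₁ l₂ with hΨ
  have hcd : ContDiffAt ℝ ∞ Ψ P0 := s.contDiffAt_psi e j l₁ l₂ (s.hx.mem 0).1
  have hval : Ψ P0 = 0 := by
    simp only [hΨ, psi, hP0]
    rw [cmp_of_mem (s.com0 0), add_zero, s.Fx, s.xS]
    simp
  have hA0 : HasFDerivAt Ψ (fderiv ℝ Ψ P0) P0 := (hcd.differentiableAt (by simp)).hasFDerivAt
  have hAv : ∀ (v : Ph n) (a b u τ : ℝ), fderiv ℝ Ψ P0 (v, (a, b), (u, τ)) =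
      (((u • vf m (x S) + lin m x c σ S F v - τ • rot (I * c) σ (x 0) + a • e + b • j),
        (fderiv ℝ (energy m) (x 0) v, fderiv ℝ (ang m) (x 0) v), (l₁ v, l₂ v)) : DD n) := by
    intro v a b u τ
    have h5 : HasDerivAt (fun r : ℝ => P0 + r • ((v, (a, b), (u, τ)) : DD n)) (v, (a, b), (u, τ)) 0 := by
      have h := ((hasDerivAt_id (0 : ℝ)).smul_const ((v, (a, b), (u, τ)) : DD n)).const_add P0
      rw [one_smul] at h
      exact h
    have h6 : HasDerivAt (fun r : ℝ => Ψ (P0 + r • ((v, (a, b), (u, τ)) : DD n)))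
        (fderiv ℝ Ψ P0 (v, (a, b), (u, τ))) 0 :=
      HasFDerivAt.comp_hasDerivAt (l := Ψ) (f := fun r : ℝ => P0 + r • ((v, (a, b), (u, τ)) : DD n))
        (0 : ℝ) (by rw [zero_smul, add_zero]; exact hA0) h5
    exact h6.unique (s.hasDerivAt_psi e j l₁ l₂ v a b u τ)
  have hinj : Function.Injective (fderiv ℝ Ψ P0).toLinearMap := by
    rw [← LinearMap.ker_eq_bot, LinearMap.ker_eq_bot']
    rintro ⟨v, ⟨a, b⟩, ⟨u, τ⟩⟩ hv
    have hv' : fderiv ℝ Ψ P0 (v, (a, b), (u, τ)) = 0 := hv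
    rw [hAv] at hv'
    have g1 := congrArg Prod.fst hv'
    have g2 := congrArg (fun q : DD n => q.2.1.1) hv'
    have g3 := congrArg (fun q : DD n => q.2.1.2) hv'
    have g4 := congrArg (fun q : DD n => q.2.2.1) hv'
    have g5 := congrArg (fun q : DD n => q.2.2.2) hv'
    obtain ⟨r1, r2, r3, r4, r5⟩ := s.psi_inj hn hne hnd h1 h2 h3 h4 k1 k2 k3 k4 g1 g2 g3 g4 g5
    rw [r1, r2, r3, r4, r5]
    rfl
  set Ae : DD n ≃L[ℝ] DD n :=
    (LinearEquiv.ofInjectiveEndo (fderiv ℝ Ψ P0).toLinearMap hinj).toContinuousLinearEquiv with hAe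
  have hAe' : (Ae : DD n →L[ℝ] DD n) = fderiv ℝ Ψ P0 := by
    ext v <;> rfl
  have hf' : HasFDerivAt Ψ (Ae : DD n →L[ℝ] DD n) P0 := by rw [hAe']; exact hA0
  refine ⟨hcd.localInverse hf' (by simp), ?_, ?_, ?_⟩
  · have := hcd.to_localInverse hf' (by simp)
    rwa [hval] at this
  · have := hcd.localInverse_apply_image hf' (by simp)
    rwa [hval] at this
  · have := (hcd.hasStrictFDerivAt' hf' (by simp)).eventually_right_inverse
    rw [hval] at this
    exact this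

end Sit

theorem thin_lock {U : Set (Ph n)} {K : ℕ} (hK : 1 ≤ K)
    (h2 : ∀ y : ℝ → Ph n, IsSol m Set.univ y → y 0 ∈ U → ∀ S : ℝ, 0 < S → DistPer y S →
      ∀ t, y (t + 2 * K * S) = y t) :
    Thin {κ | ∃ (y : ℝ → Ph n) (S : ℝ), (IsSol m Set.univ y ∧ y 0 ∈ U ∧ 0 < S ∧ DistPer y S) ∧
        κ = S ^ 2 * (- energy m (y 0)) ^ 3} := by
  refine (thin_of_locCrit (locCrit_per (m := m))).mono ?_
  rintro κ ⟨y, S, ⟨hy, hyU, hS, hdy⟩, rfl⟩
  exact mem_per hy hS hK (h2 y hy hyU S hS hdy)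

end Pool.Agent.J6H86.NP
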