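import Pool.Agent.J6H86.NP.Fam3

/-!
# Stable reduced nondegenerate orbits lie in families with the same period, rotation and energy
-/

set_option autoImplicit false

open Complex Finset Filter Topology ComplexConjugate
open scoped ContDiff

namespace Pool.Agent.J6H86.NP

open Pool.Agent.W821.TB

variable {n : ℕ} {m : Fin n → ℝ}

theorem fam_main (hn : 2 ≤ n) (hm : ∀ a, 0 < m a) {x : ℝ → Ph n} (hx : IsSol m Set.univ x) {c : ℂ}
    (hc : ‖c‖ = 1) {σ : Equiv.Perm (Fin n)} (hσ : ∀ a, m (σ a) = m a) {S : ℝ} (hS : 0 < S)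
    (hper : ∀ t, x (t + S) = rot c σ (x t)) (hne : ¬ IsRelEq x) (hnd : RedNonDeg m x c σ S)
    (hst : LyapunovStable m (Set.range x)) :
    ∃ (ε : ℝ) (y : ℝ → ℝ → Ph n), 0 < ε ∧ y 0 = x ∧
      (∀ t, ContDiffAt ℝ ∞ (fun p : ℝ × ℝ => y p.1 p.2) (0, t)) ∧
      ∀ h : ℝ, |h| < ε → IsSol m Set.univ (y h) ∧ (∀ t, y h (t + S) = rot c σ (y h t)) ∧
        energy m (y h 0) = energy m (x 0) ∧ ang m (y h 0) = ang m (x 0) + h := by
  have hM : (∑ b, (m b : ℂ)) ≠ 0 := by
    have h1 : 0 < ∑ b, m b := by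
      have : Nonempty (Fin n) := ⟨⟨0, by omega⟩⟩
      exact Finset.sum_pos (fun a _ => hm a) Finset.univ_nonempty
    rw [← Complex.ofReal_sum]
    exact Complex.ofReal_ne_zero.2 h1.ne'
  obtain ⟨d, R, hd, hR, hgood⟩ := exists_good hx hc hS hper
  obtain ⟨F, hF⟩ := exists_flow (contDiff_cvf (m := m) hd R) (hasCompactSupport_cvf d hR)
  have s : Sit m x c σ S d R F := ⟨hM, hx, hc, hσ, hS, hper, hd, hR, hgood, hF⟩
  have hk : 0 < orderOf σ := orderOf_pos σ
  have hk0 : (0 : ℝ) < orderOf σ := by exact_mod_cast hk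
  have hkS : (0 : ℝ) < orderOf σ * S := by positivity
  obtain ⟨K, hK, U, hU, hxU, hlock⟩ : ∃ K : ℕ, 1 ≤ K ∧ ∃ U : Set (Ph n), IsOpen U ∧
      Set.range x ⊆ U ∧ ∀ y : ℝ → Ph n, IsSol m Set.univ y → y 0 ∈ U → ∀ S : ℝ, 0 < S →
        DistPer y S → ∀ t, y (t + 2 * K * S) = y t := by
    rcases final hn hm hx hkS (distPer_of hc hper) hst with h | ⟨K, hK, _, U, hU, hxU, _, hlock⟩
    · exact absurd h hne
    · exact ⟨K, hK, U, hU, hxU, hlock⟩
  have hthin := thin_lock hK hlock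
  have hE0 := energy_neg hn hm hx hc hσ hS hper
  obtain ⟨e, he, j, hj, hEe, hEj, hJe, hJj⟩ := exists_ej hn hm hx hne S
  obtain ⟨l₁, l₂, k1, k2, k3, k4⟩ := exists_slice hn hm hx hne 0
  obtain ⟨g, hgc, hg0, hginv⟩ := s.exists_inv hn hne hnd hEe hEj hJe hJj k1 k2 k3 k4
  have hclose := s.close_ev he hj hEe hEj hJe hJj l₁ l₂
  set Ψ := psi m c σ S F e j (x 0) l₁ l₂ with hΨ
  set N : ℕ := 2 * K * orderOf σ with hN
  have hNpos : 0 < N := by positivity
  have hN0 : (0 : ℝ) < N := by exact_mod_cast hNpos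
  set w : ℝ → DD n := fun h => (0, (0, h), (0, 0)) with hw
  have hwc : Continuous w := by fun_prop
  have hw0 : w 0 = 0 := rfl
  have hwt : Tendsto w (𝓝 0) (𝓝 (0 : DD n)) := by
    have := hwc.tendsto 0
    rwa [hw0] at this
  have hgt : Tendsto g (𝓝 0) (𝓝 ((x 0, (0, 0), (0, 0)) : DD n)) := by
    rw [← hg0]; exact hgc.continuousAt
  have hgw : Tendsto (fun h => g (w h)) (𝓝 0) (𝓝 ((x 0, (0, 0), (0, 0)) : DD n)) := hgt.comp hwt
  -- everything holds near zero
  have ev1 : ∀ᶠ h in 𝓝 (0 : ℝ), Ψ (g (w h)) = w h := hwt.eventually hginv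
  have ev2 := hgw.eventually hclose
  have ev3 : ∀ᶠ h in 𝓝 (0 : ℝ), (g (w h)).1 ∈ U := by
    have h1 : Tendsto (fun h => (g (w h)).1) (𝓝 0) (𝓝 (x 0)) := (continuous_fst.tendsto _).comp hgw
    exact h1.eventually_mem (hU.mem_nhds (hxU ⟨0, rfl⟩))
  have ev4 : ∀ᶠ h in 𝓝 (0 : ℝ), ContinuousAt g (w h) := by
    have h1 : ContDiffAt ℝ 1 g 0 := hgc.of_le (by exact_mod_cast le_top)
    exact hwt.eventually ((h1.eventually (by simp)).mono fun z hz => hz.continuousAt)
  have ev5 : ∀ᶠ h in 𝓝 (0 : ℝ), (N : ℝ) * (g (w h)).2.2.2 ∈ Set.Ioo (-Real.pi) Real.pi := by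
    have h1 : Continuous (fun p : DD n => (N : ℝ) * p.2.2.2) :=
      continuous_const.mul (continuous_snd.comp (continuous_snd.comp continuous_snd))
    have h2 := (h1.tendsto ((x 0, (0, 0), (0, 0)) : DD n)).comp hgw
    refine h2.eventually_mem (isOpen_Ioo.mem_nhds ?_)
    simp [Real.pi_pos]
  obtain ⟨ε, hε, hball⟩ := Metric.eventually_nhds_iff_ball.1
    (ev1.and (ev2.and (ev3.and (ev4.and ev5))))
  have hb : ∀ h : ℝ, |h| < ε → h ∈ Metric.ball (0 : ℝ) ε := fun h hh => by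
    rwa [Metric.mem_ball, Real.dist_0_eq_abs]
  -- the solutions
  have hsol : ∀ h : ℝ, |h| < ε → 0 < S + (g (w h)).2.2.1 ∧
      IsSol m Set.univ (fun t => F t (g (w h)).1) ∧
      (∀ t, F (t + (S + (g (w h)).2.2.1)) (g (w h)).1 =
        rot (Complex.exp ((g (w h)).2.2.2 * I) * c) σ (F t (g (w h)).1)) ∧
      energy m (g (w h)).1 = energy m (x 0) ∧ ang m (g (w h)).1 = ang m (x 0) + h := by
    intro h hh
    obtain ⟨g1, g2, -, -, -⟩ := hball h (hb h hh)
    have g3 := g2 (by rw [g1])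
    have hc' : ‖Complex.exp ((g (w h)).2.2.2 * I) * c‖ = 1 := by
      rw [norm_mul, norm_expI, one_mul, hc]
    obtain ⟨hy, hyper⟩ := sol_of_closed hd hR hF g3.2.1 g3.1 hc' hσ g3.2.2.1 g3.2.2.2
    refine ⟨g3.2.1, hy, hyper, ?_, ?_⟩
    · have := congrArg (fun q : DD n => q.2.1.1) g1
      simp only [hΨ, psi, hw] at this
      linarith
    · have := congrArg (fun q : DD n => q.2.1.2) g1
      simp only [hΨ, psi, hw] at this
      linarith
  -- the rotation angle
  have hlk : ∀ h : ℝ, |h| < ε → (Complex.exp ((g (w h)).2.2.2 * I) * c) ^ N = 1 := by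
    intro h hh
    obtain ⟨h1, hy, hyper, -, -⟩ := hsol h hh
    obtain ⟨-, -, g3, -, -⟩ := hball h (hb h hh)
    have hc' : ‖Complex.exp ((g (w h)).2.2.2 * I) * c‖ = 1 := by
      rw [norm_mul, norm_expI, one_mul, hc]
    have h2 := hlock (fun t => F t (g (w h)).1) hy (by simpa [hF.zero] using g3)
      (orderOf σ * (S + (g (w h)).2.2.1)) (by positivity)
      (distPer_of (S := S + (g (w h)).2.2.1) hc' hyper) 0
    have h3 := iter_rot (y := fun t => F t (g (w h)).1) hyper N 0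
    have h4 : (0 : ℝ) + 2 * K * (orderOf σ * (S + (g (w h)).2.2.1)) =
        0 + N * (S + (g (w h)).2.2.1) := by
      rw [hN]; push_cast; ring
    have h5 : σ ^ N = 1 := by
      rw [hN, mul_comm, pow_mul, pow_orderOf_eq_one, one_pow]
    rw [h4, h3, h5] at h2
    obtain ⟨a, ha⟩ := exists_ne_zero hn (hy.mem 0)
    have h6 := congrFun (congrArg Prod.fst h2) a
    rw [rot_fst] at h6
    simp only [Equiv.Perm.coe_one, id_eq] at h6
    exact mul_right_cancel₀ ha (by rw [one_mul]; exact h6)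
  have hθ : ∀ h : ℝ, |h| < ε → (g (w h)).2.2.2 = 0 := by
    intro h hh
    have h1 := hlk h hh
    have h2 := hlk 0 (by simpa using hε)
    rw [hw0, hg0] at h2
    simp only [Complex.ofReal_zero, zero_mul, Complex.exp_zero, one_mul] at h2
    rw [mul_pow, h2, mul_one, ← Complex.exp_nat_mul] at h1
    have h6 : ((N : ℂ) * ((g (w h)).2.2.2 * I)) = ((N * (g (w h)).2.2.2 : ℝ) : ℂ) * I := by
      push_cast; ring
    rw [h6] at h1
    have h7 := congrArg Complex.im h1
    rw [Complex.exp_ofReal_mul_I_im, Complex.one_im] at h7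
    obtain ⟨-, -, -, -, g5⟩ := hball h (hb h hh)
    have h8 := (Real.sin_eq_zero_iff_of_lt_of_lt g5.1 g5.2).1 h7
    rcases mul_eq_zero.1 h8 with h9 | h9
    · exact absurd h9 hN0.ne'
    · exact h9
  -- the period
  have hS' : ∀ h : ℝ, |h| < ε → (g (w h)).2.2.1 = 0 := by
    intro h hh
    set f : ℝ → Ph n × ℝ := fun h => ((g (w h)).1, orderOf σ * (S + (g (w h)).2.2.1)) with hf
    have hfc : ContinuousOn f (Metric.ball 0 ε) := by
      intro r hr
      obtain ⟨-, -, -, g4, -⟩ := hball r hr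
      have g5 : ContinuousAt (fun h => g (w h)) r := ContinuousAt.comp g4 hwc.continuousAt
      have g6 : Continuous (fun p : DD n => ((p.1, orderOf σ * (S + p.2.2.1)) : Ph n × ℝ)) :=
        continuous_fst.prodMk (continuous_const.mul (continuous_const.add
          (continuous_fst.comp (continuous_snd.comp continuous_snd))))
      exact (ContinuousAt.comp (g := fun p : DD n => ((p.1, orderOf σ * (S + p.2.2.1)) : Ph n × ℝ))
        (f := fun h => g (w h)) g6.continuousAt g5).continuousWithinAt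
    have hpre : IsPreconnected (f '' Metric.ball 0 ε) :=
      ((convex_ball (0 : ℝ) ε).isPreconnected).image f hfc
    have h1 := const_near hthin hpre (by
      rintro _ ⟨r, hr, rfl⟩
      have hr' : |r| < ε := by rwa [Metric.mem_ball, Real.dist_0_eq_abs] at hr
      obtain ⟨h1, hy, hyper, -, -⟩ := hsol r hr'
      obtain ⟨-, -, g3, -, -⟩ := hball r hr
      have hc' : ‖Complex.exp ((g (w r)).2.2.2 * I) * c‖ = 1 := by
        rw [norm_mul, norm_expI, one_mul, hc]
      refine ⟨fun t => F t (g (w r)).1, ⟨hy, by simpa [hF.zero] using g3, ?_, ?_⟩, ?_⟩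
      · simp only [hf]; positivity
      · exact distPer_of (S := S + (g (w r)).2.2.1) hc' hyper
      · simp only [hf, hF.zero]) (f h) ⟨h, hb h hh, rfl⟩ (f 0) ⟨0, hb 0 (by simpa using hε), rfl⟩
    obtain ⟨h2, -, -, h3, -⟩ := hsol h hh
    simp only [hf] at h1
    rw [h3, hw0, hg0] at h1
    simp only [add_zero] at h1
    have h4 : (- energy m (x 0)) ^ 3 ≠ 0 := pow_ne_zero _ (by linarith)
    have h5 := mul_right_cancel₀ h4 h1
    have h6 : orderOf σ * (S + (g (w h)).2.2.1) = orderOf σ * S :=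
      (sq_eq_sq₀ (by positivity) (by positivity)).1 h5
    have h7 := mul_left_cancel₀ hk0.ne' h6
    linarith
  refine ⟨ε, fun h t => F t (g (w h)).1, hε, ?_, ?_, ?_⟩
  · funext t
    simp only
    rw [hw0, hg0]
    exact s.Fx t
  · intro t
    have h1 : ContDiffAt ℝ ∞ (fun p : ℝ × ℝ => ((p.2, (g (w p.1)).1) : ℝ × Ph n)) (0, t) := by
      have h2 : ContDiffAt ℝ ∞ (fun p : ℝ × ℝ => g (w p.1)) (0, t) := by
        have h3 : ContDiffAt ℝ ∞ g (w ((0, t) : ℝ × ℝ).1) := by
          simp only; rw [hw0]; exact hgc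
        have h4 : ContDiff ℝ ∞ (fun p : ℝ × ℝ => w p.1) := by
          simp only [hw]
          fun_prop
        exact ContDiffAt.comp (g := g) (f := fun p : ℝ × ℝ => w p.1) (0, t) h3 h4.contDiffAt
      exact contDiffAt_snd.prodMk (contDiffAt_fst.comp (0, t) h2)
    exact ContDiffAt.comp (g := fun p : ℝ × Ph n => F p.1 p.2)
      (f := fun p : ℝ × ℝ => ((p.2, (g (w p.1)).1) : ℝ × Ph n)) (0, t)
      hF.smooth.contDiffAt h1
  · intro h hh
    obtain ⟨h1, hy, hyper, h3, h4⟩ := hsol h hh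
    refine ⟨hy, fun t => ?_, ?_, ?_⟩
    · have := hyper t
      rw [hS' h hh, hθ h hh] at this
      simpa using this
    · simp only; rw [hF.zero]; exact h3
    · simp only; rw [hF.zero]; exact h4

end Pool.Agent.J6H86.NP
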