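import Mathlib
import Pool.Agent.V11199.HP.Flow

/-!
# Smooth flows of compactly supported vector fields
-/

set_option autoImplicit false

open Topology Filter Set
open scoped ContDiff NNReal

namespace Pool.Agent.J6H86.NP

variable {E : Type} [NormedAddCommGroup E] [NormedSpace ℝ E] [CompleteSpace E]

/-- `F` is the smooth global flow of the vector field `Y`. -/
structure IsFl (Y : E → E) (F : ℝ → E → E) : Prop where
  smooth : ContDiff ℝ ∞ (fun p : ℝ × E => F p.1 p.2)
  zero : ∀ z, F 0 z = z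
  deriv : ∀ t z, HasDerivAt (fun t => F t z) (Y (F t z)) t
  uniq : ∀ γ : ℝ → E, (∀ t, HasDerivAt γ (Y (γ t)) t) → ∀ t, γ t = F t (γ 0)

theorem exists_flow {Y : E → E} (hY : ContDiff ℝ ∞ Y) (hc : HasCompactSupport Y) :
    ∃ F : ℝ → E → E, IsFl Y F := by
  obtain ⟨K, hK⟩ := hY.lipschitzWith_of_hasCompactSupport hc (by simp)
  obtain ⟨M, hM⟩ := hc.exists_bound_of_continuous hY.continuous
  have hM' : ∀ x, ‖Y x‖ ≤ ((Real.toNNReal M : ℝ≥0) : ℝ) := fun x =>
    (hM x).trans (Real.le_coe_toNNReal M)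
  choose g h0 h1 using fun x => Pool.Agent.GR.Flow.exists_solution hK hM' x
  let F : ℝ → E → E := fun t x => g x t
  have hF : Pool.Agent.GR.Flow.IsFlowOf Y F := ⟨h0, h1⟩
  refine ⟨F, ?_, h0, fun t z => h1 z t, ?_⟩
  · rw [contDiff_infty]
    intro m
    rcases Nat.eq_zero_or_pos m with rfl | hm
    · have := Pool.Agent.GR.Flow.contDiff_flow (X := ⟨Y, hY.continuous⟩) (m := 1) one_ne_zero
        (hY.of_le (by exact_mod_cast le_top)) hK hF
      exact this.of_le (by simp)
    · exact Pool.Agent.GR.Flow.contDiff_flow (X := ⟨Y, hY.continuous⟩) (m := m) hm.ne'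
        (hY.of_le (by exact_mod_cast le_top)) hK hF
  · intro γ hγ t
    have h2 : γ = fun t => F t (γ 0) := by
      refine ODE_solution_unique_univ (v := fun _ => Y) (s := fun _ => univ) (K := K) (t₀ := 0)
        (fun t => hK.lipschitzOnWith) (fun t => ⟨hγ t, trivial⟩)
        (fun t => ⟨hF.deriv _ t, trivial⟩) ?_
      rw [hF.zero]
    exact congrFun h2 t

namespace IsFl

variable {Y : E → E} {F : ℝ → E → E}

theorem cont (h : IsFl Y F) : Continuous (fun p : ℝ × E => F p.1 p.2) := h.smooth.continuous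

theorem add (h : IsFl Y F) (t s : ℝ) (z : E) : F (t + s) z = F t (F s z) := by
  have h1 := h.uniq (fun t => F (t + s) z) (fun t => by
    have := (h.deriv (t + s) z).comp_add_const t s
    exact this) t
  simpa using h1

/-- the flow commutes with the linear symmetries of the vector field -/
theorem comm (h : IsFl Y F) (L : E →L[ℝ] E) (hL : ∀ z, Y (L z) = L (Y z)) (t : ℝ) (z : E) :
    F t (L z) = L (F t z) := by
  have h1 := h.uniq (fun t => L (F t z)) (fun t => by
    have := (L.hasFDerivAt (x := F t z)).comp_hasDerivAt t (h.deriv t z)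
    rw [hL]
    exact this) t
  simp only [h.zero] at h1
  exact h1.symm

theorem smooth_at (h : IsFl Y F) (t : ℝ) : ContDiff ℝ ∞ (F t) :=
  h.smooth.comp (contDiff_const.prodMk contDiff_id)

theorem hasFDerivAt (h : IsFl Y F) (t : ℝ) (z : E) : HasFDerivAt (F t) (fderiv ℝ (F t) z) z :=
  ((h.smooth_at t).differentiable (by simp) z).hasFDerivAt

/-- the variational equation -/
theorem var (h : IsFl Y F) (hY : ContDiff ℝ ∞ Y) (t : ℝ) (z v : E) :
    HasDerivAt (fun t => fderiv ℝ (F t) z v) (fderiv ℝ Y (F t z) (fderiv ℝ (F t) z v)) t := by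
  have h1 := Pool.Agent.V11199.HP.hasDerivAt_fderiv (X := fun p : ℝ × E => Y p.2)
    (hY.comp contDiff_snd) h.smooth (fun t x => h.deriv t x) t z v
  exact h1

theorem fderiv_zero (h : IsFl Y F) (z v : E) : fderiv ℝ (F 0) z v = v := by
  have : F 0 = id := by funext z; exact h.zero z
  rw [this, fderiv_id]
  rfl

end IsFl

end Pool.Agent.J6H86.NP
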