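import Pool.Agent.J6H86.NP.Mom

/-!
# The truncated flow near a relative periodic solution
-/

set_option autoImplicit false

open Complex Finset Filter Topology ComplexConjugate
open scoped ContDiff

namespace Pool.Agent.J6H86.NP

open Pool.Agent.W821.TB

variable {n : ℕ} {m : Fin n → ℝ}

/-! ### linear algebra -/

theorem surj_of_ker {V : Type} [AddCommGroup V] [Module ℝ V] [FiniteDimensional ℝ V]
    (A : V →ₗ[ℝ] V) (l₁ l₂ : V →ₗ[ℝ] ℝ) {e j u₁ u₂ : V} (h1 : l₁ e = 1) (h2 : l₁ j = 0)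
    (h3 : l₂ e = 0) (h4 : l₂ j = 1) (hA1 : ∀ v, l₁ (A v) = 0) (hA2 : ∀ v, l₂ (A v) = 0)
    (hker : ∀ v, A v = 0 → ∃ a b : ℝ, v = a • u₁ + b • u₂) (w : V) :
    ∃ (v : V) (a b : ℝ), A v + a • e + b • j = w := by
  set l : V →ₗ[ℝ] ℝ × ℝ := l₁.prod l₂ with hl
  have hsurj : Function.Surjective l := by
    rintro ⟨a, b⟩
    refine ⟨a • e + b • j, ?_⟩
    simp [hl, h1, h2, h3, h4]
  have e1 : Module.finrank ℝ (LinearMap.range l) = 2 := by
    rw [LinearMap.range_eq_top.2 hsurj, finrank_top]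
    simp
  have e2 := LinearMap.finrank_range_add_finrank_ker l
  have e3 := LinearMap.finrank_range_add_finrank_ker A
  have e4 : Module.finrank ℝ (LinearMap.ker A) ≤ 2 := by
    have hle : LinearMap.ker A ≤ Submodule.span ℝ ({u₁, u₂} : Set V) := by
      intro v hv
      obtain ⟨a, b, rfl⟩ := hker v (LinearMap.mem_ker.1 hv)
      exact Submodule.add_mem _ (Submodule.smul_mem _ _ (Submodule.subset_span (by simp)))
        (Submodule.smul_mem _ _ (Submodule.subset_span (by simp)))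
    refine (Submodule.finrank_mono hle).trans ?_
    classical
    have h : ({u₁, u₂} : Set V) = ((({u₁, u₂} : Finset V)) : Set V) := by simp
    rw [h]
    exact (finrank_span_finset_le_card _).trans Finset.card_le_two
  have hle : LinearMap.range A ≤ LinearMap.ker l := by
    rintro _ ⟨v, rfl⟩
    rw [LinearMap.mem_ker, hl, LinearMap.prod_apply]
    simp [hA1, hA2]
  have heq : LinearMap.range A = LinearMap.ker l := by
    apply Submodule.eq_of_le_of_finrank_le hle
    omega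
  have hw : w - l₁ w • e - l₂ w • j ∈ LinearMap.ker l := by
    rw [LinearMap.mem_ker, hl, LinearMap.prod_apply]
    simp [h1, h2, h3, h4]
  rw [← heq] at hw
  obtain ⟨v, hv⟩ := hw
  refine ⟨v, l₁ w, l₂ w, ?_⟩
  rw [hv]
  abel

/-! ### invariance of the centre of mass frame -/

theorem deriv_mem_com (hM : (∑ b, (m b : ℂ)) ≠ 0) {γ : ℝ → Ph n} {γ' : Ph n} {t : ℝ}
    (h : HasDerivAt γ γ' t) (hγ : ∀ s, γ s ∈ com m) : γ' ∈ com m := by
  have h1 : HasDerivAt (fun s => cmp m (γ s)) (cmp m γ') t :=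
    ((cmp m).hasFDerivAt (x := γ t)).comp_hasDerivAt t h
  have h2 : (fun s => cmp m (γ s)) = γ := by
    funext s; exact cmp_of_mem (hγ s)
  rw [h2] at h1
  rw [h.unique h1]
  exact cmp_mem hM _

/-- the total momentum and the centre of mass along a curve -/
theorem com_of_deriv {γ γ' : ℝ → Ph n} (h : ∀ t, HasDerivAt γ (γ' t) t)
    (h2 : ∀ t, ∑ a, (m a : ℂ) * (γ' t).2 a = 0)
    (h1 : ∀ t, ∑ a, (m a : ℂ) * (γ t).2 a = 0 → ∑ a, (m a : ℂ) * (γ' t).1 a = 0)
    (h0 : γ 0 ∈ com m) (t : ℝ) : γ t ∈ com m := by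
  have hp : ∀ t, HasDerivAt (fun s => ∑ a, (m a : ℂ) * (γ s).2 a) 0 t := by
    intro t
    have := HasDerivAt.fun_sum (u := univ) fun a _ => (snd_deriv (h t) a).const_mul (m a : ℂ)
    rwa [h2] at this
  have hp0 : ∀ t, ∑ a, (m a : ℂ) * (γ t).2 a = 0 := by
    intro t
    have := is_const_of_deriv_eq_zero (f := fun s => ∑ a, (m a : ℂ) * (γ s).2 a)
      (fun u => (hp u).differentiableAt) (fun u => (hp u).deriv) t 0
    rw [this]
    exact h0.2
  have hq : ∀ t, HasDerivAt (fun s => ∑ a, (m a : ℂ) * (γ s).1 a) 0 t := by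
    intro t
    have := HasDerivAt.fun_sum (u := univ) fun a _ => (fst_deriv (h t) a).const_mul (m a : ℂ)
    rwa [h1 t (hp0 t)] at this
  refine ⟨?_, hp0 t⟩
  have := is_const_of_deriv_eq_zero (f := fun s => ∑ a, (m a : ℂ) * (γ s).1 a)
    (fun u => (hq u).differentiableAt) (fun u => (hq u).deriv) t 0
  rw [this]
  exact h0.1

theorem sum_smul_zero (r : ℝ) {f : Fin n → ℂ} (hf : ∑ a, (m a : ℂ) * f a = 0) :
    ∑ a, (m a : ℂ) * (r • f a) = 0 := by
  have : ∑ a, (m a : ℂ) * (r • f a) = r * ∑ a, (m a : ℂ) * f a := by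
    rw [Finset.mul_sum]
    refine Finset.sum_congr rfl fun a _ => ?_
    rw [Complex.real_smul]; ring
  rw [this, hf, mul_zero]

/-- the truncated flow preserves the centre of mass frame -/
theorem flow_com {d R : ℝ} {F : ℝ → Ph n → Ph n} (hF : IsFl (cvf m d R) F) {z : Ph n}
    (hz : z ∈ com m) (t : ℝ) : F t z ∈ com m := by
  refine com_of_deriv (γ := fun t => F t z) (fun t => hF.deriv t z) (fun t => ?_) (fun t ht => ?_)
    (by simpa [hF.zero] using hz) t
  · exact sum_smul_zero _ (force_zero (F t z).1)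
  · exact sum_smul_zero _ ht

/-! ### invariance of energy and angular momentum -/

theorem energy_rot {c : ℂ} (hc : ‖c‖ = 1) {σ : Equiv.Perm (Fin n)} (hσ : ∀ a, m (σ a) = m a)
    (z : Ph n) : energy m (rot c σ z) = energy m z := by
  unfold energy upot
  congr 2
  · rw [← Equiv.sum_comp σ (fun a => m a * ‖z.2 a‖ ^ 2)]
    refine Finset.sum_congr rfl fun a _ => ?_
    rw [rot_snd, norm_mul, hc, one_mul, hσ]
  · rw [← Equiv.sum_comp σ (fun a => ∑ b ∈ univ.erase a, m a * m b / ‖z.1 b - z.1 a‖)]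
    refine Finset.sum_congr rfl fun a _ => ?_
    refine Finset.sum_bij (fun b _ => σ b) ?_ ?_ ?_ ?_
    · intro b hb
      simp only [Finset.mem_erase, Finset.mem_univ, and_true] at hb ⊢
      exact fun h => hb (σ.injective h)
    · intro b _ b' _ h
      exact σ.injective h
    · intro b hb
      refine ⟨σ.symm b, ?_, by simp⟩
      simp only [Finset.mem_erase, Finset.mem_univ, and_true] at hb ⊢
      intro h
      apply hb
      rw [← h]; simp
    · intro b _
      have : (rot c σ z).1 b - (rot c σ z).1 a = c * (z.1 (σ b) - z.1 (σ a)) := by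
        rw [rot_fst, rot_fst]; ring
      rw [this, norm_mul, hc, one_mul, hσ, hσ]

theorem ang_rot {c : ℂ} (hc : ‖c‖ = 1) {σ : Equiv.Perm (Fin n)} (hσ : ∀ a, m (σ a) = m a)
    (z : Ph n) : ang m (rot c σ z) = ang m z := by
  unfold ang
  rw [← Equiv.sum_comp σ (fun a => m a * (conj (z.1 a) * z.2 a).im)]
  refine Finset.sum_congr rfl fun a _ => ?_
  rw [rot_fst, rot_snd, hσ]
  have h1 : conj c * c = 1 := by
    rw [← Complex.normSq_eq_conj_mul_self, Complex.normSq_eq_norm_sq, hc]; simp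
  have : conj (c * z.1 (σ a)) * (c * z.2 (σ a)) = (conj c * c) * (conj (z.1 (σ a)) * z.2 (σ a)) := by
    rw [map_mul]; ring
  rw [this, h1, one_mul]

theorem good_col {d R : ℝ} (hd : 0 < d) {z : Ph n} (hz : z ∈ good d R) :
    ∀ a b, a ≠ b → z.1 a ≠ z.1 b := by
  intro a b hab h
  have := hz.1 a b hab
  rw [h] at this
  simp at this
  nlinarith

theorem flow_vf {d R : ℝ} (hd : 0 < d) (hR : 0 < R) {F : ℝ → Ph n → Ph n}
    (hF : IsFl (cvf m d R) F) {z : Ph n} {t : ℝ} (h : F t z ∈ good d R) :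
    HasDerivAt (fun t => F t z) (vf m (F t z)) t := by
  have := hF.deriv t z
  rwa [cvf_good hd hR h] at this

theorem flow_energy {d R : ℝ} (hd : 0 < d) (hR : 0 < R) {F : ℝ → Ph n → Ph n}
    (hF : IsFl (cvf m d R) F) {z : Ph n} {S : ℝ} (hS : 0 ≤ S)
    (h : ∀ t ∈ Set.Icc 0 S, F t z ∈ good d R) :
    energy m (F S z) = energy m z ∧ ang m (F S z) = ang m z := by
  have hE : ∀ t ∈ Set.Icc 0 S, HasDerivAt (fun t => energy m (F t z)) 0 t := by
    intro t ht
    have h1 := flow_vf hd hR hF (h t ht)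
    have h2 := hasDerivAt_energy (m := m) (fst_deriv h1) (snd_deriv h1) (good_col hd (h t ht))
    refine h2.congr_deriv ?_
    rw [sub_eq_zero]
    refine Finset.sum_congr rfl fun a _ => ?_
    simp only [ip_eq, vf]; ring
  have hJ : ∀ t ∈ Set.Icc 0 S, HasDerivAt (fun t => ang m (F t z)) 0 t := by
    intro t ht
    have h1 := flow_vf hd hR hF (h t ht)
    unfold ang
    have h2 : ∀ a ∈ (univ : Finset (Fin n)), HasDerivAt
        (fun s => m a * (conj ((F s z).1 a) * (F s z).2 a).im)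
        (m a * (conj ((F t z).2 a) * (F t z).2 a + conj ((F t z).1 a) * acc m (F t z).1 a).im) t :=
      fun a _ => (hasDerivAt_imc ((hasDerivAt_conj (fst_deriv h1 a)).mul (snd_deriv h1 a))).const_mul _
    refine (HasDerivAt.fun_sum h2).congr_deriv ?_
    have h3 := torque_zero (m := m) (F t z).1
    rw [← h3]
    refine Finset.sum_congr rfl fun a _ => ?_
    rw [Complex.add_im]
    have : (conj ((F t z).2 a) * (F t z).2 a).im = 0 := by
      simp only [Complex.mul_im, Complex.conj_re, Complex.conj_im]; ring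
    rw [this, zero_add]
  have key : ∀ f : ℝ → ℝ, (∀ t ∈ Set.Icc 0 S, HasDerivAt f 0 t) → f S = f 0 := by
    intro f hf
    exact constant_of_has_deriv_right_zero
      (fun t ht => (hf t ht).continuousAt.continuousWithinAt)
      (fun t ht => (hf t ⟨ht.1, ht.2.le⟩).hasDerivWithinAt) S ⟨hS, le_rfl⟩
  have h1 := key _ hE
  have h2 := key _ hJ
  simp only [hF.zero] at h1 h2
  exact ⟨h1, h2⟩

/-! ### bounds along a relative periodic solution -/

theorem exists_good {x : ℝ → Ph n} (hx : IsSol m Set.univ x) {c : ℂ} (hc : ‖c‖ = 1)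
    {σ : Equiv.Perm (Fin n)} {S : ℝ} (hS : 0 < S) (hper : ∀ t, x (t + S) = rot c σ (x t)) :
    ∃ d R : ℝ, 0 < d ∧ 0 < R ∧ ∀ t, x t ∈ good d R := by
  have hcont := hx.continuous
  have hK : IsCompact (x '' Set.Icc 0 S) := isCompact_Icc.image hcont
  have hne : (x '' Set.Icc 0 S).Nonempty := ⟨x 0, 0, ⟨le_rfl, hS.le⟩, rfl⟩
  -- lower bound for the distances
  obtain ⟨δ, hδ, hδ2⟩ : ∃ δ : ℝ, 0 < δ ∧ ∀ z ∈ x '' Set.Icc 0 S, ∀ a b, a ≠ b →
      δ ≤ ‖z.1 a - z.1 b‖ := by
    have h1 : ∀ a b : Fin n, ∃ δ : ℝ, 0 < δ ∧ ∀ z ∈ x '' Set.Icc 0 S, a ≠ b →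
        δ ≤ ‖z.1 a - z.1 b‖ := by
      intro a b
      by_cases hab : a = b
      · exact ⟨1, one_pos, fun z _ h => absurd hab h⟩
      · have hf : Continuous fun z : Ph n => ‖z.1 a - z.1 b‖ := by fun_prop
        obtain ⟨z₀, hz₀, hmin⟩ := hK.exists_isMinOn hne hf.continuousOn
        refine ⟨‖z₀.1 a - z₀.1 b‖, ?_, fun z hz _ => hmin hz⟩
        obtain ⟨t, _, rfl⟩ := hz₀
        exact norm_pos_iff.2 (sub_ne_zero.2 ((hx.mem t).1 a b hab))
    choose δ hδ hδ2 using h1
    rcases (univ : Finset (Fin n × Fin n)).eq_empty_or_nonempty with he | hn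
    · refine ⟨1, one_pos, fun z _ a b _ => ?_⟩
      have : (a, b) ∈ (univ : Finset (Fin n × Fin n)) := Finset.mem_univ _
      rw [he] at this
      simp at this
    · obtain ⟨p, _, hp⟩ := Finset.exists_min_image univ (fun p : Fin n × Fin n => δ p.1 p.2) hn
      refine ⟨δ p.1 p.2, hδ _ _, fun z hz a b hab => ?_⟩
      exact (hp (a, b) (Finset.mem_univ _)).trans (hδ2 a b z hz hab)
  obtain ⟨z₁, _, hmax⟩ := hK.exists_isMaxOn hne (continuous_ssq (n := n)).continuousOn
  have hs : 0 ≤ ssq z₁ := Finset.sum_nonneg fun a _ => by positivity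
  refine ⟨δ / 2, Real.sqrt (ssq z₁ + 1), by positivity, by positivity, ?_⟩
  have hR2 : Real.sqrt (ssq z₁ + 1) ^ 2 = ssq z₁ + 1 := Real.sq_sqrt (by positivity)
  have h0 : ∀ t ∈ Set.Icc 0 S, x t ∈ good (δ / 2) (Real.sqrt (ssq z₁ + 1)) := by
    intro t ht
    constructor
    · intro a b hab
      have := hδ2 (x t) ⟨t, ht, rfl⟩ a b hab
      nlinarith
    · rw [hR2]
      have : ssq (x t) ≤ ssq z₁ := hmax ⟨t, ht, rfl⟩
      linarith
  have hperiod : Function.Periodic (fun t => x t ∈ good (δ / 2) (Real.sqrt (ssq z₁ + 1))) S := by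
    intro t
    simp only [hper, good_rot hc]
  intro t
  obtain ⟨s, hs, hts⟩ := hperiod.exists_mem_Ico₀ hS t
  rw [hts]
  exact h0 s ⟨hs.1, hs.2.le⟩

/-- nearby points stay in the good region for the time `S` -/
theorem near_good {d R S : ℝ} {F : ℝ → Ph n → Ph n} {Y : Ph n → Ph n} (hF : IsFl Y F) {z₀ : Ph n}
    (h : ∀ t ∈ Set.Icc 0 S, F t z₀ ∈ good d R) :
    ∀ᶠ z in 𝓝 z₀, ∀ t ∈ Set.Icc 0 S, F t z ∈ good d R := by
  refine isCompact_Icc.eventually_forall_of_forall_eventually fun t ht => ?_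
  have h1 : ContinuousAt (fun p : Ph n × ℝ => F p.2 p.1) (z₀, t) :=
    (hF.cont.comp (continuous_snd.prodMk continuous_fst)).continuousAt
  exact h1.eventually_mem ((isOpen_good d R).mem_nhds (h t ht))

/-- a point whose orbit closes up to a rotation and a permutation gives a solution -/
theorem sol_of_closed {d R : ℝ} (hd : 0 < d) (hR : 0 < R) {F : ℝ → Ph n → Ph n}
    (hF : IsFl (cvf m d R) F) {S : ℝ} (hS : 0 < S) {z : Ph n} (hz : z ∈ com m) {c : ℂ}
    (hc : ‖c‖ = 1) {σ : Equiv.Perm (Fin n)} (hσ : ∀ a, m (σ a) = m a)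
    (h : ∀ t ∈ Set.Icc 0 S, F t z ∈ good d R) (hcl : F S z = rot c σ z) :
    IsSol m Set.univ (fun t => F t z) ∧ ∀ t, F (t + S) z = rot c σ (F t z) := by
  have hper : ∀ t, F (t + S) z = rot c σ (F t z) := by
    intro t
    rw [hF.add, hcl]
    exact hF.comm (rot c σ) (cvf_rot hc σ hσ d R) t z
  have hperiod : Function.Periodic (fun t => F t z ∈ good d R) S := by
    intro t
    simp only [hper, good_rot hc]
  have hall : ∀ t, F t z ∈ good d R := by
    intro t
    obtain ⟨s, hs, hts⟩ := hperiod.exists_mem_Ico₀ hS t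
    rw [hts]
    exact h s ⟨hs.1, hs.2.le⟩
  refine ⟨isSol_of (fun t => ?_) fun t => flow_vf hd hR hF (hall t), hper⟩
  have := flow_com hF hz t
  exact ⟨good_col hd (hall t), this.1, this.2⟩

end Pool.Agent.J6H86.NP
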