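import Pool.Agent.J6H86.NP.Sit
import Pool.Agent.W821.TB.Final

/-!
# Nondegenerate relative periodic orbits are not Lyapunov stable
-/

set_option autoImplicit false

open Complex Finset Filter Topology ComplexConjugate
open scoped ContDiff

namespace Pool.Agent.J6H86.NP

open Pool.Agent.W821.TB

variable {n : ℕ} {m : Fin n → ℝ}

/-- nondegeneracy: the only solutions of the linearised equations with the symmetry of `x` come from
time shifts and rotations -/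
def NonDeg (m : Fin n → ℝ) (x : ℝ → Ph n) (c : ℂ) (σ : Equiv.Perm (Fin n)) (S : ℝ) : Prop :=
  ∀ ξ : ℝ → Ph n, (∀ t, ξ t ∈ com m) →
    (∀ t, HasDerivAt ξ ((ξ t).2, fderiv ℝ (acc m) (x t).1 (ξ t).1) t) →
    (∀ t, ξ (t + S) = rot c σ (ξ t)) →
    ∃ a b : ℝ, ∀ t, ξ t = a • vf m (x t) + b • (I • x t)

theorem rot_exp (c : ℂ) (σ : Equiv.Perm (Fin n)) (θ : ℝ) (z : Ph n) :
    Real.cos θ • rot c σ z + Real.sin θ • rot (I * c) σ z =
      rot (Complex.exp (θ * I) * c) σ z := by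
  have h : Complex.exp (θ * I) = Real.cos θ + Real.sin θ * I := by
    rw [Complex.exp_mul_I, Complex.ofReal_cos, Complex.ofReal_sin]
  rw [h]
  ext a
  · simp only [Prod.fst_add, Prod.smul_fst, Pi.add_apply, Pi.smul_apply, rot_fst, Complex.real_smul]
    ring
  · simp only [Prod.snd_add, Prod.smul_snd, Pi.add_apply, Pi.smul_apply, rot_snd, Complex.real_smul]
    ring

/-- the map whose zeros are the relative periodic points with a given rotation angle -/
noncomputable def phi (m : Fin n → ℝ) (c : ℂ) (σ : Equiv.Perm (Fin n)) (S : ℝ)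
    (F : ℝ → Ph n → Ph n) (e j : Ph n) (p : (Ph n × ℝ × ℝ) × ℝ) : Ph n × ℝ :=
  (F S (cmp m p.1.1) + (2 : ℝ) • (p.1.1 - cmp m p.1.1) -
    (Real.cos p.2 • rot c σ p.1.1 + Real.sin p.2 • rot (I * c) σ p.1.1) +
    p.1.2.1 • e + p.1.2.2 • j, p.2)

namespace Sit

variable {x : ℝ → Ph n} {c : ℂ} {σ : Equiv.Perm (Fin n)} {S d R : ℝ} {F : ℝ → Ph n → Ph n}

theorem lin_surj (s : Sit m x c σ S d R F) (hn : 2 ≤ n) (hm : ∀ a, 0 < m a) (hne : ¬ IsRelEq x)
    (hnd : NonDeg m x c σ S) : ∃ e ∈ com m, ∃ j ∈ com m,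
      (fderiv ℝ (energy m) (x S) e = 1 ∧ fderiv ℝ (energy m) (x S) j = 0 ∧
      fderiv ℝ (ang m) (x S) e = 0 ∧ fderiv ℝ (ang m) (x S) j = 1) ∧
      ∀ w, ∃ (v : Ph n) (a b : ℝ), lin m x c σ S F v + a • e + b • j = w := by
  obtain ⟨e, he, j, hj, h1, h2, h3, h4⟩ := exists_ej hn hm s.hx hne S
  refine ⟨e, he, j, hj, ⟨h1, h2, h3, h4⟩, fun w => ?_⟩
  refine surj_of_ker (lin m x c σ S F).toLinearMap (fderiv ℝ (energy m) (x S)).toLinearMap
    (fderiv ℝ (ang m) (x S)).toLinearMap (u₁ := vf m (x 0)) (u₂ := I • x 0) h1 h2 h3 h4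
    s.lin_energy s.lin_ang ?_ w
  intro v hv
  obtain ⟨hv1, hv2⟩ := s.lin_ker hv
  obtain ⟨a, b, hab⟩ := hnd (fun t => fderiv ℝ (F t) (x 0) v) (fun t => s.fderiv_mem hv1 t)
    (fun t => s.var v t) (fun t => s.fderiv_add hv2 t)
  refine ⟨a, b, ?_⟩
  have := hab 0
  rwa [s.hF.fderiv_zero] at this

theorem contDiff_phi (s : Sit m x c σ S d R F) (e j : Ph n) :
    ContDiff ℝ ∞ (phi m c σ S F e j) := by
  unfold phi
  have h1 : ContDiff ℝ ∞ (fun p : (Ph n × ℝ × ℝ) × ℝ => F S (cmp m p.1.1)) :=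
    (s.hF.smooth_at S).comp ((cmp m).contDiff.comp (contDiff_fst.comp contDiff_fst))
  have h2 : ContDiff ℝ ∞ (fun p : (Ph n × ℝ × ℝ) × ℝ => cmp m p.1.1) :=
    (cmp m).contDiff.comp (contDiff_fst.comp contDiff_fst)
  have h3 : ContDiff ℝ ∞ (fun p : (Ph n × ℝ × ℝ) × ℝ => rot c σ p.1.1) :=
    (rot c σ).contDiff.comp (contDiff_fst.comp contDiff_fst)
  have h4 : ContDiff ℝ ∞ (fun p : (Ph n × ℝ × ℝ) × ℝ => rot (I * c) σ p.1.1) :=
    (rot (I * c) σ).contDiff.comp (contDiff_fst.comp contDiff_fst)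
  have h5 : ContDiff ℝ ∞ (fun p : (Ph n × ℝ × ℝ) × ℝ => Real.cos p.2) :=
    Real.contDiff_cos.comp contDiff_snd
  have h6 : ContDiff ℝ ∞ (fun p : (Ph n × ℝ × ℝ) × ℝ => Real.sin p.2) :=
    Real.contDiff_sin.comp contDiff_snd
  refine ContDiff.prodMk ?_ contDiff_snd
  refine ContDiff.add (ContDiff.add (ContDiff.sub (h1.add ?_) ((h5.smul h3).add (h6.smul h4))) ?_) ?_
  · exact (contDiff_const (c := (2 : ℝ))).smul ((contDiff_fst.comp contDiff_fst).sub h2)
  · exact (contDiff_fst.comp (contDiff_snd.comp contDiff_fst)).smul contDiff_const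
  · exact (contDiff_snd.comp (contDiff_snd.comp contDiff_fst)).smul contDiff_const

theorem hasDerivAt_phi (s : Sit m x c σ S d R F) (e j v : Ph n) (a b τ : ℝ) :
    HasDerivAt (fun r : ℝ => phi m c σ S F e j (((x 0, 0, 0), 0) + r • ((v, a, b), τ)))
      (lin m x c σ S F v - τ • rot (I * c) σ (x 0) + a • e + b • j, τ) 0 := by
  have h0 : HasDerivAt (fun r : ℝ => x 0 + r • v) v 0 := by
    have h := ((hasDerivAt_id (0 : ℝ)).smul_const v).const_add (x 0)
    rw [one_smul] at h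
    exact h
  have hτ : ∀ τ : ℝ, HasDerivAt (fun r : ℝ => 0 + r • τ) τ 0 := by
    intro τ
    have h := ((hasDerivAt_id (0 : ℝ)).smul_const τ).const_add 0
    rw [one_smul] at h
    exact h
  have h1 : HasDerivAt (fun r : ℝ => cmp m (x 0 + r • v)) (cmp m v) 0 :=
    ((cmp m).hasFDerivAt (x := x 0 + (0 : ℝ) • v)).comp_hasDerivAt (0 : ℝ) h0
  have h2 : HasDerivAt (fun r : ℝ => F S (cmp m (x 0 + r • v)))
      (fderiv ℝ (F S) (x 0) (cmp m v)) 0 := by
    have h3 : HasFDerivAt (F S) (fderiv ℝ (F S) (x 0)) (cmp m (x 0 + (0 : ℝ) • v)) := by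
      rw [zero_smul, add_zero, cmp_of_mem (s.com0 0)]; exact s.hF.hasFDerivAt S (x 0)
    exact h3.comp_hasDerivAt (0 : ℝ) h1
  have h3 : HasDerivAt (fun r : ℝ => rot c σ (x 0 + r • v)) (rot c σ v) 0 :=
    ((rot c σ).hasFDerivAt (x := x 0 + (0 : ℝ) • v)).comp_hasDerivAt (0 : ℝ) h0
  have h4 : HasDerivAt (fun r : ℝ => rot (I * c) σ (x 0 + r • v)) (rot (I * c) σ v) 0 :=
    ((rot (I * c) σ).hasFDerivAt (x := x 0 + (0 : ℝ) • v)).comp_hasDerivAt (0 : ℝ) h0
  have h5 : HasDerivAt (fun r : ℝ => Real.cos (0 + r • τ)) (-Real.sin (0 + (0 : ℝ) • τ) * τ) 0 :=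
    (hτ τ).cos
  have h6 : HasDerivAt (fun r : ℝ => Real.sin (0 + r • τ)) (Real.cos (0 + (0 : ℝ) • τ) * τ) 0 :=
    (hτ τ).sin
  have h7 := h5.fun_smul h3
  have h8 := h6.fun_smul h4
  have h9 := ((((h2.fun_add ((h0.fun_sub h1).fun_const_smul (2 : ℝ))).fun_sub (h7.fun_add h8)).fun_add
    ((hτ a).smul_const e)).fun_add ((hτ b).smul_const j)).prodMk (hτ τ)
  refine h9.congr_deriv ?_
  rw [lin_apply]
  refine Prod.ext_iff.2 ⟨?_, rfl⟩
  simp only [zero_smul, add_zero, Real.sin_zero, Real.cos_zero, neg_zero, zero_mul, one_mul,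
    one_smul]
  abel

/-- relative periodic points with nearby rotation angles -/
theorem exists_near (s : Sit m x c σ S d R F) (hn : 2 ≤ n) (hm : ∀ a, 0 < m a) (hne : ¬ IsRelEq x)
    (hnd : NonDeg m x c σ S) {W : Set (Ph n)} (hW : W ∈ 𝓝 (x 0)) :
    ∀ᶠ θ : ℝ in 𝓝 0, ∃ z ∈ W, z ∈ com m ∧ (∀ t ∈ Set.Icc 0 S, F t z ∈ good d R) ∧
      F S z = rot (Complex.exp (θ * I) * c) σ z := by
  obtain ⟨e, he, j, hj, ⟨hEe, hEj, hJe, hJj⟩, hsurj⟩ := s.lin_surj hn hm hne hnd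
  set P0 : (Ph n × ℝ × ℝ) × ℝ := ((x 0, 0, 0), 0) with hP0
  have hcd := s.contDiff_phi e j
  have hst : HasStrictFDerivAt (phi m c σ S F e j) (fderiv ℝ (phi m c σ S F e j) P0) P0 :=
    hcd.contDiffAt.hasStrictFDerivAt (by simp)
  have hval : phi m c σ S F e j P0 = (0, 0) := by
    simp only [hP0, phi]
    rw [cmp_of_mem (s.com0 0), s.Fx, s.xS]
    simp
  have hrange : LinearMap.range (fderiv ℝ (phi m c σ S F e j) P0).toLinearMap = ⊤ := by
    rw [LinearMap.range_eq_top]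
    rintro ⟨w, τ⟩
    obtain ⟨v, a, b, hv⟩ := hsurj (w + τ • rot (I * c) σ (x 0))
    refine ⟨((v, a, b), τ), ?_⟩
    have h1 := s.hasDerivAt_phi e j v a b τ
    have h0 : HasDerivAt (fun r : ℝ => P0 + r • (((v, a, b), τ) : (Ph n × ℝ × ℝ) × ℝ))
        ((v, a, b), τ) 0 := by
      have h := ((hasDerivAt_id (0 : ℝ)).smul_const (((v, a, b), τ) : (Ph n × ℝ × ℝ) × ℝ)).const_add P0
      rw [one_smul] at h
      exact h
    have h2 : HasFDerivAt (phi m c σ S F e j) (fderiv ℝ (phi m c σ S F e j) P0)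
        (P0 + (0 : ℝ) • (((v, a, b), τ) : (Ph n × ℝ × ℝ) × ℝ)) := by
      rw [zero_smul, add_zero]; exact hst.hasFDerivAt
    have h2' : HasDerivAt (fun r : ℝ => phi m c σ S F e j
        (P0 + r • (((v, a, b), τ) : (Ph n × ℝ × ℝ) × ℝ)))
        (fderiv ℝ (phi m c σ S F e j) P0 (((v, a, b), τ) : (Ph n × ℝ × ℝ) × ℝ)) 0 :=
      HasFDerivAt.comp_hasDerivAt (l := phi m c σ S F e j)
        (f := fun r : ℝ => P0 + r • (((v, a, b), τ) : (Ph n × ℝ × ℝ) × ℝ)) (0 : ℝ) h2 h0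
    have h3 := h2'.unique h1
    refine Eq.trans h3 ?_
    refine Prod.ext_iff.2 ⟨?_, rfl⟩
    have h4 : lin m x c σ S F v - τ • rot (I * c) σ (x 0) + a • e + b • j =
      (lin m x c σ S F v + a • e + b • j) - τ • rot (I * c) σ (x 0) := by abel
    simp only
    rw [h4, hv, add_sub_cancel_right]
  have hmap := hst.map_nhds_eq_of_surj hrange
  rw [hval] at hmap
  -- strict differentiability of energy and angular momentum
  have hE : HasStrictFDerivAt (energy m) (fderiv ℝ (energy m) (x S)) (x S) :=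
    (contDiffAt_energy (s.hx.mem S).1).hasStrictFDerivAt (by simp)
  have hJ : HasStrictFDerivAt (ang m) (fderiv ℝ (ang m) (x S)) (x S) :=
    (contDiff_ang (m := m)).contDiffAt.hasStrictFDerivAt (by simp)
  obtain ⟨ε, hε, hε2⟩ : ∃ ε : ℝ, 0 < ε ∧ ε * (2 * (‖e‖ + ‖j‖)) < 1 := by
    refine ⟨(2 * (‖e‖ + ‖j‖) + 1)⁻¹, by positivity, ?_⟩
    rw [inv_mul_lt_iff₀ (by positivity)]
    linarith
  have hE2 := hE.isLittleO.def hε
  have hJ2 := hJ.isLittleO.def hε
  set G : (Ph n × ℝ × ℝ) × ℝ → Ph n × Ph n := fun p =>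
    ((Real.cos p.2 • rot c σ p.1.1 + Real.sin p.2 • rot (I * c) σ p.1.1) -
      (p.1.2.1 • e + p.1.2.2 • j),
      Real.cos p.2 • rot c σ p.1.1 + Real.sin p.2 • rot (I * c) σ p.1.1) with hG
  have hGc : Continuous G := by
    have h3 : Continuous (fun p : (Ph n × ℝ × ℝ) × ℝ => rot c σ p.1.1) :=
      (rot c σ).continuous.comp (continuous_fst.comp continuous_fst)
    have h4 : Continuous (fun p : (Ph n × ℝ × ℝ) × ℝ => rot (I * c) σ p.1.1) :=
      (rot (I * c) σ).continuous.comp (continuous_fst.comp continuous_fst)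
    have h5 : Continuous (fun p : (Ph n × ℝ × ℝ) × ℝ => Real.cos p.2) :=
      Real.continuous_cos.comp continuous_snd
    have h6 : Continuous (fun p : (Ph n × ℝ × ℝ) × ℝ => Real.sin p.2) :=
      Real.continuous_sin.comp continuous_snd
    have h7 := (h5.smul h3).add (h6.smul h4)
    refine (h7.sub (Continuous.add ?_ ?_)).prodMk h7
    · exact (continuous_fst.comp (continuous_snd.comp continuous_fst)).smul continuous_const
    · exact (continuous_snd.comp (continuous_snd.comp continuous_fst)).smul continuous_const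
  have hG0 : G P0 = (x S, x S) := by
    simp only [hG, hP0]
    rw [s.xS]
    simp
  have hGt : Tendsto G (𝓝 P0) (𝓝 (x S, x S)) := by
    rw [← hG0]; exact hGc.continuousAt
  have hev : ∀ᶠ p in 𝓝 P0, p.1.1 ∈ W ∧ (∀ t ∈ Set.Icc 0 S, F t p.1.1 ∈ good d R) ∧
      ‖energy m (G p).1 - energy m (G p).2 - fderiv ℝ (energy m) (x S) ((G p).1 - (G p).2)‖ ≤
        ε * ‖(G p).1 - (G p).2‖ ∧
      ‖ang m (G p).1 - ang m (G p).2 - fderiv ℝ (ang m) (x S) ((G p).1 - (G p).2)‖ ≤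
        ε * ‖(G p).1 - (G p).2‖ := by
    have h1 : Tendsto (fun p : (Ph n × ℝ × ℝ) × ℝ => p.1.1) (𝓝 P0) (𝓝 (x 0)) :=
      (continuous_fst.comp continuous_fst).tendsto P0
    exact (h1.eventually_mem hW).and ((h1.eventually s.good_ev).and
      ((hGt.eventually hE2).and (hGt.eventually hJ2)))
  have himg : (phi m c σ S F e j) '' {p | p.1.1 ∈ W ∧ (∀ t ∈ Set.Icc 0 S, F t p.1.1 ∈ good d R) ∧
      ‖energy m (G p).1 - energy m (G p).2 - fderiv ℝ (energy m) (x S) ((G p).1 - (G p).2)‖ ≤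
        ε * ‖(G p).1 - (G p).2‖ ∧
      ‖ang m (G p).1 - ang m (G p).2 - fderiv ℝ (ang m) (x S) ((G p).1 - (G p).2)‖ ≤
        ε * ‖(G p).1 - (G p).2‖} ∈ 𝓝 ((0 : Ph n), (0 : ℝ)) := by
    rw [← hmap]
    exact image_mem_map hev
  have hθ : Tendsto (fun θ : ℝ => ((0 : Ph n), θ)) (𝓝 0) (𝓝 ((0 : Ph n), (0 : ℝ))) :=
    (continuous_const.prodMk continuous_id).tendsto 0
  filter_upwards [hθ.eventually_mem himg] with θ hmem
  obtain ⟨⟨⟨z, a, b⟩, θ'⟩, ⟨hzW, hzg, hE3, hJ3⟩, hphi⟩ := hmem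
  simp only [phi, Prod.mk.injEq] at hphi
  obtain ⟨hphi, rfl⟩ := hphi
  simp only [hG] at hE3 hJ3
  rw [rot_exp] at hphi hE3 hJ3
  have hc' : ‖Complex.exp (θ' * I) * c‖ = 1 := by rw [norm_mul, norm_expI, one_mul, s.hc]
  set c' := Complex.exp (θ' * I) * c with hc'def
  -- the centre of mass
  have hz1 : cmp m z ∈ com m := cmp_mem s.hM z
  have hz2 : F S (cmp m z) ∈ com m := flow_com s.hF hz1 S
  have hz3 := congrArg (cmp m) hphi
  rw [map_add, map_add, map_sub, map_add, map_smul, cmp_sub_cmp s.hM, smul_zero, add_zero, map_zero,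
    cmp_of_mem hz2, cmp_rot s.hσ, map_smul, map_smul, cmp_of_mem he, cmp_of_mem hj] at hz3
  have hz4 : (2 : ℝ) • (z - cmp m z) = rot c' σ (z - cmp m z) := by
    rw [map_sub, ← sub_eq_zero]
    have h5 : F S (cmp m z) = rot c' σ (cmp m z) - a • e - b • j := by
      rw [← sub_eq_zero, ← hz3]; abel
    rw [h5] at hphi
    rw [← hphi]
    abel
  have hz5 : cmp m z = z := (sub_eq_zero.1 (two_smul_zero hc' hz4)).symm
  have hzc : z ∈ com m := by rw [← hz5]; exact hz1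
  have hcl : F S z = rot c' σ z - (a • e + b • j) := by
    rw [hz5] at hphi
    rw [← sub_eq_zero, ← hphi]
    simp only [sub_self, smul_zero, add_zero]
    abel
  -- energy and angular momentum
  obtain ⟨hfE, hfJ⟩ := flow_energy s.hd s.hR s.hF s.hS.le hzg
  rw [hcl] at hfE hfJ
  rw [hfE, energy_rot hc' s.hσ] at hE3
  rw [hfJ, ang_rot hc' s.hσ] at hJ3
  have hdiff : rot c' σ z - (a • e + b • j) - rot c' σ z = - (a • e + b • j) := by abel
  rw [hdiff, map_neg, map_add, map_smul, map_smul, hEe, hEj, norm_neg] at hE3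
  rw [hdiff, map_neg, map_add, map_smul, map_smul, hJe, hJj, norm_neg] at hJ3
  simp only [sub_self, zero_sub, neg_neg, smul_eq_mul, mul_one, mul_zero, add_zero, zero_add,
    Real.norm_eq_abs] at hE3 hJ3
  have hab : ‖a • e + b • j‖ ≤ |a| * ‖e‖ + |b| * ‖j‖ := by
    refine (norm_add_le _ _).trans ?_
    rw [norm_smul, norm_smul, Real.norm_eq_abs, Real.norm_eq_abs]
  have hab2 : ‖a • e + b • j‖ ≤ (|a| + |b|) * (‖e‖ + ‖j‖) := by
    refine hab.trans ?_
    nlinarith [mul_nonneg (abs_nonneg a) (norm_nonneg j), mul_nonneg (abs_nonneg b) (norm_nonneg e)]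
  have hsum : |a| + |b| ≤ (ε * (2 * (‖e‖ + ‖j‖))) * (|a| + |b|) := by
    have h1 := mul_le_mul_of_nonneg_left hab2 hε.le
    nlinarith
  have hab0 : |a| + |b| = 0 := by
    by_contra hne0
    have hpos : 0 < |a| + |b| := lt_of_le_of_ne (by positivity) (Ne.symm hne0)
    nlinarith
  have ha : a = 0 := by
    have := abs_nonneg a
    have := abs_nonneg b
    exact abs_eq_zero.1 (by linarith)
  have hb : b = 0 := by
    have := abs_nonneg a
    have := abs_nonneg b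
    exact abs_eq_zero.1 (by linarith)
  refine ⟨z, hzW, hzc, hzg, ?_⟩
  rw [hcl, ha, hb, zero_smul, zero_smul, add_zero, sub_zero]

end Sit

theorem iter_rot {y : ℝ → Ph n} {c : ℂ} {σ : Equiv.Perm (Fin n)} {S : ℝ}
    (h : ∀ t, y (t + S) = rot c σ (y t)) (k : ℕ) (t : ℝ) :
    y (t + k * S) = rot (c ^ k) (σ ^ k) (y t) := by
  induction k with
  | zero =>
    simp only [CharP.cast_eq_zero, zero_mul, add_zero, pow_zero]
    ext a <;> simp
  | succ k ih =>
    have h1 : t + ((k + 1 : ℕ) : ℝ) * S = (t + k * S) + S := by push_cast; ring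
    rw [h1, h, ih, rot_comp, pow_succ', pow_succ]

theorem distPer_of {y : ℝ → Ph n} {c : ℂ} (hc : ‖c‖ = 1) {σ : Equiv.Perm (Fin n)} {S : ℝ}
    (h : ∀ t, y (t + S) = rot c σ (y t)) : DistPer y (orderOf σ * S) := by
  intro t a b
  rw [iter_rot h, pow_orderOf_eq_one]
  have : (rot (c ^ orderOf σ) 1 (y t)).1 a - (rot (c ^ orderOf σ) 1 (y t)).1 b =
      c ^ orderOf σ * ((y t).1 a - (y t).1 b) := by
    simp [mul_sub]
  rw [this, norm_mul, norm_pow, hc, one_pow, one_mul]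

theorem main (hn : 2 ≤ n) (hm : ∀ a, 0 < m a) {x : ℝ → Ph n} (hx : IsSol m Set.univ x) {c : ℂ}
    (hc : ‖c‖ = 1) {σ : Equiv.Perm (Fin n)} (hσ : ∀ a, m (σ a) = m a) {S : ℝ} (hS : 0 < S)
    (hper : ∀ t, x (t + S) = rot c σ (x t)) (hne : ¬ IsRelEq x) (hnd : NonDeg m x c σ S) :
    ¬ LyapunovStable m (Set.range x) := by
  intro hst
  have hM : (∑ b, (m b : ℂ)) ≠ 0 := by
    have h1 : 0 < ∑ b, m b := by
      have : Nonempty (Fin n) := ⟨⟨0, by omega⟩⟩
      exact Finset.sum_pos (fun a _ => hm a) Finset.univ_nonempty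
    rw [← Complex.ofReal_sum]
    exact Complex.ofReal_ne_zero.2 h1.ne'
  obtain ⟨d, R, hd, hR, hgood⟩ := exists_good hx hc hS hper
  obtain ⟨F, hF⟩ := exists_flow (contDiff_cvf (m := m) hd R) (hasCompactSupport_cvf d hR)
  have s : Sit m x c σ S d R F := ⟨hM, hx, hc, hσ, hS, hper, hd, hR, hgood, hF⟩
  have hk : 0 < orderOf σ := orderOf_pos σ
  have hkS : (0 : ℝ) < orderOf σ * S := by
    have : (0 : ℝ) < orderOf σ := by exact_mod_cast hk
    positivity
  rcases final hn hm hx hkS (distPer_of hc hper) hst with h | ⟨K, hK, _, U, hU, hxU, _, hlock⟩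
  · exact hne h
  have hUx : U ∈ 𝓝 (x 0) := hU.mem_nhds (hxU ⟨0, rfl⟩)
  set N : ℕ := 2 * K * orderOf σ with hN
  have hNpos : 0 < N := by positivity
  have hpow : ∀ᶠ θ : ℝ in 𝓝 0, (Complex.exp (θ * I) * c) ^ N = 1 := by
    filter_upwards [s.exists_near hn hm hne hnd hUx] with θ hθ
    obtain ⟨z, hzU, hzc, hzg, hzF⟩ := hθ
    have hc' : ‖Complex.exp (θ * I) * c‖ = 1 := by rw [norm_mul, norm_expI, one_mul, hc]
    obtain ⟨hy, hyper⟩ := sol_of_closed hd hR hF hS hzc hc' hσ hzg hzF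
    have h1 := hlock (fun t => F t z) hy (by simpa [hF.zero] using hzU) _ hkS
      (distPer_of hc' hyper) 0
    have h2 := iter_rot (y := fun t => F t z) hyper N 0
    have h3 : (0 : ℝ) + 2 * K * (orderOf σ * S) = 0 + N * S := by
      rw [hN]; push_cast; ring
    have h4 : σ ^ N = 1 := by
      rw [hN, mul_comm, pow_mul, pow_orderOf_eq_one, one_pow]
    rw [h3, h2, h4] at h1
    obtain ⟨a, ha⟩ := exists_ne_zero hn (hy.mem 0)
    have h5 := congrFun (congrArg Prod.fst h1) a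
    rw [rot_fst] at h5
    simp only [Equiv.Perm.coe_one, id_eq] at h5
    exact mul_right_cancel₀ ha (by rw [one_mul]; exact h5)
  have hc1 : c ^ N = 1 := by
    have := hpow.self_of_nhds
    simpa using this
  have hsmall : ∀ᶠ θ : ℝ in 𝓝 0, (N : ℝ) * θ < Real.pi := by
    have h1 : Continuous fun θ : ℝ => (N : ℝ) * θ := by fun_prop
    refine (h1.tendsto 0).eventually (gt_mem_nhds ?_)
    simpa using Real.pi_pos
  have h2 : ∃ᶠ θ : ℝ in 𝓝[>] 0, (Complex.exp (θ * I) * c) ^ N = 1 ∧ (N : ℝ) * θ < Real.pi ∧ 0 < θ := by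
    refine Eventually.frequently ?_
    filter_upwards [hpow.filter_mono nhdsWithin_le_nhds, hsmall.filter_mono nhdsWithin_le_nhds,
      self_mem_nhdsWithin] with θ h1 h2 h3
    exact ⟨h1, h2, h3⟩
  obtain ⟨θ, h3, h4, h5⟩ := h2.exists
  rw [mul_pow, hc1, mul_one, ← Complex.exp_nat_mul] at h3
  have h6 : ((N : ℂ) * (θ * I)) = ((N * θ : ℝ) : ℂ) * I := by push_cast; ring
  rw [h6] at h3
  have h7 := congrArg Complex.im h3
  rw [Complex.exp_ofReal_mul_I_im, Complex.one_im] at h7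
  have h8 : 0 < Real.sin (N * θ) := by
    have hN0 : (0 : ℝ) < N := by exact_mod_cast hNpos
    exact Real.sin_pos_of_pos_of_lt_pi (by positivity) h4
  linarith

end Pool.Agent.J6H86.NP
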