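import Pool.Agent.J6H86.NP.Crit

/-!
# Strict local minimisers of the action are not Lyapunov stable
-/

set_option autoImplicit false

open Complex Finset Filter Topology ComplexConjugate
open scoped ContDiff

namespace Pool.Agent.J6H86.NP

open Pool.Agent.W821.TB

variable {n : ℕ} {m : Fin n → ℝ} {d R : ℝ} {F : ℝ → Ph n → Ph n} {D S : ℝ}
variable {x : ℝ → Ph n} {c : ℂ} {σ : Equiv.Perm (Fin n)} {M : ℕ}

theorem compact_orbit {α : Type} [TopologicalSpace α] {Φ : ℂ → ℝ → α}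
    (hΦ : Continuous fun p : ℂ × ℝ => Φ p.1 p.2) {P : ℝ} (hP : 0 < P) {ν : ℂ} (hν : ‖ν‖ = 1)
    (h : ∀ w τ (a : ℤ), Φ w (τ + a * P) = Φ (w * ν ^ a) τ) :
    IsCompact {p | ∃ (w : ℂ) (τ : ℝ), ‖w‖ = 1 ∧ p = Φ w τ} := by
  have h1 : {p | ∃ (w : ℂ) (τ : ℝ), ‖w‖ = 1 ∧ p = Φ w τ} =
      (fun p : ℂ × ℝ => Φ p.1 p.2) '' (Metric.sphere (0 : ℂ) 1 ×ˢ Set.Icc 0 P) := by
    ext p
    constructor
    · rintro ⟨w, τ, hw, rfl⟩
      obtain ⟨e1, e2⟩ := floor_spec hP τ
      refine ⟨(w * ν ^ ⌊τ / P⌋, τ - ⌊τ / P⌋ * P), ⟨?_, ?_⟩, ?_⟩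
      · rw [mem_sphere_zero_iff_norm, norm_mul, hw, one_mul, norm_zpow_one hν]
      · exact ⟨by simp only; linarith, by simp only; linarith⟩
      · have := h w (τ - ⌊τ / P⌋ * P) ⌊τ / P⌋
        rw [sub_add_cancel] at this
        exact this.symm
    · rintro ⟨⟨w, τ⟩, ⟨hw, _⟩, rfl⟩
      exact ⟨w, τ, mem_sphere_zero_iff_norm.1 hw, rfl⟩
  rw [h1]
  exact ((isCompact_sphere _ _).prod isCompact_Icc).image hΦ

theorem Sit.x_period (s : Sit m x c σ S d R F) (a : ℤ) (t : ℝ) :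
    x (t + a * (orderOf σ * S)) = (c ^ orderOf σ) ^ a • x t := by
  have h1 := x_zshift s (a * orderOf σ) t
  have h2 : ((a * orderOf σ : ℤ) : ℝ) * S = a * (orderOf σ * S) := by push_cast; ring
  rw [h2] at h1
  have h3 : σ ^ (a * (orderOf σ : ℤ)) = 1 := by
    rw [mul_comm, zpow_mul, zpow_natCast, pow_orderOf_eq_one, one_zpow]
  rw [h1, h3, ← smul_eq_rot, mul_comm a, zpow_mul, zpow_natCast]

theorem Sit.period_pos (s : Sit m x c σ S d R F) : 0 < orderOf σ * S := by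
  have h1 : (0 : ℝ) < orderOf σ := by exact_mod_cast orderOf_pos σ
  have := s.hS
  positivity

theorem Sit.norm_pow (s : Sit m x c σ S d R F) : ‖c ^ orderOf σ‖ = 1 := by
  rw [_root_.norm_pow, s.hc, one_pow]

theorem Sit.compact₁ (s : Sit m x c σ S d R F) :
    IsCompact {p : Ph n | ∃ (w : ℂ) (τ : ℝ), ‖w‖ = 1 ∧ p = w • x τ} := by
  refine compact_orbit (Φ := fun w τ => w • x τ) ?_ s.period_pos s.norm_pow ?_
  · exact continuous_fst.smul (s.hx.continuous.comp continuous_snd)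
  · intro w τ a
    rw [s.x_period, smul_smul]

theorem Sit.compact₂ (s : Sit m x c σ S d R F) (M : ℕ) (D : ℝ) :
    IsCompact {p : Fin (M + 1) → Ph n | ∃ (w : ℂ) (τ : ℝ), ‖w‖ = 1 ∧
      p = fun k : Fin (M + 1) => w • x (k * D + τ)} := by
  refine compact_orbit (Φ := fun w τ => fun k : Fin (M + 1) => w • x (k * D + τ)) ?_
    s.period_pos s.norm_pow ?_
  · refine continuous_pi fun k => ?_
    exact continuous_fst.smul (s.hx.continuous.comp (continuous_const.add continuous_snd))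
  · intro w τ a
    funext k
    have h1 : (k : ℝ) * D + (τ + a * (orderOf σ * S)) = (k * D + τ) + a * (orderOf σ * S) := by ring
    rw [h1, s.x_period, smul_smul]

/-- segments which start near the orbit of `x` stay near it for the time `D` -/
theorem Sit.near (s : Sit m x c σ S d R F) {ρ : ℝ} (hρ : 0 < ρ) (D : ℝ) :
    ∃ δ : ℝ, 0 < δ ∧ ∀ (w : ℂ) (τ : ℝ), ‖w‖ = 1 → ∀ z : Ph n, dist z (w • x τ) ≤ δ →
      ∀ u ∈ Set.Icc 0 D, F u z ∈ good d R ∧ ‖F u z - w • x (τ + u)‖ ≤ ρ := by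
  have hgood : {p : Ph n | ∃ (w : ℂ) (τ : ℝ), ‖w‖ = 1 ∧ p = w • x τ} ⊆ good d R := by
    rintro _ ⟨w, τ, hw, rfl⟩
    rw [smul_eq_rot, good_rot hw]
    exact s.hgood τ
  obtain ⟨ε₁, hε₁, hthick⟩ := s.compact₁.exists_thickening_subset_open (isOpen_good d R) hgood
  set ε := min ε₁ ρ with hε
  have hεpos : 0 < ε := lt_min hε₁ hρ
  have hK : IsCompact (Set.Icc 0 D ×ˢ {p : Ph n | ∃ (w : ℂ) (τ : ℝ), ‖w‖ = 1 ∧ p = w • x τ}) :=
    isCompact_Icc.prod s.compact₁
  have h1 := hK.uniformContinuousAt_of_continuousAt (fun p : ℝ × Ph n => F p.1 p.2)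
    (fun p _ => s.hF.cont.continuousAt) (Metric.dist_mem_uniformity hεpos)
  obtain ⟨δ, hδ, h2⟩ := Metric.mem_uniformity_dist.1 h1
  refine ⟨δ / 2, by positivity, fun w τ hw z hz u hu => ?_⟩
  have h3 : dist (u, w • x τ) (u, z) < δ := by
    rw [Prod.dist_eq, dist_self, dist_comm (w • x τ) z, max_eq_right dist_nonneg]
    linarith
  have h4 := h2 h3
  simp only [Set.mem_ofPred_eq] at h4
  have h5 := h4 ⟨hu, w, τ, hw, rfl⟩
  rw [s.Fwx hw, dist_comm, add_comm u τ] at h5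
  constructor
  · apply hthick
    rw [Metric.mem_thickening_iff]
    exact ⟨w • x (τ + u), ⟨w, τ + u, hw, rfl⟩, h5.trans_le (min_le_left _ _)⟩
  · rw [← dist_eq_norm]
    exact (h5.trans_le (min_le_right _ _)).le

theorem actn_continuousAt (hd : 0 < d) (hF : IsFl (cvf m d R) F) {z : Ph n}
    (hz : z ∈ good d R) : ContinuousAt (actn m F D) z := by
  have hgv : Continuous (gv m) := by
    unfold gv ip
    fun_prop
  have h1 : ContinuousAt (fun z => gv m (F D z)) z :=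
    (hgv.comp (hF.smooth_at D).continuous).continuousAt
  have h2 : ContinuousAt (energy m) z := (contDiffAt_energy (good_col hd hz)).continuousAt
  unfold actn
  exact ((h1.sub hgv.continuousAt).const_mul 2).sub (h2.const_mul _)

theorem nxt_cont (σ : Equiv.Perm (Fin n)) (k : Fin (M + 1)) :
    Continuous fun p : ℂ × (Fin (M + 1) → Ph n) => (nxt p.1 σ p.2 k).1 := by
  by_cases hk : k = Fin.last M
  · have : (fun p : ℂ × (Fin (M + 1) → Ph n) => (nxt p.1 σ p.2 k).1) =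
        fun p => fun a => p.1 * (p.2 0).1 (σ a) := by
      funext p a
      simp only [nxt, if_pos hk, rot_fst]
    rw [this]
    fun_prop
  · have : (fun p : ℂ × (Fin (M + 1) → Ph n) => (nxt p.1 σ p.2 k).1) =
        fun p => (p.2 (k + 1)).1 := by
      funext p
      simp only [nxt, if_neg hk]
    rw [this]
    fun_prop

/-- the limit argument -/
theorem abstract_min {α : Type} [MetricSpace α] {K : Set α} (hK : IsCompact K) {A : α → ℝ}
    (hA : ∀ z ∈ K, ContinuousAt A z) {C : ℝ → Set α} (hC : ∀ θ, IsClosed (C θ))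
    (hlim : ∀ (θs : ℕ → ℝ) (zs : ℕ → α) (zl : α), Tendsto θs atTop (𝓝 0) →
      Tendsto zs atTop (𝓝 zl) → (∀ i, zs i ∈ C (θs i)) → zl ∈ C 0)
    {zf : ℝ → α} {zx : α} (hzx : zx ∈ K) (hzf : Tendsto zf (𝓝 0) (𝓝 zx))
    (hf1 : ∀ᶠ θ in 𝓝 0, zf θ ∈ K ∩ C θ) {P : ℝ → Prop}
    (hP : ∀ zl ∈ K, zl ∈ C 0 → A zl ≤ A zx → ∀ᶠ p : α × ℝ in 𝓝 (zl, 0),
      p.1 ∈ K ∩ C p.2 → IsMinOn A (K ∩ C p.2) p.1 → P p.2) : ∀ᶠ θ in 𝓝 0, P θ := by
  by_contra hcon
  rw [not_eventually] at hcon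
  obtain ⟨θs, hθs, hθp⟩ := exists_seq_forall_of_frequently (hcon.and_eventually hf1)
  have hmins : ∀ i : ℕ, ∃ z ∈ K ∩ C (θs i), IsMinOn A (K ∩ C (θs i)) z := by
    intro i
    refine (hK.inter_right (hC (θs i))).exists_isMinOn ⟨zf (θs i), (hθp i).2⟩ ?_
    intro z hz
    exact (hA z hz.1).continuousWithinAt
  choose zs hzs hzsmin using hmins
  obtain ⟨zl, hzlK, φ, hφ, hlimφ⟩ := hK.tendsto_subseq fun i => (hzs i).1
  have hθφ : Tendsto (θs ∘ φ) atTop (𝓝 0) := hθs.comp hφ.tendsto_atTop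
  have hzlC : zl ∈ C 0 := hlim (θs ∘ φ) (zs ∘ φ) zl hθφ hlimφ fun i => (hzs (φ i)).2
  have hAle : A zl ≤ A zx := by
    have h1 : Tendsto (fun i => A (zs (φ i))) atTop (𝓝 (A zl)) := (hA zl hzlK).tendsto.comp hlimφ
    have h2 : Tendsto (fun i => A (zf (θs (φ i)))) atTop (𝓝 (A zx)) :=
      (hA zx hzx).tendsto.comp (hzf.comp hθφ)
    refine le_of_tendsto_of_tendsto' h1 h2 fun i => ?_
    exact hzsmin (φ i) (hθp (φ i)).2
  have h3 : Tendsto (fun i => (zs (φ i), θs (φ i))) atTop (𝓝 (zl, 0)) := hlimφ.prodMk_nhds hθφ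
  obtain ⟨i, hi⟩ := (h3.eventually (hP zl hzlK hzlC hAle)).exists
  exact (hθp (φ i)).1 (hi (hzs (φ i)) (hzsmin (φ i)))

/-- the total action -/
noncomputable def tot (m : Fin n → ℝ) (F : ℝ → Ph n → Ph n) (D : ℝ) (z : Fin (M + 1) → Ph n) : ℝ :=
  ∑ k, actn m F D (z k)

/-- the broken solutions with the twist `c` -/
def feas (m : Fin n → ℝ) (F : ℝ → Ph n → Ph n) (D : ℝ) (σ : Equiv.Perm (Fin n)) (M : ℕ)
    (c : ℂ) : Set (Fin (M + 1) → Ph n) :=
  {z | (∀ k, z k ∈ com m) ∧ Joint F D c σ z}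

/-- the configurations coming from `x` -/
def orb (x : ℝ → Ph n) (M : ℕ) (D : ℝ) : Set (Fin (M + 1) → Ph n) :=
  {p | ∃ (w : ℂ) (τ : ℝ), ‖w‖ = 1 ∧ p = fun k : Fin (M + 1) => w • x (k * D + τ)}

theorem tot_cont (hd : 0 < d) (hF : IsFl (cvf m d R) F) {z : Fin (M + 1) → Ph n}
    (hz : ∀ k, z k ∈ good d R) : ContinuousAt (tot m F D) z := by
  refine tendsto_finsetSum _ fun k _ => ?_
  have h1 : ContinuousAt (fun z : Fin (M + 1) → Ph n => z k) z := (continuous_apply k).continuousAt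
  exact ContinuousAt.comp (g := actn m F D) (f := fun z : Fin (M + 1) → Ph n => z k)
    (actn_continuousAt hd hF (hz k)) h1

theorem com_closed : IsClosed (com m : Set (Ph n)) := (com m).closed_of_finiteDimensional

theorem fst_flow_cont (hF : IsFl (cvf m d R) F) (D : ℝ) (k : Fin (M + 1)) :
    Continuous fun z : Fin (M + 1) → Ph n => (F D (z k)).1 :=
  (((hF.smooth_at D).continuous).comp (continuous_apply k)).fst

theorem feas_closed (hF : IsFl (cvf m d R) F) (D : ℝ) (c : ℂ) :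
    IsClosed (feas m F D σ M c) := by
  have h1 : feas m F D σ M c =
      (⋂ k, {z : Fin (M + 1) → Ph n | z k ∈ (com m : Set (Ph n))}) ∩
      ⋂ k, {z : Fin (M + 1) → Ph n | (F D (z k)).1 = (nxt c σ z k).1} := by
    ext z
    simp only [feas, Joint, Set.mem_inter_iff, Set.mem_iInter]
    rfl
  rw [h1]
  refine IsClosed.inter (isClosed_iInter fun k => com_closed.preimage (continuous_apply k))
    (isClosed_iInter fun k => isClosed_eq (fst_flow_cont hF D k) ?_)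
  exact (nxt_cont σ k).comp (continuous_const.prodMk continuous_id)

theorem feas_limit (hF : IsFl (cvf m d R) F) (D : ℝ) {cs : ℕ → ℂ} {zs : ℕ → Fin (M + 1) → Ph n}
    {zl : Fin (M + 1) → Ph n} (hcs : Tendsto cs atTop (𝓝 c)) (hzs : Tendsto zs atTop (𝓝 zl))
    (h : ∀ i, zs i ∈ feas m F D σ M (cs i)) : zl ∈ feas m F D σ M c := by
  refine ⟨fun k => ?_, fun k => ?_⟩
  · have h1 : Tendsto (fun i => (zs i) k) atTop (𝓝 (zl k)) :=
      ((continuous_apply k).tendsto zl).comp hzs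
    exact com_closed.mem_of_tendsto h1 (Eventually.of_forall fun i => (h i).1 k)
  · have h1 : Tendsto (fun i => (F D (zs i k)).1) atTop (𝓝 (F D (zl k)).1) :=
      ((fst_flow_cont hF D k).tendsto zl).comp hzs
    have h2 : Tendsto (fun i => (nxt (cs i) σ (zs i) k).1) atTop (𝓝 (nxt c σ zl k).1) := by
      have h3 : Tendsto (fun i => (cs i, zs i)) atTop (𝓝 (c, zl)) := hcs.prodMk_nhds hzs
      have h4 := (nxt_cont (M := M) σ k).tendsto (c, zl)
      exact h4.comp h3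
    have h3 : (fun i => (F D (zs i k)).1) = fun i => (nxt (cs i) σ (zs i) k).1 := by
      funext i
      exact (h i).2 k
    rw [h3] at h1
    exact tendsto_nhds_unique h1 h2

/-- broken solutions with nearby twists, close to `x` -/
theorem Sit.exists_feas (s : Sit m x c σ S d R F) (hD : 0 < D) (hN : ((M + 1 : ℕ) : ℝ) * D = S)
    (hDs : ∀ z : Ph n, (∀ s ∈ Set.Icc 0 D, F s z ∈ good d R) → ∀ w : Fin n → ℂ,
      (fderiv ℝ (F D) z (0, w)).1 = 0 → w = 0) (hM : 0 < M) {cc : ℝ → ℂ} (hcc : Continuous cc)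
    (hcc0 : cc 0 = c) :
    ∃ zf : ℝ → Fin (M + 1) → Ph n,
      Tendsto zf (𝓝 0) (𝓝 (fun k : Fin (M + 1) => x (k * D))) ∧
      ∀ᶠ θ in 𝓝 (0 : ℝ), zf θ ∈ feas m F D σ M (cc θ) := by
  have hlast0 : (0 : Fin (M + 1)) ≠ Fin.last M := by
    intro h
    have := congrArg Fin.val h
    simp at this
    omega
  obtain ⟨zx, hzx⟩ : ∃ zx : Fin (M + 1) → Ph n, zx = fun k : Fin (M + 1) => x (k * D) := ⟨_, rfl⟩
  have hzxk : ∀ k : Fin (M + 1), zx k = x (k * D) := fun k => by rw [hzx]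
  rw [← hzx]
  have hgd : ∀ u ∈ Set.Icc 0 D, F u (zx (Fin.last M)) ∈ good d R := by
    intro u _
    rw [hzxk, s.Fxu]
    exact s.hgood _
  obtain ⟨g, g', hg1, hg2, _, hg4⟩ := exists_inv s.hd s.hR s.hF hD hDs hgd
  have hxMD : F D (zx (Fin.last M)) = rot c σ (x 0) := by
    rw [hzxk, s.Fxu, ← s.xS]
    congr 1
    rw [← hN]
    simp
    ring
  obtain ⟨pp, hpp⟩ : ∃ pp : ℝ → Ph n, pp = fun θ => ((zx (Fin.last M)).1, (rot (cc θ) σ (x 0)).1) :=
    ⟨_, rfl⟩
  have hppk : ∀ θ, pp θ = ((zx (Fin.last M)).1, (rot (cc θ) σ (x 0)).1) := fun θ => by rw [hpp]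
  have hppc : Continuous pp := by
    rw [hpp]
    refine continuous_const.prodMk ?_
    have : (fun θ => (rot (cc θ) σ (x 0)).1) = fun θ => fun a => cc θ * (x 0).1 (σ a) := by
      funext θ a; rfl
    rw [this]
    fun_prop
  have hppt : Tendsto pp (𝓝 0) (𝓝 ((zx (Fin.last M)).1, (F D (zx (Fin.last M))).1)) := by
    have := hppc.tendsto 0
    rwa [hppk 0, hcc0, ← hxMD] at this
  refine ⟨fun θ => Function.update zx (Fin.last M) (g (pp θ)), ?_, ?_⟩
  · have h1 : Tendsto (fun θ => g (pp θ)) (𝓝 0) (𝓝 (zx (Fin.last M))) := by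
      have h2 := hg1.continuousAt.tendsto
      rw [hg2] at h2
      exact h2.comp hppt
    have h2 := (tendsto_const_nhds (x := zx)).update (Fin.last M) h1
    rwa [Function.update_eq_self] at h2
  · filter_upwards [hppt.eventually hg4] with θ hθ
    have hcomp : pp θ ∈ com m := by
      rw [hppk, hzxk]
      exact ⟨(s.com0 _).1, (rot_mem s.hσ (s.com0 0)).1⟩
    refine ⟨fun k => ?_, fun k => ?_⟩
    · by_cases hk : k = Fin.last M
      · rw [hk, Function.update_self]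
        exact hθ.2.2.2 hcomp
      · rw [Function.update_of_ne hk, hzxk]
        exact s.com0 _
    · by_cases hk : k = Fin.last M
      · have h0 : zx 0 = x 0 := by rw [hzxk]; simp
        rw [hk, Function.update_self, hθ.2.1, nxt, if_pos rfl, Function.update_of_ne hlast0, hppk,
          h0]
      · rw [Function.update_of_ne hk, nxt, if_neg hk]
        have h5 : ((k + 1 : Fin (M + 1)) : ℕ) = (k : ℕ) + 1 :=
          Fin.val_add_one_of_lt (Fin.lt_last_iff_ne_last.2 hk)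
        have h6 : F D (zx k) = zx (k + 1) := by
          rw [hzxk, hzxk, s.Fxu, h5]
          congr 1
          push_cast
          ring
        by_cases hk1 : k + 1 = Fin.last M
        · rw [hk1, Function.update_self, hθ.1, h6, hk1, hppk]
        · rw [Function.update_of_ne hk1, h6]

/-- relative periodic points with nearby rotation angles, near a strict local minimiser -/
theorem Sit.exists_near_min (s : Sit m x c σ S d R F) (hm : ∀ a, 0 < m a) {ρ : ℝ} (hρ : 0 < ρ)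
    (hmin : MinWith m x c σ S ρ) {U : Set (Ph n)} (hU : IsOpen U) (hxU : Set.range x ⊆ U) :
    ∀ᶠ θ : ℝ in 𝓝 0, ∃ z ∈ U, z ∈ com m ∧ (∀ t ∈ Set.Icc 0 S, F t z ∈ good d R) ∧
      F S z = rot (Complex.exp (θ * I) * c) σ z := by
  -- the number of segments
  obtain ⟨D₀, hD₀, hsmall⟩ := exists_small s.hd s.hR s.hF
  obtain ⟨M, hM1⟩ := exists_nat_gt (max (S / D₀) 1)
  have hM0 : 0 < M := by
    have : (1 : ℝ) < M := (le_max_right _ _).trans_lt hM1
    exact_mod_cast (zero_lt_one.trans this)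
  have hMS : S / D₀ < M := (le_max_left _ _).trans_lt hM1
  have hMpos : (0 : ℝ) < ((M + 1 : ℕ) : ℝ) := by positivity
  obtain ⟨D, hDdef⟩ : ∃ D : ℝ, D = S / (M + 1 : ℕ) := ⟨_, rfl⟩
  have hD : 0 < D := by rw [hDdef]; exact div_pos s.hS hMpos
  have hDle : D ≤ D₀ := by
    rw [hDdef, div_le_iff₀ hMpos]
    rw [div_lt_iff₀ hD₀] at hMS
    push_cast
    nlinarith
  have hN : ((M + 1 : ℕ) : ℝ) * D = S := by
    rw [hDdef]; field_simp
  have hDs := hsmall D hD hDle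
  -- the neighbourhood
  obtain ⟨δ, hδ, hnear⟩ := s.near hρ D
  have hΓc : IsCompact (orb x M D) := s.compact₂ M D
  obtain ⟨K, hK⟩ : ∃ K : Set (Fin (M + 1) → Ph n), K = Metric.cthickening δ (orb x M D) := ⟨_, rfl⟩
  have hKc : IsCompact K := by
    rw [hK]
    exact Metric.isCompact_of_isClosed_isBounded Metric.isClosed_cthickening
      hΓc.isBounded.cthickening
  have hKmem : ∀ z, z ∈ K ↔ ∃ p ∈ orb x M D, dist z p ≤ δ := by
    intro z
    rw [hK, hΓc.cthickening_eq_biUnion_closedBall hδ.le]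
    simp only [Set.mem_iUnion, Metric.mem_closedBall, exists_prop]
  have hKnear : ∀ z ∈ K, ∃ (w : ℂ) (τ : ℝ), ‖w‖ = 1 ∧ ∀ k : Fin (M + 1), ∀ u ∈ Set.Icc 0 D,
      F u (z k) ∈ good d R ∧ ‖F u (z k) - w • x (k * D + u + τ)‖ ≤ ρ := by
    intro z hz
    obtain ⟨p, ⟨w, τ, hw, rfl⟩, hp⟩ := (hKmem z).1 hz
    refine ⟨w, τ, hw, fun k u hu => ?_⟩
    have h1 : dist (z k) (w • x (k * D + τ)) ≤ δ := (dist_le_pi_dist z _ k).trans hp
    have h2 := hnear w (k * D + τ) hw (z k) h1 u hu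
    have h3 : (k : ℝ) * D + τ + u = k * D + u + τ := by ring
    rw [h3] at h2
    exact h2
  have hKgood : ∀ z ∈ K, ∀ k : Fin (M + 1), ∀ u ∈ Set.Icc 0 D, F u (z k) ∈ good d R := by
    intro z hz k u hu
    obtain ⟨w, τ, _, h⟩ := hKnear z hz
    exact (h k u hu).1
  have hKgood0 : ∀ z ∈ K, ∀ k : Fin (M + 1), z k ∈ good d R := by
    intro z hz k
    have := hKgood z hz k 0 ⟨le_rfl, hD.le⟩
    rwa [s.hF.zero] at this
  -- the twist
  obtain ⟨cc, hcc⟩ : ∃ cc : ℝ → ℂ, cc = fun θ : ℝ => Complex.exp (θ * I) * c := ⟨_, rfl⟩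
  have hccθ : ∀ θ : ℝ, cc θ = Complex.exp (θ * I) * c := fun θ => by rw [hcc]
  have hccc : Continuous cc := by rw [hcc]; fun_prop
  have hcc0 : cc 0 = c := by simp [hcc]
  have hcc1 : ∀ θ, ‖cc θ‖ = 1 := fun θ => by rw [hccθ, norm_mul, norm_expI, one_mul, s.hc]
  have hzxΓ : (fun k : Fin (M + 1) => x (k * D)) ∈ orb x M D := ⟨1, 0, by simp, by simp⟩
  have hzxK : (fun k : Fin (M + 1) => x (k * D)) ∈ K := (hKmem _).2 ⟨_, hzxΓ, by simp [hδ.le]⟩
  obtain ⟨zf, hzft, hfeas⟩ := s.exists_feas hD hN hDs hM0 hccc hcc0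
  have hKint : ∀ᶠ z in 𝓝 (fun k : Fin (M + 1) => x (k * D)), z ∈ K := by
    filter_upwards [Metric.ball_mem_nhds _ hδ] with z hz
    exact (hKmem z).2 ⟨_, hzxΓ, (Metric.mem_ball.1 hz).le⟩
  have hgoal : ∀ᶠ θ : ℝ in 𝓝 0, ∃ z ∈ U, z ∈ com m ∧ (∀ t ∈ Set.Icc 0 S, F t z ∈ good d R) ∧
      F S z = rot (cc θ) σ z := by
    refine abstract_min (K := K) hKc (A := tot m F D) (fun z hz => tot_cont s.hd s.hF (hKgood0 z hz))
      (C := fun θ => feas m F D σ M (cc θ)) (fun θ => feas_closed s.hF D (cc θ)) ?_ hzxK hzft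
      ((hzft.eventually hKint).and hfeas) ?_
    · intro θs zs zl h1 h2 h3
      have h4 : Tendsto (fun i => cc (θs i)) atTop (𝓝 (cc 0)) := (hccc.tendsto 0).comp h1
      exact feas_limit s.hF D h4 h2 h3
    · intro zl hzlK hzlC hzlA
      rw [hcc0] at hzlC
      obtain ⟨w, τ, hw, hwnear⟩ := hKnear zl hzlK
      have hstrict := strict_fin s hD hN hzlC.2 (hKgood zl hzlK) hzlC.1 hw
        (fun k u hu => (hwnear k u hu).2) hmin
      rcases hstrict with h | ⟨w', τ', hw', h⟩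
      · exact absurd hzlA (not_le.2 h)
      have hzlΓ : zl ∈ orb x M D := ⟨w', τ', hw', funext h⟩
      have hw'0 : w' ≠ 0 := by rintro rfl; simp at hw'
      have hwi : ‖w'⁻¹‖ = 1 := by rw [norm_inv, hw', inv_one]
      have hcomm : ∀ (v : Ph n) (t : ℝ), F t (w'⁻¹ • v) = w'⁻¹ • F t v := by
        intro v t
        rw [smul_eq_rot, s.hF.comm (rot w'⁻¹ 1) (cvf_rot hwi 1 (fun _ => rfl) d R), smul_eq_rot]
      have hfst : Tendsto (fun p : (Fin (M + 1) → Ph n) × ℝ => p.1) (𝓝 (zl, 0)) (𝓝 zl) :=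
        continuous_fst.tendsto (zl, (0 : ℝ))
      have hUev : ∀ᶠ z in 𝓝 zl, w'⁻¹ • (z 0) ∈ U := by
        have h1 : Continuous fun z : Fin (M + 1) → Ph n => w'⁻¹ • (z 0) :=
          (continuous_apply 0).const_smul w'⁻¹
        have h2 : w'⁻¹ • zl 0 = x τ' := by
          rw [h 0, smul_smul, inv_mul_cancel₀ hw'0, one_smul]
          simp
        refine (h1.tendsto zl).eventually (hU.mem_nhds ?_)
        rw [h2]
        exact hxU ⟨τ', rfl⟩
      filter_upwards [hfst.eventually (Metric.ball_mem_nhds zl hδ), hfst.eventually hUev]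
        with p hp1 hp2 hp3 hp4
      obtain ⟨z, θ⟩ := p
      simp only at hp1 hp2 hp3 hp4 ⊢
      have hzK : z ∈ K := hp3.1
      have hsol : ∀ k, F D (z k) = nxt (cc θ) σ z k := by
        refine crit hm s.hd s.hR s.hF hD hDs hM0 (hcc1 θ) s.hσ (hKgood z hzK) hp3.2.1 hp3.2.2 ?_
        filter_upwards [Metric.isOpen_ball.mem_nhds hp1] with z' hz' h1 h2
        have h3 : z' ∈ K := (hKmem z').2 ⟨zl, hzlΓ, (Metric.mem_ball.1 hz').le⟩
        exact hp4 ⟨h3, h1, h2⟩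
      obtain ⟨hcl, hclg⟩ := closed_of_joint s.hF hD (hKgood z hzK) hsol
      rw [hN] at hcl hclg
      refine ⟨w'⁻¹ • z 0, hp2, ?_, ?_, ?_⟩
      · rw [smul_eq_rot]
        exact rot_mem (fun _ => rfl) (hp3.2.1 0)
      · intro t ht
        rw [hcomm, smul_eq_rot, good_rot hwi]
        exact hclg t ht
      · rw [hcomm, hcl]
        ext a <;> simp [mul_left_comm]
  simpa only [hccθ] using hgoal

/-- a solution near which there are relative periodic solutions with all close rotation angles is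
not stable -/
theorem not_stable_of_near (s : Sit m x c σ S d R F) (hn : 2 ≤ n) (hm : ∀ a, 0 < m a)
    (hne : ¬ IsRelEq x)
    (hnear : ∀ U : Set (Ph n), IsOpen U → Set.range x ⊆ U → ∀ᶠ θ : ℝ in 𝓝 0, ∃ z ∈ U, z ∈ com m ∧
      (∀ t ∈ Set.Icc 0 S, F t z ∈ good d R) ∧ F S z = rot (Complex.exp (θ * I) * c) σ z) :
    ¬ LyapunovStable m (Set.range x) := by
  intro hst
  obtain ⟨hM, hx, hc, hσ, hS, hper, hd, hR, hgood, hF⟩ := s
  have hk : 0 < orderOf σ := orderOf_pos σ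
  have hkS : (0 : ℝ) < orderOf σ * S := by
    have : (0 : ℝ) < orderOf σ := by exact_mod_cast hk
    positivity
  rcases final hn hm hx hkS (distPer_of hc hper) hst with h | ⟨K, hK, _, U, hU, hxU, _, hlock⟩
  · exact hne h
  set N : ℕ := 2 * K * orderOf σ with hN
  have hNpos : 0 < N := by positivity
  have hpow : ∀ᶠ θ : ℝ in 𝓝 0, (Complex.exp (θ * I) * c) ^ N = 1 := by
    filter_upwards [hnear U hU hxU] with θ hθ
    obtain ⟨z, hzU, hzc, hzg, hzF⟩ := hθ
    have hc' : ‖Complex.exp (θ * I) * c‖ = 1 := by rw [norm_mul, norm_expI, one_mul, hc]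
    obtain ⟨hy, hyper⟩ := sol_of_closed hd hR hF hS hzc hc' hσ hzg hzF
    have h1 := hlock (fun t => F t z) hy (by simpa [hF.zero] using hzU) _ hkS
      (distPer_of hc' hyper) 0
    have h2 := iter_rot (y := fun t => F t z) hyper N 0
    have h3 : (0 : ℝ) + 2 * K * (orderOf σ * S) = 0 + N * S := by
      rw [hN]; push_cast; ring
    have h4 : σ ^ N = 1 := by
      rw [hN, mul_comm, pow_mul, pow_orderOf_eq_one, one_pow]
    rw [h3, h2, h4] at h1
    obtain ⟨a, ha⟩ := exists_ne_zero hn (hy.mem 0)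
    have h5 := congrFun (congrArg Prod.fst h1) a
    rw [rot_fst] at h5
    simp only [Equiv.Perm.coe_one, id_eq] at h5
    exact mul_right_cancel₀ ha (by rw [one_mul]; exact h5)
  have hc1 : c ^ N = 1 := by
    have := hpow.self_of_nhds
    simpa using this
  have hsmall : ∀ᶠ θ : ℝ in 𝓝 0, (N : ℝ) * θ < Real.pi := by
    have h1 : Continuous fun θ : ℝ => (N : ℝ) * θ := by fun_prop
    refine (h1.tendsto 0).eventually (gt_mem_nhds ?_)
    simpa using Real.pi_pos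
  have h2 : ∃ᶠ θ : ℝ in 𝓝[>] 0, (Complex.exp (θ * I) * c) ^ N = 1 ∧ (N : ℝ) * θ < Real.pi ∧ 0 < θ := by
    refine Eventually.frequently ?_
    filter_upwards [hpow.filter_mono nhdsWithin_le_nhds, hsmall.filter_mono nhdsWithin_le_nhds,
      self_mem_nhdsWithin] with θ h1 h2 h3
    exact ⟨h1, h2, h3⟩
  obtain ⟨θ, h3, h4, h5⟩ := h2.exists
  rw [mul_pow, hc1, mul_one, ← Complex.exp_nat_mul] at h3
  have h6 : ((N : ℂ) * (θ * I)) = ((N * θ : ℝ) : ℂ) * I := by push_cast; ring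
  rw [h6] at h3
  have h7 := congrArg Complex.im h3
  rw [Complex.exp_ofReal_mul_I_im, Complex.one_im] at h7
  have h8 : 0 < Real.sin (N * θ) := by
    have hN0 : (0 : ℝ) < N := by exact_mod_cast hNpos
    exact Real.sin_pos_of_pos_of_lt_pi (by positivity) h4
  linarith

/-- strict local minimisers of the action are not Lyapunov stable -/
theorem main_min (hn : 2 ≤ n) (hm : ∀ a, 0 < m a) (hx : IsSol m Set.univ x)
    (hc : ‖c‖ = 1) (hσ : ∀ a, m (σ a) = m a) (hS : 0 < S)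
    (hper : ∀ t, x (t + S) = rot c σ (x t)) (hne : ¬ IsRelEq x) {ρ : ℝ} (hρ : 0 < ρ)
    (hmin : MinWith m x c σ S ρ) : ¬ LyapunovStable m (Set.range x) := by
  have hM : (∑ b, (m b : ℂ)) ≠ 0 := by
    have h1 : 0 < ∑ b, m b := by
      have : Nonempty (Fin n) := ⟨⟨0, by omega⟩⟩
      exact Finset.sum_pos (fun a _ => hm a) Finset.univ_nonempty
    rw [← Complex.ofReal_sum]
    exact Complex.ofReal_ne_zero.2 h1.ne'
  obtain ⟨d, R, hd, hR, hgood⟩ := exists_good hx hc hS hper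
  obtain ⟨F, hF⟩ := exists_flow (contDiff_cvf (m := m) hd R) (hasCompactSupport_cvf d hR)
  have s : Sit m x c σ S d R F := ⟨hM, hx, hc, hσ, hS, hper, hd, hR, hgood, hF⟩
  exact not_stable_of_near s hn hm hne fun U hU hxU => s.exists_near_min hm hρ hmin hU hxU

end Pool.Agent.J6H86.NP
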