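import Pool.Agent.J6H86.NP.Cut

/-!
# Momentum, energy and angular momentum
-/

set_option autoImplicit false

open Complex Finset Filter Topology ComplexConjugate
open scoped ContDiff

namespace Pool.Agent.J6H86.NP

open Pool.Agent.W821.TB

variable {n : ℕ} {m : Fin n → ℝ}

theorem sum_swapC (f : Fin n → Fin n → ℂ) :
    ∑ a, ∑ b ∈ univ.erase a, f a b = ∑ a, ∑ b ∈ univ.erase a, f b a := by
  have h : ∀ g : Fin n → Fin n → ℂ, ∑ a, ∑ b ∈ univ.erase a, g a b =
      ∑ a, ∑ b, if a ≠ b then g a b else 0 := by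
    intro g
    refine Finset.sum_congr rfl fun a _ => ?_
    rw [← Finset.sum_filter]
    refine Finset.sum_congr ?_ fun _ _ => rfl
    ext b
    simp [eq_comm]
  rw [h, h, Finset.sum_comm]
  refine Finset.sum_congr rfl fun a _ => Finset.sum_congr rfl fun b _ => ?_
  simp only [ne_comm]

/-- the total force is zero -/
theorem force_zero (q : Fin n → ℂ) : ∑ a, (m a : ℂ) * acc m q a = 0 := by
  have h1 : ∑ a, (m a : ℂ) * acc m q a =
      ∑ a, ∑ b ∈ univ.erase a, (m a : ℂ) * (((m b / ‖q b - q a‖ ^ 3 : ℝ) : ℂ) * (q b - q a)) := by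
    refine Finset.sum_congr rfl fun a _ => ?_
    unfold acc
    rw [Finset.mul_sum]
  have h2 := sum_swapC (fun a b => (m a : ℂ) * (((m b / ‖q b - q a‖ ^ 3 : ℝ) : ℂ) * (q b - q a)))
  have h3 : ∑ a, ∑ b ∈ univ.erase a, (m b : ℂ) * (((m a / ‖q a - q b‖ ^ 3 : ℝ) : ℂ) * (q a - q b)) =
      - ∑ a, ∑ b ∈ univ.erase a, (m a : ℂ) * (((m b / ‖q b - q a‖ ^ 3 : ℝ) : ℂ) * (q b - q a)) := by
    rw [← Finset.sum_neg_distrib]
    refine Finset.sum_congr rfl fun a _ => ?_
    rw [← Finset.sum_neg_distrib]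
    refine Finset.sum_congr rfl fun b _ => ?_
    rw [norm_sub_rev (q a) (q b)]
    push_cast
    ring
  rw [h1]
  rw [h3] at h2
  exact self_eq_neg.1 h2

/-- the subspace of the centre of mass frame -/
def com (m : Fin n → ℝ) : Submodule ℝ (Ph n) where
  carrier := {z | ∑ a, (m a : ℂ) * z.1 a = 0 ∧ ∑ a, (m a : ℂ) * z.2 a = 0}
  zero_mem' := by simp
  add_mem' := by
    rintro z w ⟨h1, h2⟩ ⟨h3, h4⟩
    constructor
    · simp only [Prod.fst_add, Pi.add_apply, mul_add, Finset.sum_add_distrib]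
      rw [h1, h3, add_zero]
    · simp only [Prod.snd_add, Pi.add_apply, mul_add, Finset.sum_add_distrib]
      rw [h2, h4, add_zero]
  smul_mem' := by
    rintro r z ⟨h1, h2⟩
    constructor
    · have : ∑ a, (m a : ℂ) * (r • z).1 a = r * ∑ a, (m a : ℂ) * z.1 a := by
        rw [Finset.mul_sum]
        refine Finset.sum_congr rfl fun a _ => ?_
        simp; ring
      rw [this, h1, mul_zero]
    · have : ∑ a, (m a : ℂ) * (r • z).2 a = r * ∑ a, (m a : ℂ) * z.2 a := by
        rw [Finset.mul_sum]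
        refine Finset.sum_congr rfl fun a _ => ?_
        simp; ring
      rw [this, h2, mul_zero]

theorem mem_com {z : Ph n} : z ∈ com m ↔
    ∑ a, (m a : ℂ) * z.1 a = 0 ∧ ∑ a, (m a : ℂ) * z.2 a = 0 := Iff.rfl

/-- the constant vector -/
def cst (n : ℕ) (u w : ℂ) : Ph n := (fun _ => u, fun _ => w)

/-- subtraction of the centre of mass -/
noncomputable def cmp (m : Fin n → ℝ) : Ph n →L[ℝ] Ph n :=
  LinearMap.toContinuousLinearMap
    { toFun := fun z => (fun a => z.1 a - (∑ b, (m b : ℂ) * z.1 b) / (∑ b, (m b : ℂ)),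
        fun a => z.2 a - (∑ b, (m b : ℂ) * z.2 b) / (∑ b, (m b : ℂ)))
      map_add' := fun z w => by
        ext a
        · simp [mul_add, Finset.sum_add_distrib, add_div]; ring
        · simp [mul_add, Finset.sum_add_distrib, add_div]; ring
      map_smul' := fun r z => by
        have h : ∀ f : Fin n → ℂ, ∑ b, (m b : ℂ) * (r * f b) = r * ∑ b, (m b : ℂ) * f b := by
          intro f
          rw [Finset.mul_sum]
          refine Finset.sum_congr rfl fun a _ => ?_
          ring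
        ext a
        · simp [h, mul_sub, mul_div_assoc]
        · simp [h, mul_sub, mul_div_assoc] }

theorem cmp_fst (z : Ph n) (a : Fin n) :
    (cmp m z).1 a = z.1 a - (∑ b, (m b : ℂ) * z.1 b) / (∑ b, (m b : ℂ)) := rfl

theorem cmp_snd (z : Ph n) (a : Fin n) :
    (cmp m z).2 a = z.2 a - (∑ b, (m b : ℂ) * z.2 b) / (∑ b, (m b : ℂ)) := rfl

theorem cmp_of_mem {z : Ph n} (hz : z ∈ com m) : cmp m z = z := by
  ext a
  · rw [cmp_fst, hz.1]; simp
  · rw [cmp_snd, hz.2]; simp

theorem sub_cmp (z : Ph n) : ∃ u w : ℂ, z - cmp m z = cst n u w := by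
  refine ⟨(∑ b, (m b : ℂ) * z.1 b) / (∑ b, (m b : ℂ)), (∑ b, (m b : ℂ) * z.2 b) / (∑ b, (m b : ℂ)), ?_⟩
  ext a
  · simp [cst, cmp_fst]
  · simp [cst, cmp_snd]

theorem cmp_mem (hM : (∑ b, (m b : ℂ)) ≠ 0) (z : Ph n) : cmp m z ∈ com m := by
  constructor
  · simp only [cmp_fst, mul_sub, Finset.sum_sub_distrib, ← Finset.sum_mul]
    field_simp
    ring
  · simp only [cmp_snd, mul_sub, Finset.sum_sub_distrib, ← Finset.sum_mul]
    field_simp
    ring

theorem rot_mem {c : ℂ} {σ : Equiv.Perm (Fin n)} (hσ : ∀ a, m (σ a) = m a) {z : Ph n}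
    (hz : z ∈ com m) : rot c σ z ∈ com m := by
  have h : ∀ f : Fin n → ℂ, ∑ a, (m a : ℂ) * (c * f (σ a)) = c * ∑ a, (m a : ℂ) * f a := by
    intro f
    rw [← Equiv.sum_comp σ (fun a => (m a : ℂ) * f a), Finset.mul_sum]
    refine Finset.sum_congr rfl fun a _ => ?_
    rw [hσ]; ring
  constructor
  · simp only [rot_fst]; rw [h, hz.1, mul_zero]
  · simp only [rot_snd]; rw [h, hz.2, mul_zero]

theorem cmp_rot {c : ℂ} {σ : Equiv.Perm (Fin n)} (hσ : ∀ a, m (σ a) = m a) (z : Ph n) :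
    cmp m (rot c σ z) = rot c σ (cmp m z) := by
  have h : ∀ f : Fin n → ℂ, ∑ a, (m a : ℂ) * (c * f (σ a)) = c * ∑ a, (m a : ℂ) * f a := by
    intro f
    rw [← Equiv.sum_comp σ (fun a => (m a : ℂ) * f a), Finset.mul_sum]
    refine Finset.sum_congr rfl fun a _ => ?_
    rw [hσ]; ring
  ext a
  · rw [cmp_fst, rot_fst, rot_fst, cmp_fst]
    simp only [rot_fst, h]
    ring
  · rw [cmp_snd, rot_snd, rot_snd, cmp_snd]
    simp only [rot_snd, h]
    ring

/-- the mass inner product -/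
noncomputable def B (m : Fin n → ℝ) (u w : Ph n) : ℝ :=
  ∑ a, m a * (ip (u.1 a) (w.1 a) + ip (u.2 a) (w.2 a))

theorem B_comm (u w : Ph n) : B m u w = B m w u := by
  unfold B
  refine Finset.sum_congr rfl fun a _ => ?_
  simp only [ip_eq]; ring

theorem B_sub_smul (g u w : Ph n) (r : ℝ) : B m g (u - r • w) = B m g u - r * B m g w := by
  unfold B
  rw [Finset.mul_sum, ← Finset.sum_sub_distrib]
  refine Finset.sum_congr rfl fun a _ => ?_
  simp only [ip_eq, Prod.fst_sub, Prod.snd_sub, Prod.smul_fst, Prod.smul_snd, Pi.sub_apply,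
    Pi.smul_apply, Complex.sub_re, Complex.sub_im, Complex.real_smul, Complex.mul_re, Complex.mul_im,
    Complex.ofReal_re, Complex.ofReal_im]
  ring

theorem B_smul (g u : Ph n) (r : ℝ) : B m g (r • u) = r * B m g u := by
  unfold B
  rw [Finset.mul_sum]
  refine Finset.sum_congr rfl fun a _ => ?_
  simp only [ip_eq, Prod.smul_fst, Prod.smul_snd, Pi.smul_apply, Complex.real_smul, Complex.mul_re,
    Complex.mul_im, Complex.ofReal_re, Complex.ofReal_im]
  ring

theorem B_pos (hm : ∀ a, 0 < m a) {u : Ph n} (hu : u ≠ 0) : 0 < B m u u := by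
  have hnn : ∀ a ∈ (univ : Finset (Fin n)), 0 ≤ m a * (ip (u.1 a) (u.1 a) + ip (u.2 a) (u.2 a)) := by
    intro a _
    rw [ip_self, ip_self]
    have := hm a
    positivity
  have hex : ∃ a, u.1 a ≠ 0 ∨ u.2 a ≠ 0 := by
    by_contra hcon
    push Not at hcon
    apply hu
    ext a
    · exact (hcon a).1
    · exact (hcon a).2
  obtain ⟨a, ha⟩ := hex
  refine Finset.sum_pos' hnn ⟨a, Finset.mem_univ a, ?_⟩
  rw [ip_self, ip_self]
  refine mul_pos (hm a) ?_
  rcases ha with h | h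
  · have := norm_pos_iff.2 h
    positivity
  · have := norm_pos_iff.2 h
    positivity

/-- two linear functionals which are given by independent vectors -/
theorem exists_dual (hm : ∀ a, 0 < m a) {g h : Ph n} (hg : g ∈ com m) (hh : h ∈ com m)
    (hg0 : g ≠ 0) (hh0 : h ≠ 0) (hind : ∀ r : ℝ, h ≠ r • g) :
    ∃ e ∈ com m, B m g e = 1 ∧ B m h e = 0 := by
  have hC := B_pos hm hh0
  set k := g - (B m h g / B m h h) • h with hk
  have hk0 : k ≠ 0 := by
    intro h0
    have h1 : g = (B m h g / B m h h) • h := sub_eq_zero.1 h0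
    have h2 : B m h g / B m h h ≠ 0 := by
      intro h3
      rw [h3, zero_smul] at h1
      exact hg0 h1
    apply hind (B m h g / B m h h)⁻¹
    nth_rewrite 2 [h1]
    rw [smul_smul, inv_mul_cancel₀ h2, one_smul]
  have hkB := B_pos hm hk0
  have h1 : B m h k = 0 := by
    rw [hk, B_sub_smul]
    field_simp
    ring
  have h2 : B m g k = B m k k := by
    have : B m k k = B m k g - (B m h g / B m h h) * B m k h := by
      nth_rewrite 3 [hk]
      rw [B_sub_smul]
    rw [this, B_comm k h, h1, mul_zero, sub_zero, B_comm]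
  refine ⟨(B m k k)⁻¹ • k, ?_, ?_, ?_⟩
  · exact (com m).smul_mem _ ((com m).sub_mem hg ((com m).smul_mem _ hh))
  · rw [B_smul, h2, inv_mul_cancel₀ hkB.ne']
  · rw [B_smul, h1, mul_zero]

theorem contDiffAt_energy {z : Ph n} (hz : ∀ a b, a ≠ b → z.1 a ≠ z.1 b) :
    ContDiffAt ℝ ∞ (energy m) z := by
  unfold energy upot
  refine ContDiffAt.sub ?_ ?_
  · refine ContDiffAt.div_const ?_ _
    refine ContDiffAt.sum fun a _ => ?_
    have h2 : ContDiffAt ℝ ∞ (fun z : Ph n => z.2 a) z := by fun_prop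
    exact contDiffAt_const.mul (h2.norm_sq ℝ)
  · refine ContDiffAt.div_const ?_ _
    refine ContDiffAt.sum fun a _ => ContDiffAt.sum fun b hb => ?_
    have hne : z.1 b - z.1 a ≠ 0 := sub_ne_zero.2 (hz b a (Finset.ne_of_mem_erase hb))
    have hd : ContDiffAt ℝ ∞ (fun w : Ph n => w.1 b - w.1 a) z := by fun_prop
    exact contDiffAt_const.div (hd.norm ℝ hne) (norm_ne_zero_iff.2 hne)

theorem contDiff_ang : ContDiff ℝ ∞ (ang m) := by
  unfold ang
  refine ContDiff.sum fun a _ => contDiff_const.mul ?_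
  have h1 : ContDiff ℝ ∞ (fun z : Ph n => z.1 a) := by fun_prop
  have h2 : ContDiff ℝ ∞ (fun z : Ph n => z.2 a) := by fun_prop
  have h3 : ContDiff ℝ ∞ (fun z : Ph n => conj (z.1 a)) := Complex.conjCLE.contDiff.comp h1
  exact Complex.imCLM.contDiff.comp (h3.mul h2)

/-- the gradient of the energy -/
noncomputable def gE (m : Fin n → ℝ) (z : Ph n) : Ph n := (fun a => - acc m z.1 a, z.2)

/-- the gradient of the angular momentum -/
noncomputable def gJ (z : Ph n) : Ph n := (fun a => - (I * z.2 a), fun a => I * z.1 a)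

theorem line_deriv (z ζ : Ph n) : (∀ a, HasDerivAt (fun s : ℝ => (z + s • ζ).1 a) (ζ.1 a) 0) ∧
    (∀ a, HasDerivAt (fun s : ℝ => (z + s • ζ).2 a) (ζ.2 a) 0) := by
  constructor
  · intro a
    have h : HasDerivAt (fun s : ℝ => z.1 a + s • ζ.1 a) ((1 : ℝ) • ζ.1 a) 0 :=
      ((hasDerivAt_id (0 : ℝ)).smul_const (ζ.1 a)).const_add _
    rw [one_smul] at h
    exact h
  · intro a
    have h : HasDerivAt (fun s : ℝ => z.2 a + s • ζ.2 a) ((1 : ℝ) • ζ.2 a) 0 :=
      ((hasDerivAt_id (0 : ℝ)).smul_const (ζ.2 a)).const_add _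
    rw [one_smul] at h
    exact h

theorem fderiv_line {f : Ph n → ℝ} {z ζ : Ph n} {f' : ℝ} (hf : DifferentiableAt ℝ f z)
    (h : HasDerivAt (fun s : ℝ => f (z + s • ζ)) f' 0) : fderiv ℝ f z ζ = f' := by
  have h1 : HasDerivAt (fun s : ℝ => z + s • ζ) ζ 0 := by
    have h := ((hasDerivAt_id (0 : ℝ)).smul_const ζ).const_add z
    rw [one_smul] at h
    exact h
  have h2 : HasFDerivAt f (fderiv ℝ f z) (z + (0 : ℝ) • ζ) := by
    rw [zero_smul, add_zero]; exact hf.hasFDerivAt
  exact (h2.comp_hasDerivAt (0 : ℝ) h1).unique h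

theorem fderiv_energy {z : Ph n} (hz : ∀ a b, a ≠ b → z.1 a ≠ z.1 b) (ζ : Ph n) :
    fderiv ℝ (energy m) z ζ = B m (gE m z) ζ := by
  refine fderiv_line ((contDiffAt_energy hz).differentiableAt (by simp)) ?_
  have h1 := line_deriv z ζ
  have h2 := hasDerivAt_energy (m := m) h1.1 h1.2 (by simpa using hz)
  refine h2.congr_deriv ?_
  unfold B gE
  rw [← Finset.sum_sub_distrib]
  refine Finset.sum_congr rfl fun a _ => ?_
  have e : z + (0 : ℝ) • ζ = z := by rw [zero_smul, add_zero]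
  rw [e]
  simp only [ip_eq, Complex.neg_re, Complex.neg_im]
  ring

theorem fderiv_ang (z ζ : Ph n) : fderiv ℝ (ang m) z ζ = B m (gJ z) ζ := by
  refine fderiv_line ((contDiff_ang (m := m)).differentiable (by simp) z) ?_
  have h1 := line_deriv z ζ
  have h2 : ∀ a ∈ (univ : Finset (Fin n)), HasDerivAt
      (fun s : ℝ => m a * (conj ((z + s • ζ).1 a) * (z + s • ζ).2 a).im)
      (m a * (conj (ζ.1 a) * (z + (0 : ℝ) • ζ).2 a + conj ((z + (0 : ℝ) • ζ).1 a) * ζ.2 a).im) 0 :=
    fun a _ => (hasDerivAt_imc ((hasDerivAt_conj (h1.1 a)).mul (h1.2 a))).const_mul _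
  have h3 := HasDerivAt.fun_sum h2
  unfold ang
  refine h3.congr_deriv ?_
  unfold B gJ
  refine Finset.sum_congr rfl fun a _ => ?_
  have e : z + (0 : ℝ) • ζ = z := by rw [zero_smul, add_zero]
  rw [e]
  simp only [ip_eq, Complex.neg_re, Complex.neg_im, Complex.mul_re, Complex.mul_im, Complex.I_re,
    Complex.I_im, Complex.add_im, Complex.conj_re, Complex.conj_im]
  ring

theorem B_cst {g : Ph n} (hg : g ∈ com m) (u w : ℂ) : B m g (cst n u w) = 0 := by
  have h1 : B m g (cst n u w) = (conj (∑ a, (m a : ℂ) * g.1 a) * u).re +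
      (conj (∑ a, (m a : ℂ) * g.2 a) * w).re := by
    unfold B cst ip
    rw [map_sum, map_sum, Finset.sum_mul, Finset.sum_mul, Complex.re_sum, Complex.re_sum,
      ← Finset.sum_add_distrib]
    refine Finset.sum_congr rfl fun a _ => ?_
    rw [map_mul, map_mul, Complex.conj_ofReal, mul_assoc, mul_assoc, Complex.re_ofReal_mul,
      Complex.re_ofReal_mul]
    ring
  rw [h1, hg.1, hg.2]
  simp

theorem gE_mem {z : Ph n} (hz : z ∈ com m) : gE m z ∈ com m := by
  refine ⟨?_, hz.2⟩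
  have h := force_zero (m := m) z.1
  unfold gE
  simp only [mul_neg, Finset.sum_neg_distrib, h, neg_zero]

theorem gJ_mem {z : Ph n} (hz : z ∈ com m) : gJ z ∈ com m := by
  have h : ∀ f : Fin n → ℂ, ∑ a, (m a : ℂ) * f a = 0 → ∑ a, (m a : ℂ) * (I * f a) = 0 := by
    intro f hf
    have : ∑ a, (m a : ℂ) * (I * f a) = I * ∑ a, (m a : ℂ) * f a := by
      rw [Finset.mul_sum]
      refine Finset.sum_congr rfl fun a _ => ?_
      ring
    rw [this, hf, mul_zero]
  constructor
  · unfold gJ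
    simp only [mul_neg, Finset.sum_neg_distrib]
    rw [h _ hz.2, neg_zero]
  · unfold gJ
    exact h _ hz.1

/-- a solution whose velocity is an infinitesimal rotation is a relative equilibrium -/
theorem relEq_of {x : ℝ → Ph n} (hx : IsSol m Set.univ x) {t₀ κ : ℝ}
    (h : vf m (x t₀) = (κ * I) • x t₀) : IsRelEq x := by
  have hy : IsSol m Set.univ (fun t => Complex.exp ((κ * (t - t₀) : ℝ) * I) • x t₀) := by
    refine isSol_of (fun t => smul_mem (norm_expI _) (hx.mem t₀)) fun t => ?_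
    have h1 : HasDerivAt (fun t : ℝ => Complex.exp ((κ * (t - t₀) : ℝ) * I))
        (Complex.exp ((κ * (t - t₀) : ℝ) * I) * (κ * I)) t := by
      have h2 : HasDerivAt (fun t : ℝ => ((κ * (t - t₀) : ℝ) : ℂ) * I) ((κ : ℂ) * I) t := by
        have h3 : HasDerivAt (fun t : ℝ => κ * (t - t₀)) κ t := by
          simpa using ((hasDerivAt_id t).sub_const t₀).const_mul κ
        exact h3.ofReal_comp.mul_const I
      exact h2.cexp
    have h2 := h1.smul_const (x t₀)
    refine h2.congr_deriv ?_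
    have h3 : vf m (Complex.exp ((κ * (t - t₀) : ℝ) * I) • x t₀) =
        Complex.exp ((κ * (t - t₀) : ℝ) * I) • vf m (x t₀) := by
      ext a
      · rfl
      · exact acc_smul (m := m) _ (norm_expI _) (x t₀).1 a
    have h4 : (((fun t => Complex.exp ((κ * (t - t₀) : ℝ) * I) • x t₀) t).2,
        acc m ((fun t => Complex.exp ((κ * (t - t₀) : ℝ) * I) • x t₀) t).1) =
        vf m (Complex.exp ((κ * (t - t₀) : ℝ) * I) • x t₀) := rfl
    rw [h4, h3, h, smul_smul]
  have hxy := sol_unique (t₀ := t₀) hx hy (by simp)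
  intro t a b
  rw [hxy]
  have e : ∀ s : ℝ, ‖(Complex.exp ((κ * (s - t₀) : ℝ) * I) • x t₀).1 a -
      (Complex.exp ((κ * (s - t₀) : ℝ) * I) • x t₀).1 b‖ = ‖(x t₀).1 a - (x t₀).1 b‖ := by
    intro s
    have : (Complex.exp ((κ * (s - t₀) : ℝ) * I) • x t₀).1 a -
      (Complex.exp ((κ * (s - t₀) : ℝ) * I) • x t₀).1 b =
      Complex.exp ((κ * (s - t₀) : ℝ) * I) * ((x t₀).1 a - (x t₀).1 b) := by
      simp [mul_sub]
    rw [this, norm_mul, norm_expI, one_mul]
  simp only [e]

/-- energy and angular momentum are independent along a solution which is not a relative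
equilibrium -/
theorem exists_ej (hn : 2 ≤ n) (hm : ∀ a, 0 < m a) {x : ℝ → Ph n} (hx : IsSol m Set.univ x)
    (hne : ¬ IsRelEq x) (t : ℝ) : ∃ e ∈ com m, ∃ j ∈ com m,
      fderiv ℝ (energy m) (x t) e = 1 ∧ fderiv ℝ (energy m) (x t) j = 0 ∧
      fderiv ℝ (ang m) (x t) e = 0 ∧ fderiv ℝ (ang m) (x t) j = 1 := by
  have hc : x t ∈ com m := (hx.mem t).2
  have hE := gE_mem hc
  have hJ := gJ_mem hc
  obtain ⟨a₀, ha₀⟩ := exists_ne_zero hn (hx.mem t)
  have hJ0 : gJ (x t) ≠ 0 := by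
    intro h
    apply ha₀
    have := congrFun (congrArg Prod.snd h) a₀
    simpa [gJ] using this
  -- `gE = κ • gJ` is impossible
  have key : ∀ κ : ℝ, gE m (x t) ≠ κ • gJ (x t) := by
    intro κ h
    apply hne
    refine relEq_of hx (t₀ := t) (κ := κ) ?_
    ext a
    · have := congrFun (congrArg Prod.snd h) a
      simp only [gE, gJ, Prod.smul_snd, Pi.smul_apply, Complex.real_smul] at this
      change (x t).2 a = (κ * I) * (x t).1 a
      rw [this]; ring
    · have := congrFun (congrArg Prod.fst h) a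
      simp only [gE, gJ, Prod.smul_fst, Pi.smul_apply, Complex.real_smul] at this
      change acc m (x t).1 a = (κ * I) * (x t).2 a
      linear_combination -this
  have hE0 : gE m (x t) ≠ 0 := by
    have := key 0
    rwa [zero_smul] at this
  have hind : ∀ r : ℝ, gJ (x t) ≠ r • gE m (x t) := by
    intro r h
    have hr : r ≠ 0 := by
      rintro rfl
      rw [zero_smul] at h
      exact hJ0 h
    apply key r⁻¹
    rw [h, smul_smul, inv_mul_cancel₀ hr, one_smul]
  obtain ⟨e, he, he1, he2⟩ := exists_dual hm hE hJ hE0 hJ0 hind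
  obtain ⟨j, hj, hj1, hj2⟩ := exists_dual hm hJ hE hJ0 hE0 key
  have hcol := (hx.mem t).1
  refine ⟨e, he, j, hj, ?_, ?_, ?_, ?_⟩
  · rw [fderiv_energy hcol, he1]
  · rw [fderiv_energy hcol, hj2]
  · rw [fderiv_ang, he2]
  · rw [fderiv_ang, hj1]

end Pool.Agent.J6H86.NP
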