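import Pool.Agent.J6H86.NP.Loc

/-!
# The linearised return map of a relative periodic solution
-/

set_option autoImplicit false

open Complex Finset Filter Topology ComplexConjugate
open scoped ContDiff

namespace Pool.Agent.J6H86.NP

open Pool.Agent.W821.TB

variable {n : ℕ} {m : Fin n → ℝ}

/-- a relative periodic solution `x` and the flow `F` of the vector field which is truncated away
from `x` -/
structure Sit (m : Fin n → ℝ) (x : ℝ → Ph n) (c : ℂ) (σ : Equiv.Perm (Fin n)) (S d R : ℝ)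
    (F : ℝ → Ph n → Ph n) : Prop where
  hM : (∑ b, (m b : ℂ)) ≠ 0
  hx : IsSol m Set.univ x
  hc : ‖c‖ = 1
  hσ : ∀ a, m (σ a) = m a
  hS : 0 < S
  hper : ∀ t, x (t + S) = rot c σ (x t)
  hd : 0 < d
  hR : 0 < R
  hgood : ∀ t, x t ∈ good d R
  hF : IsFl (cvf m d R) F

theorem fderiv_vf {z : Ph n} (hz : ∀ a b, a ≠ b → z.1 a ≠ z.1 b) (ζ : Ph n) :
    fderiv ℝ (vf m) z ζ = (ζ.2, fderiv ℝ (acc m) z.1 ζ.1) := by
  have h1 : HasFDerivAt (acc m) (fderiv ℝ (acc m) z.1) z.1 :=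
    ((contDiffAt_acc' (m := m) hz).differentiableAt (by simp)).hasFDerivAt
  have h2 : HasFDerivAt (vf m) ((ContinuousLinearMap.snd ℝ _ _).prod
      ((fderiv ℝ (acc m) z.1).comp (ContinuousLinearMap.fst ℝ _ _))) z :=
    hasFDerivAt_snd.prodMk (h1.comp z hasFDerivAt_fst)
  rw [h2.fderiv]
  rfl

namespace Sit

variable {x : ℝ → Ph n} {c : ℂ} {σ : Equiv.Perm (Fin n)} {S d R : ℝ} {F : ℝ → Ph n → Ph n}

theorem Fx (s : Sit m x c σ S d R F) (t : ℝ) : F t (x 0) = x t := by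
  refine (s.hF.uniq x (fun t => ?_) t).symm
  rw [cvf_good s.hd s.hR (s.hgood t)]
  exact s.hx.hasDerivAt t

theorem xS (s : Sit m x c σ S d R F) : x S = rot c σ (x 0) := by
  have := s.hper 0
  rwa [zero_add] at this

theorem com0 (s : Sit m x c σ S d R F) (t : ℝ) : x t ∈ com m := (s.hx.mem t).2

theorem fderiv_cvf (s : Sit m x c σ S d R F) (t : ℝ) (ζ : Ph n) :
    fderiv ℝ (cvf m d R) (x t) ζ = (ζ.2, fderiv ℝ (acc m) (x t).1 ζ.1) := by
  have h : cvf m d R =ᶠ[𝓝 (x t)] vf m := by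
    filter_upwards [(isOpen_good d R).mem_nhds (s.hgood t)] with z hz
    exact cvf_good s.hd s.hR hz
  rw [h.fderiv_eq, fderiv_vf (s.hx.mem t).1]

theorem var (s : Sit m x c σ S d R F) (ζ : Ph n) (t : ℝ) :
    HasDerivAt (fun t => fderiv ℝ (F t) (x 0) ζ)
      ((fderiv ℝ (F t) (x 0) ζ).2, fderiv ℝ (acc m) (x t).1 (fderiv ℝ (F t) (x 0) ζ).1) t := by
  have h := s.hF.var (contDiff_cvf s.hd R) t (x 0) ζ
  rw [s.Fx, s.fderiv_cvf] at h
  exact h

theorem fderiv_mem (s : Sit m x c σ S d R F) {ζ : Ph n} (hζ : ζ ∈ com m) (t : ℝ) :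
    fderiv ℝ (F t) (x 0) ζ ∈ com m := by
  have h1 : HasDerivAt (fun r : ℝ => x 0 + r • ζ) ζ 0 := by
    have h := ((hasDerivAt_id (0 : ℝ)).smul_const ζ).const_add (x 0)
    rw [one_smul] at h
    exact h
  have h2 : HasDerivAt (fun r : ℝ => F t (x 0 + r • ζ)) (fderiv ℝ (F t) (x 0) ζ) 0 := by
    have h3 : HasFDerivAt (F t) (fderiv ℝ (F t) (x 0)) (x 0 + (0 : ℝ) • ζ) := by
      rw [zero_smul, add_zero]; exact s.hF.hasFDerivAt t (x 0)
    exact h3.comp_hasDerivAt (0 : ℝ) h1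
  exact deriv_mem_com s.hM h2
    (fun r => flow_com s.hF ((com m).add_mem (s.com0 0) ((com m).smul_mem r hζ)) t)

theorem fderiv_add (s : Sit m x c σ S d R F) {ζ : Ph n}
    (h : fderiv ℝ (F S) (x 0) ζ = rot c σ ζ) (t : ℝ) :
    fderiv ℝ (F (t + S)) (x 0) ζ = rot c σ (fderiv ℝ (F t) (x 0) ζ) := by
  have h1 : F (t + S) = fun z => F t (F S z) := by funext z; exact s.hF.add t S z
  have h2 : HasFDerivAt (fun z => F t (F S z))
      ((fderiv ℝ (F t) (F S (x 0))).comp (fderiv ℝ (F S) (x 0))) (x 0) :=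
    (s.hF.hasFDerivAt t _).comp (x 0) (s.hF.hasFDerivAt S (x 0))
  rw [h1, h2.fderiv, ContinuousLinearMap.comp_apply, h, s.Fx, s.xS]
  have h3 : (fun z => F t (rot c σ z)) = fun z => rot c σ (F t z) := by
    funext z
    exact s.hF.comm (rot c σ) (cvf_rot s.hc σ s.hσ d R) t z
  have h4 : HasFDerivAt (fun z => F t (rot c σ z))
      ((fderiv ℝ (F t) (rot c σ (x 0))).comp (rot c σ)) (x 0) :=
    (s.hF.hasFDerivAt t _).comp (x 0) (rot c σ).hasFDerivAt
  have h5 : HasFDerivAt (fun z => rot c σ (F t z))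
      ((rot c σ).comp (fderiv ℝ (F t) (x 0))) (x 0) :=
    (rot c σ).hasFDerivAt.comp (x 0) (s.hF.hasFDerivAt t _)
  rw [h3] at h4
  exact congrArg (fun L : Ph n →L[ℝ] Ph n => L ζ) (h4.unique h5)

/-- invariant functions -/
theorem fderiv_inv (s : Sit m x c σ S d R F) {E : Ph n → ℝ}
    (hE : ∀ t, DifferentiableAt ℝ E (x t)) (hrot : ∀ z, E (rot c σ z) = E z)
    (hfl : ∀ᶠ z in 𝓝 (x 0), E (F S z) = E z) (ζ : Ph n) :
    fderiv ℝ E (x S) (fderiv ℝ (F S) (x 0) ζ) = fderiv ℝ E (x 0) ζ ∧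
      fderiv ℝ E (x S) (rot c σ ζ) = fderiv ℝ E (x 0) ζ := by
  have h0 := (hE 0).hasFDerivAt
  constructor
  · have h1 : HasFDerivAt (fun z => E (F S z)) ((fderiv ℝ E (F S (x 0))).comp
        (fderiv ℝ (F S) (x 0))) (x 0) := by
      have h2 : HasFDerivAt E (fderiv ℝ E (F S (x 0))) (F S (x 0)) := by
        rw [s.Fx]; exact (hE S).hasFDerivAt
      exact h2.comp (x 0) (s.hF.hasFDerivAt S (x 0))
    have h3 := (h1.congr_of_eventuallyEq (f₁ := E) (hfl.mono fun z hz => hz.symm)).unique h0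
    rw [s.Fx] at h3
    exact congrArg (fun L : Ph n →L[ℝ] ℝ => L ζ) h3
  · have h1 : HasFDerivAt (fun z => E (rot c σ z)) ((fderiv ℝ E (rot c σ (x 0))).comp
        (rot c σ)) (x 0) := by
      have h2 : HasFDerivAt E (fderiv ℝ E (rot c σ (x 0))) (rot c σ (x 0)) := by
        rw [← s.xS]; exact (hE S).hasFDerivAt
      exact h2.comp (x 0) (rot c σ).hasFDerivAt
    have h3 : (fun z => E (rot c σ z)) = E := by funext z; exact hrot z
    rw [h3] at h1
    have h4 := h1.unique h0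
    rw [← s.xS] at h4
    exact congrArg (fun L : Ph n →L[ℝ] ℝ => L ζ) h4

theorem good_ev (s : Sit m x c σ S d R F) :
    ∀ᶠ z in 𝓝 (x 0), ∀ t ∈ Set.Icc 0 S, F t z ∈ good d R := by
  refine near_good s.hF fun t _ => ?_
  rw [s.Fx]
  exact s.hgood t

/-- the linear map whose invertibility transversally to the symmetries is needed -/
noncomputable def lin (m : Fin n → ℝ) (x : ℝ → Ph n) (c : ℂ) (σ : Equiv.Perm (Fin n)) (S : ℝ)
    (F : ℝ → Ph n → Ph n) : Ph n →L[ℝ] Ph n :=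
  (fderiv ℝ (F S) (x 0)).comp (cmp m) + (2 : ℝ) • (ContinuousLinearMap.id ℝ (Ph n) - cmp m) -
    rot c σ

theorem lin_apply (v : Ph n) : lin m x c σ S F v =
    fderiv ℝ (F S) (x 0) (cmp m v) + (2 : ℝ) • (v - cmp m v) - rot c σ v := rfl

theorem lin_energy (s : Sit m x c σ S d R F) (v : Ph n) :
    fderiv ℝ (energy m) (x S) (lin m x c σ S F v) = 0 := by
  have h1 := fun ζ => s.fderiv_inv (E := energy m)
    (fun t => (contDiffAt_energy (s.hx.mem t).1).differentiableAt (by simp))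
    (energy_rot s.hc s.hσ)
    (s.good_ev.mono fun z hz => (flow_energy s.hd s.hR s.hF s.hS.le hz).1) ζ
  obtain ⟨u, w, huw⟩ := sub_cmp (m := m) v
  have h2 : fderiv ℝ (energy m) (x S) (v - cmp m v) = 0 := by
    rw [huw, fderiv_energy (s.hx.mem S).1, B_cst (gE_mem (s.com0 S))]
  have h3 : fderiv ℝ (energy m) (x 0) (v - cmp m v) = 0 := by
    rw [huw, fderiv_energy (s.hx.mem 0).1, B_cst (gE_mem (s.com0 0))]
  rw [lin_apply, map_sub, map_add, map_smul, h2, (h1 (cmp m v)).1, (h1 v).2, smul_zero, add_zero]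
  rw [map_sub] at h3
  linarith

theorem lin_ang (s : Sit m x c σ S d R F) (v : Ph n) :
    fderiv ℝ (ang m) (x S) (lin m x c σ S F v) = 0 := by
  have h1 := fun ζ => s.fderiv_inv (E := ang m)
    (fun t => (contDiff_ang (m := m)).differentiable (by simp) (x t))
    (ang_rot s.hc s.hσ)
    (s.good_ev.mono fun z hz => (flow_energy s.hd s.hR s.hF s.hS.le hz).2) ζ
  obtain ⟨u, w, huw⟩ := sub_cmp (m := m) v
  have h2 : fderiv ℝ (ang m) (x S) (v - cmp m v) = 0 := by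
    rw [huw, fderiv_ang, B_cst (gJ_mem (s.com0 S))]
  have h3 : fderiv ℝ (ang m) (x 0) (v - cmp m v) = 0 := by
    rw [huw, fderiv_ang, B_cst (gJ_mem (s.com0 0))]
  rw [lin_apply, map_sub, map_add, map_smul, h2, (h1 (cmp m v)).1, (h1 v).2, smul_zero, add_zero]
  rw [map_sub] at h3
  linarith

/-- a vector `w` with `2 w = rot w` vanishes -/
theorem two_smul_zero {c : ℂ} (hc : ‖c‖ = 1) {σ : Equiv.Perm (Fin n)} {w : Ph n}
    (h : (2 : ℝ) • w = rot c σ w) : w = 0 := by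
  have h1 : ‖(2 : ℝ) • w‖ ≤ ‖w‖ := by rw [h]; exact norm_rot_le hc σ w
  rw [norm_smul] at h1
  simp only [Real.norm_ofNat] at h1
  have h2 : ‖w‖ ≤ 0 := by linarith [norm_nonneg w]
  exact norm_le_zero_iff.1 h2

theorem cmp_sub_cmp (hM : (∑ b, (m b : ℂ)) ≠ 0) (z : Ph n) : cmp m (z - cmp m z) = 0 := by
  rw [map_sub, cmp_of_mem (cmp_mem hM z), sub_self]

theorem lin_ker (s : Sit m x c σ S d R F) {v : Ph n} (h : lin m x c σ S F v = 0) :
    v ∈ com m ∧ fderiv ℝ (F S) (x 0) v = rot c σ v := by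
  have h1 : cmp m v ∈ com m := cmp_mem s.hM v
  have h2 : fderiv ℝ (F S) (x 0) (cmp m v) ∈ com m := s.fderiv_mem h1 S
  rw [lin_apply] at h
  have h3 := congrArg (cmp m) h
  rw [map_sub, map_add, map_smul, cmp_sub_cmp s.hM, smul_zero, add_zero, map_zero,
    cmp_of_mem h2, cmp_rot s.hσ] at h3
  have h4 : (2 : ℝ) • (v - cmp m v) = rot c σ (v - cmp m v) := by
    rw [map_sub]
    have h5 : fderiv ℝ (F S) (x 0) (cmp m v) = rot c σ (cmp m v) := sub_eq_zero.1 h3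
    rw [h5] at h
    rw [← sub_eq_zero, ← h]
    abel
  have h5 := two_smul_zero s.hc h4
  have h6 : cmp m v = v := (sub_eq_zero.1 h5).symm
  rw [h6] at h3 h1
  exact ⟨h1, sub_eq_zero.1 h3⟩

end Sit

end Pool.Agent.J6H86.NP
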