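import Pool.Agent.J6H86.NP.Thin
import Pool.Agent.J6H86.NP.Act

/-!
# The values of `S² (-E)³` at the periodic solutions are the values of a smooth function at critical
points
-/

set_option autoImplicit false

open Complex Finset Filter Topology ComplexConjugate
open scoped ContDiff

namespace Pool.Agent.J6H86.NP

open Pool.Agent.W821.TB

variable {n : ℕ} {m : Fin n → ℝ} {d R : ℝ} {F : ℝ → Ph n → Ph n}

/-- a solution is given by the truncated flow as long as this stays in the good region -/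
theorem eq_flow (hd : 0 < d) (hR : 0 < R) (hF : IsFl (cvf m d R) F) {y : ℝ → Ph n}
    (hy : IsSol m Set.univ y) {S : ℝ} (h : ∀ t ∈ Set.Icc 0 S, F t (y 0) ∈ good d R) :
    ∀ t ∈ Set.Icc 0 S, y t = F t (y 0) := by
  have hFc : Continuous fun t => F t (y 0) := hF.cont.comp (continuous_id.prodMk continuous_const)
  have hclosed : IsClosed ({t | y t = F t (y 0)} ∩ Set.Icc 0 S) :=
    (isClosed_eq hy.continuous hFc).inter isClosed_Icc
  obtain ⟨K, hK⟩ := (contDiff_cvf (m := m) hd R).lipschitzWith_of_hasCompactSupport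
    (hasCompactSupport_cvf d hR) (by simp)
  have := hclosed.Icc_subset_of_forall_exists_gt (by simp [hF.zero]) ?_
  · exact fun t ht => this ht
  rintro t ⟨ht, ht1⟩ s hs
  have ht' : y t = F t (y 0) := ht
  have hgt : F t (y 0) ∈ good d R := h t ⟨ht1.1, ht1.2.le⟩
  have h1 : ∀ᶠ u in 𝓝 t, y u ∈ good d R :=
    hy.continuous.continuousAt.eventually_mem ((isOpen_good d R).mem_nhds (by rw [ht']; exact hgt))
  have hf : ∀ᶠ u in 𝓝 t, HasDerivAt y ((fun (_ : ℝ) => cvf m d R) u (y u)) u ∧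
      y u ∈ (fun _ : ℝ => Set.univ) u := by
    filter_upwards [h1] with u hu
    refine ⟨?_, trivial⟩
    have h2 := hy.hasDerivAt u
    simp only [cvf_good hd hR hu]
    exact h2
  have hg : ∀ᶠ u in 𝓝 t, HasDerivAt (fun u => F u (y 0)) ((fun (_ : ℝ) => cvf m d R) u (F u (y 0))) u ∧
      F u (y 0) ∈ (fun _ : ℝ => Set.univ) u :=
    Eventually.of_forall fun u => ⟨hF.deriv u (y 0), trivial⟩
  have hev : y =ᶠ[𝓝 t] fun u => F u (y 0) :=
    ODE_solution_unique_of_eventually (K := K)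
      (Eventually.of_forall fun _ => hK.lipschitzOnWith) hf hg ht'
  obtain ⟨u, hu1, hu2⟩ := ((hev.filter_mono nhdsWithin_le_nhds).and
    (Ioc_mem_nhdsGT hs)).exists
  exact ⟨u, hu1, hu2⟩

/-- the action minus `p (q(S) - q(0))`; closed orbits are critical for fixed `S` -/
noncomputable def bf (m : Fin n → ℝ) (F : ℝ → Ph n → Ph n) (p : Ph n × ℝ) : ℝ :=
  actn m F p.2 p.1 - ∑ a, m a * ip (p.1.2 a) ((F p.2 p.1).1 a - p.1.1 a)

/-- a function with the value `S² (-E)³` at the closed orbits, which are critical -/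
noncomputable def df (m : Fin n → ℝ) (F : ℝ → Ph n → Ph n) (p : Ph n × ℝ) : ℝ :=
  bf m F p ^ 3 / (27 * p.2)

theorem contDiff_ip {E : Type} [NormedAddCommGroup E] [NormedSpace ℝ E] {f g : E → ℂ}
    (hf : ContDiff ℝ ∞ f) (hg : ContDiff ℝ ∞ g) : ContDiff ℝ ∞ fun x => ip (f x) (g x) := by
  have : (fun x => ip (f x) (g x)) = fun x => (f x).re * (g x).re + (f x).im * (g x).im := by
    funext x; exact ip_eq _ _
  rw [this]
  exact ((Complex.reCLM.contDiff.comp hf).mul (Complex.reCLM.contDiff.comp hg)).add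
    ((Complex.imCLM.contDiff.comp hf).mul (Complex.imCLM.contDiff.comp hg))

theorem contDiff_gv : ContDiff ℝ ∞ (gv (n := n) m) := by
  unfold gv
  exact ContDiff.sum fun a _ => contDiff_const.mul (contDiff_ip (by fun_prop) (by fun_prop))

theorem contDiffAt_bf {Y : Ph n → Ph n} (hF : IsFl Y F) {p : Ph n × ℝ}
    (hp : ∀ a b, a ≠ b → p.1.1 a ≠ p.1.1 b) : ContDiffAt ℝ ∞ (bf m F) p := by
  have h1 : ContDiff ℝ ∞ fun p : Ph n × ℝ => F p.2 p.1 :=
    hF.smooth.comp (contDiff_snd.prodMk contDiff_fst)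
  have h2 : ContDiffAt ℝ ∞ (fun p : Ph n × ℝ => energy m p.1) p :=
    (contDiffAt_energy (m := m) hp).comp p contDiffAt_fst
  unfold bf actn
  refine ContDiffAt.sub (ContDiffAt.sub (contDiffAt_const.mul ?_) ?_) ?_
  · exact ((contDiff_gv.comp h1).sub (contDiff_gv.comp contDiff_fst)).contDiffAt
  · exact (contDiffAt_const.mul contDiffAt_snd).mul h2
  · refine ContDiff.contDiffAt (ContDiff.sum fun a _ => contDiff_const.mul (contDiff_ip ?_ ?_))
    · fun_prop
    · have h3 : ContDiff ℝ ∞ fun p : Ph n × ℝ => (F p.2 p.1).1 a :=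
        (contDiff_apply ℝ ℂ a).comp (contDiff_fst.comp h1)
      exact h3.sub (by fun_prop)

theorem contDiffAt_df {Y : Ph n → Ph n} (hF : IsFl Y F) {p : Ph n × ℝ}
    (hp : ∀ a b, a ≠ b → p.1.1 a ≠ p.1.1 b) (hS : p.2 ≠ 0) : ContDiffAt ℝ ∞ (df m F) p := by
  unfold df
  exact ((contDiffAt_bf hF hp).pow 3).div (contDiffAt_const.mul contDiffAt_snd)
    (mul_ne_zero (by norm_num) hS)

theorem bf_closed {p : Ph n × ℝ} (hcl : F p.2 p.1 = p.1) : bf m F p = -(3 * p.2 * energy m p.1) := by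
  unfold bf actn
  rw [hcl]
  simp [ip_eq]

theorem df_closed {p : Ph n × ℝ} (hcl : F p.2 p.1 = p.1) (hS : p.2 ≠ 0) :
    df m F p = p.2 ^ 2 * (- energy m p.1) ^ 3 := by
  unfold df
  rw [bf_closed hcl]
  field_simp
  ring

theorem bf_z (hd : 0 < d) (hR : 0 < R) (hF : IsFl (cvf m d R) F) {z : Ph n} {S : ℝ} (hS : 0 ≤ S)
    (h : ∀ s ∈ Set.Icc 0 S, F s z ∈ good d R) (hcl : F S z = z) (ζ : Ph n) :
    HasDerivAt (fun r : ℝ => bf m F (z + r • ζ, S)) 0 0 := by
  have hc : HasDerivAt (fun r : ℝ => z + r • ζ) ζ 0 := by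
    have h := ((hasDerivAt_id (0 : ℝ)).smul_const ζ).const_add z
    rw [one_smul] at h
    exact h
  have h0 : z + (0 : ℝ) • ζ = z := by rw [zero_smul, add_zero]
  have h1 := hasDerivAt_actn hd hR hF hS hc (by rw [h0]; exact h)
  have h2 : HasDerivAt (fun r : ℝ => F S (z + r • ζ)) (fderiv ℝ (F S) (z + (0 : ℝ) • ζ) ζ) 0 :=
    (hF.hasFDerivAt S (z + (0 : ℝ) • ζ)).comp_hasDerivAt 0 hc
  have h3 : HasDerivAt (fun r : ℝ => ∑ a, m a * ip ((z + r • ζ).2 a)
      ((F S (z + r • ζ)).1 a - (z + r • ζ).1 a))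
      (∑ a, m a * (ip (ζ.2 a) ((F S (z + (0 : ℝ) • ζ)).1 a - (z + (0 : ℝ) • ζ).1 a) +
        ip ((z + (0 : ℝ) • ζ).2 a) ((fderiv ℝ (F S) (z + (0 : ℝ) • ζ) ζ).1 a - ζ.1 a))) 0 :=
    HasDerivAt.fun_sum fun a _ =>
      (hasDerivAt_ip (snd_deriv hc a) ((fst_deriv h2 a).sub (fst_deriv hc a))).const_mul _
  refine (h1.fun_sub h3).congr_deriv ?_
  rw [h0, hcl, ← Finset.sum_sub_distrib, ← Finset.sum_sub_distrib]
  refine Finset.sum_eq_zero fun a _ => ?_
  simp only [ip_eq, Complex.sub_re, Complex.sub_im]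
  ring

theorem bf_t (hd : 0 < d) (hR : 0 < R) (hF : IsFl (cvf m d R) F) {z : Ph n} {S : ℝ} (hS : 0 ≤ S)
    (h : ∀ s ∈ Set.Icc 0 S, F s z ∈ good d R) (hcl : F S z = z) :
    HasDerivAt (fun s : ℝ => bf m F (z, s)) (- energy m z) S := by
  have h1 := lag_deriv hd hR hF hS h
  have h2 := flow_vf hd hR hF (h S ⟨hS, le_rfl⟩)
  have h3 : HasDerivAt (fun s : ℝ => ∑ a, m a * ip (z.2 a) ((F s z).1 a - z.1 a))
      (∑ a, m a * (ip 0 ((F S z).1 a - z.1 a) + ip (z.2 a) ((vf m (F S z)).1 a - 0))) S :=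
    HasDerivAt.fun_sum fun a _ =>
      (hasDerivAt_ip (hasDerivAt_const S (z.2 a))
        ((fst_deriv h2 a).sub (hasDerivAt_const S (z.1 a)))).const_mul _
  have h4 : HasDerivAt (fun s : ℝ => bf m F (z, s))
      (lag m (F S z).1 (F S z).2 - 0 -
        ∑ a, m a * (ip 0 ((F S z).1 a - z.1 a) + ip (z.2 a) ((vf m (F S z)).1 a - 0))) S := by
    have e : (fun s : ℝ => bf m F (z, s)) = fun s => (2 * gv m (F s z) - 3 * s * energy m z) -
        2 * gv m z - ∑ a, m a * ip (z.2 a) ((F s z).1 a - z.1 a) := by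
      funext s
      unfold bf actn
      ring
    rw [e]
    exact (h1.fun_sub (hasDerivAt_const S (2 * gv m z))).fun_sub h3
  refine h4.congr_deriv ?_
  rw [hcl]
  have h5 : ∑ a, m a * (ip 0 (z.1 a - z.1 a) + ip (z.2 a) ((vf m z).1 a - 0)) =
      ∑ a, m a * ‖z.2 a‖ ^ 2 := by
    refine Finset.sum_congr rfl fun a _ => ?_
    rw [← ip_self]
    simp only [vf, ip_eq]
    simp
  rw [h5]
  unfold lag energy
  ring

/-- closed orbits are critical points of `df` -/
theorem df_crit (hd : 0 < d) (hR : 0 < R) (hF : IsFl (cvf m d R) F) {z : Ph n} {S : ℝ} (hS : 0 < S)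
    (h : ∀ s ∈ Set.Icc 0 S, F s z ∈ good d R) (hcl : F S z = z) :
    HasFDerivAt (df m F) (0 : Ph n × ℝ →L[ℝ] ℝ) (z, S) := by
  have hz : z ∈ good d R := by simpa [hF.zero] using h 0 ⟨le_rfl, hS.le⟩
  have hb : HasFDerivAt (bf m F) (fderiv ℝ (bf m F) (z, S)) (z, S) :=
    ((contDiffAt_bf (m := m) hF (p := (z, S)) (good_col hd hz)).differentiableAt
      (by simp)).hasFDerivAt
  have hdd : HasFDerivAt (df m F) (fderiv ℝ (df m F) (z, S)) (z, S) :=
    ((contDiffAt_df (m := m) hF (p := (z, S)) (good_col hd hz) hS.ne').differentiableAt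
      (by simp)).hasFDerivAt
  set L := fderiv ℝ (bf m F) (z, S) with hL
  have hL1 : ∀ ζ : Ph n, L (ζ, 0) = 0 := by
    intro ζ
    have hc : HasDerivAt (fun r : ℝ => ((z + r • ζ, S) : Ph n × ℝ)) (ζ, 0) 0 := by
      have h1 := ((hasDerivAt_id (0 : ℝ)).smul_const ζ).const_add z
      rw [one_smul] at h1
      exact h1.prodMk (hasDerivAt_const (0 : ℝ) S)
    have h0 : ((z + (0 : ℝ) • ζ, S) : Ph n × ℝ) = (z, S) := by rw [zero_smul, add_zero]
    have h1 : HasDerivAt (fun r : ℝ => bf m F (z + r • ζ, S)) (L (ζ, 0)) 0 :=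
      HasFDerivAt.comp_hasDerivAt (l := bf m F) (f := fun r : ℝ => ((z + r • ζ, S) : Ph n × ℝ))
        (0 : ℝ) (by rw [h0]; exact hb) hc
    exact h1.unique (bf_z hd hR hF hS.le h hcl ζ)
  have hL2 : L (0, 1) = - energy m z := by
    have hc : HasDerivAt (fun s : ℝ => ((z, s) : Ph n × ℝ)) (0, 1) S :=
      (hasDerivAt_const S z).prodMk (hasDerivAt_id S)
    have h1 : HasDerivAt (fun s : ℝ => bf m F (z, s)) (L (0, 1)) S :=
      HasFDerivAt.comp_hasDerivAt (l := bf m F) (f := fun s : ℝ => ((z, s) : Ph n × ℝ)) S hb hc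
    exact h1.unique (bf_t hd hR hF hS.le h hcl)
  have hL3 : ∀ v : Ph n × ℝ, L v = - v.2 * energy m z := by
    intro v
    have e : v = (v.1, 0) + v.2 • ((0, 1) : Ph n × ℝ) := by
      ext <;> simp
    rw [e, map_add, map_smul, hL1, hL2]
    simp
  have hzero : fderiv ℝ (df m F) (z, S) = 0 := by
    refine ContinuousLinearMap.ext fun v => ?_
    have hc : HasDerivAt (fun r : ℝ => (z, S) + r • v) v 0 := by
      have h1 := ((hasDerivAt_id (0 : ℝ)).smul_const v).const_add ((z, S) : Ph n × ℝ)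
      rw [one_smul] at h1
      exact h1
    have h0 : ((z, S) : Ph n × ℝ) + (0 : ℝ) • v = (z, S) := by rw [zero_smul, add_zero]
    have h1 : HasDerivAt (fun r : ℝ => bf m F ((z, S) + r • v)) (L v) 0 :=
      HasFDerivAt.comp_hasDerivAt (l := bf m F) (f := fun r : ℝ => ((z, S) : Ph n × ℝ) + r • v)
        (0 : ℝ) (by rw [h0]; exact hb) hc
    have h2 : HasDerivAt (fun r : ℝ => df m F ((z, S) + r • v)) (fderiv ℝ (df m F) (z, S) v) 0 :=
      HasFDerivAt.comp_hasDerivAt (l := df m F) (f := fun r : ℝ => ((z, S) : Ph n × ℝ) + r • v)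
        (0 : ℝ) (by rw [h0]; exact hdd) hc
    have h3 : HasDerivAt (fun r : ℝ => 27 * (((z, S) : Ph n × ℝ) + r • v).2) (27 * v.2) 0 := by
      have h4 : HasDerivAt (fun r : ℝ => S + r * v.2) (v.2) 0 := by
        have := ((hasDerivAt_id (0 : ℝ)).mul_const v.2).const_add S
        simpa using this
      exact h4.const_mul 27
    have hne : 27 * (((z, S) : Ph n × ℝ) + (0 : ℝ) • v).2 ≠ 0 := by
      rw [h0]
      simp only
      positivity
    have h5 := (h1.fun_pow 3).fun_div h3 hne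
    have h6 := h2.unique h5
    rw [h6, h0, hL3, bf_closed (p := (z, S)) hcl]
    rw [ContinuousLinearMap.zero_apply, div_eq_zero_iff]
    left
    push_cast
    ring
  rw [← hzero]
  exact hdd

/-- the phase points and periods of the periodic solutions -/
def PerSet (m : Fin n → ℝ) : Set (Ph n × ℝ) :=
  {p | 0 < p.2 ∧ ∃ y : ℝ → Ph n, IsSol m Set.univ y ∧ y 0 = p.1 ∧ ∀ t, y (t + p.2) = y t}

theorem locCrit_per : LocCrit (fun p : Ph n × ℝ => p.2 ^ 2 * (- energy m p.1) ^ 3) (PerSet m) := by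
  rintro ⟨z₀, S₀⟩ ⟨hS₀, x, hx, hx0, hper⟩
  simp only at hS₀ hx0 hper
  obtain ⟨d, R, hd, hR, hgood⟩ := exists_good (c := 1) (σ := 1) hx (by simp) hS₀ (by
    intro t
    rw [hper]
    ext a <;> simp [rot])
  obtain ⟨F, hF⟩ := exists_flow (contDiff_cvf (m := m) hd R) (hasCompactSupport_cvf d hR)
  have hxF : ∀ t, x t = F t (x 0) := hF.uniq x fun t => by
    rw [cvf_good hd hR (hgood t)]
    exact hx.hasDerivAt t
  have hnear := near_good (S := S₀ + 1) hF (z₀ := z₀) (fun t _ => by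
    rw [← hx0, ← hxF]; exact hgood t)
  obtain ⟨W, hW, hWo, hzW⟩ := eventually_nhds_iff.1 hnear
  refine ⟨W ×ˢ Set.Ioo 0 (S₀ + 1), df m F, hWo.prod isOpen_Ioo, ⟨hzW, hS₀, by simp⟩, ?_, ?_⟩
  · rintro ⟨z, S⟩ ⟨hz, hS⟩
    have hg : z ∈ good d R := by
      have := hW z hz 0 ⟨le_rfl, by linarith⟩
      rwa [hF.zero] at this
    exact (contDiffAt_df (m := m) hF (p := (z, S)) (good_col hd hg) hS.1.ne').contDiffWithinAt
  · rintro ⟨z, S⟩ ⟨⟨hS, y, hy, hy0, hyper⟩, hz, hS'⟩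
    simp only at hS hy0 hyper hz hS'
    subst hy0
    have hg : ∀ s ∈ Set.Icc 0 S, F s (y 0) ∈ good d R := fun s hs =>
      hW _ hz s ⟨hs.1, hs.2.trans hS'.2.le⟩
    have hcl : F S (y 0) = y 0 := by
      rw [← eq_flow hd hR hF hy hg S ⟨hS.le, le_rfl⟩]
      have := hyper 0
      rwa [zero_add] at this
    exact ⟨(df_closed (m := m) (p := (y 0, S)) hcl hS.ne').symm, df_crit hd hR hF hS hg hcl⟩

end Pool.Agent.J6H86.NP
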