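import Pool.Agent.N9.SH1

/-!
# Thin sets of real numbers, and sets of critical values

A set of real numbers is thin if the smooth functions of finitely many of its elements take only a
null set of values. Sets of critical values of smooth functions are thin, by the theorem of Morse and
Sard, applied to functions on products.
-/

set_option autoImplicit false

open Set Filter Topology MeasureTheory Function
open scoped ContDiff

namespace Pool.Agent.J6H86.NP

/-- For every smooth function `G` of finitely many variables, defined on an open set `O`, the set of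
the values of `G` at the points of `O` with coordinates in `K` is a null set. -/
def Thin (K : Set ℝ) : Prop :=
  ∀ (k : ℕ) (O : Set (Fin k → ℝ)) (G : (Fin k → ℝ) → ℝ), IsOpen O → ContDiffOn ℝ ∞ G O →
    volume (G '' {v | v ∈ O ∧ ∀ i, v i ∈ K}) = 0

theorem Thin.mono {K L : Set ℝ} (h : Thin L) (hKL : K ⊆ L) : Thin K := by
  intro k O G hO hG
  refine measure_mono_null (image_mono ?_) (h k O G hO hG)
  rintro v ⟨hv, hK⟩
  exact ⟨hv, fun i => hKL (hK i)⟩

/-- thin sets are null sets -/
theorem Thin.null {K : Set ℝ} (h : Thin K) : volume K = 0 := by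
  have h1 := h 1 univ (fun v => v 0) isOpen_univ (by fun_prop)
  refine measure_mono_null ?_ h1
  intro x hx
  exact ⟨fun _ => x, ⟨mem_univ _, fun _ => hx⟩, rfl⟩

variable {X : Type} [NormedAddCommGroup X] [NormedSpace ℝ X] [FiniteDimensional ℝ X]

/-- near each point of `A` the function `f` agrees on `A` with a smooth function for which the points
of `A` are critical -/
def LocCrit (f : X → ℝ) (A : Set X) : Prop :=
  ∀ p ∈ A, ∃ (V : Set X) (D : X → ℝ), IsOpen V ∧ p ∈ V ∧ ContDiffOn ℝ ∞ D V ∧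
    ∀ q ∈ A ∩ V, f q = D q ∧ HasFDerivAt D (0 : X →L[ℝ] ℝ) q

theorem sard' {Y : Type} [NormedAddCommGroup Y] [NormedSpace ℝ Y] [FiniteDimensional ℝ Y]
    {U : Set Y} (hU : IsOpen U) {g : Y → ℝ} (hg : ∀ x ∈ U, ContDiffAt ℝ ∞ g x) :
    volume (g '' {x | x ∈ U ∧ HasFDerivAt g (0 : Y →L[ℝ] ℝ) x}) = 0 := by
  let N := Module.finrank ℝ Y
  let e : Y ≃L[ℝ] Pool.Agent.Y522.E N := ContinuousLinearEquiv.ofFinrankEq (by
    simp [N, Pool.Agent.Y522.E])
  have h1 := Pool.Agent.N9.SH.sard N (e.symm ⁻¹' U) (hU.preimage e.symm.continuous) (g ∘ e.symm)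
    (fun x hx => (hg (e.symm x) hx).comp x e.symm.contDiff.contDiffAt)
  refine measure_mono_null ?_ h1
  rintro _ ⟨x, ⟨hx, hx0⟩, rfl⟩
  refine ⟨e x, ⟨?_, ?_⟩, ?_⟩
  · simpa using hx
  · have h2 : HasFDerivAt g (0 : Y →L[ℝ] ℝ) (e.symm (e x)) := by simpa using hx0
    have h3 := h2.comp (e x) e.symm.hasFDerivAt
    have h4 := h3.fderiv
    rw [h4]
    ext v
    simp
  · simp

theorem thin_of_locCrit {f : X → ℝ} {A : Set X} (h : LocCrit f A) :
    Thin {v | ∃ j : ℕ, 0 < j ∧ ∃ p ∈ A, v = (1 / (j : ℝ) ^ 2) * f p} := by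
  intro k O G hO hG
  have _ : ProperSpace X := FiniteDimensional.proper ℝ X
  -- fix the denominators
  have key : ∀ r : Fin k → ℝ, volume (G '' {v | v ∈ O ∧ ∀ i, ∃ p ∈ A, v i = r i * f p}) = 0 := by
    intro r
    set A' : Set (Fin k → X) := {p | (∀ i, p i ∈ A) ∧ (fun i => r i * f (p i)) ∈ O} with hA'
    set f' : (Fin k → X) → ℝ := fun p => G fun i => r i * f (p i) with hf'
    have h1 : volume (f' '' A') = 0 := by
      apply Pool.Agent.N9.SH.null_of_local
      rintro p ⟨hpA, hpO⟩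
      choose V D hV hpV hD hq using fun i => h (p i) (hpA i)
      set U0 : Set (Fin k → X) := {q | ∀ i, q i ∈ V i} with hU0
      set Φ : (Fin k → X) → (Fin k → ℝ) := fun q i => r i * D i (q i) with hΦ
      have hU0o : IsOpen U0 := by
        have : U0 = Set.pi univ V := by ext q; simp [hU0]
        rw [this]
        exact isOpen_set_pi finite_univ fun i _ => hV i
      have hDi : ∀ q ∈ U0, ∀ i, ContDiffAt ℝ ∞ (fun q : Fin k → X => D i (q i)) q := by
        intro q hqU i
        have h2 : ContDiffAt ℝ ∞ (D i) (q i) := (hD i).contDiffAt ((hV i).mem_nhds (hqU i))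
        exact h2.comp q (contDiff_apply ℝ X i).contDiffAt
      have hΦs : ∀ q ∈ U0, ContDiffAt ℝ ∞ Φ q := by
        intro q hqU
        exact contDiffAt_pi.2 fun i => contDiffAt_const.mul (hDi q hqU i)
      have hUo : IsOpen (U0 ∩ Φ ⁻¹' O) :=
        ContinuousOn.isOpen_inter_preimage
          (fun q hqU => (hΦs q hqU).continuousAt.continuousWithinAt) hU0o hO
      have hg : ∀ q ∈ U0 ∩ Φ ⁻¹' O, ContDiffAt ℝ ∞ (fun q => G (Φ q)) q := by
        intro q hqU
        have h2 : ContDiffAt ℝ ∞ G (Φ q) := hG.contDiffAt (hO.mem_nhds hqU.2)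
        exact h2.comp q (hΦs q hqU.1)
      refine ⟨U0, hU0o.mem_nhds hpV, measure_mono_null ?_ (sard' hUo hg)⟩
      rintro _ ⟨q, ⟨⟨hqA, hqO⟩, hqU⟩, rfl⟩
      have e1 : (fun i => r i * f (q i)) = Φ q := by
        funext i
        rw [hΦ]
        simp only
        rw [(hq i (q i) ⟨hqA i, hqU i⟩).1]
      refine ⟨q, ⟨⟨hqU, ?_⟩, ?_⟩, ?_⟩
      · change Φ q ∈ O
        rw [← e1]; exact hqO
      · have h3 : HasFDerivAt Φ (0 : (Fin k → X) →L[ℝ] (Fin k → ℝ)) q := by
          rw [hasFDerivAt_pi']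
          intro i
          have h4 := (hq i (q i) ⟨hqA i, hqU i⟩).2
          have h5 : HasFDerivAt (fun q : Fin k → X => q i)
            (ContinuousLinearMap.proj (R := ℝ) (φ := fun _ : Fin k => X) i) q :=
            (ContinuousLinearMap.proj (R := ℝ) (φ := fun _ : Fin k => X) i).hasFDerivAt
          have h6 := (HasFDerivAt.comp (g := D i) (f := fun q : Fin k → X => q i) q h4 h5).const_mul
            (r i)
          refine h6.congr_fderiv ?_
          ext v
          simp
        have h7 : HasFDerivAt G (fderiv ℝ G (Φ q)) (Φ q) := by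
          refine ((hG.contDiffAt (hO.mem_nhds ?_)).differentiableAt (by simp)).hasFDerivAt
          rw [← e1]; exact hqO
        have h8 := HasFDerivAt.comp (g := G) (f := Φ) q h7 h3
        refine h8.congr_fderiv ?_
        ext v
        simp
      · rw [hf']
        simp only
        rw [e1]
    refine measure_mono_null ?_ h1
    rintro _ ⟨v, ⟨hv, hvA⟩, rfl⟩
    choose p hp hvp using hvA
    have e2 : (fun i => r i * f (p i)) = v := by
      funext i; exact (hvp i).symm
    refine ⟨p, ⟨hp, ?_⟩, ?_⟩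
    · rw [e2]; exact hv
    · rw [hf']; simp only; rw [e2]
  -- countable union
  have h2 : G '' {v | v ∈ O ∧ ∀ i, v i ∈ {v | ∃ j : ℕ, 0 < j ∧ ∃ p ∈ A, v = (1 / (j : ℝ) ^ 2) * f p}} ⊆
      ⋃ j : Fin k → ℕ, G '' {v | v ∈ O ∧ ∀ i, ∃ p ∈ A, v i = (1 / (j i : ℝ) ^ 2) * f p} := by
    rintro _ ⟨v, ⟨hv, hvA⟩, rfl⟩
    choose j hj hvp using hvA
    exact mem_iUnion.2 ⟨j, v, ⟨hv, hvp⟩, rfl⟩
  exact measure_mono_null h2 (measure_iUnion_null fun j => key _)

end Pool.Agent.J6H86.NP
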