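import Pool.Agent.J6H86.NP.Thin

/-!
# The field generated by a thin set is a null set
-/

set_option autoImplicit false

open Set Filter Topology MeasureTheory Function
open scoped ContDiff

namespace Pool.Agent.J6H86.NP

theorem exists_poly {K : Set ℝ} {x : ℝ} (hx : x ∈ Subring.closure K) :
    ∃ (k : ℕ) (v : Fin k → ℝ) (P : MvPolynomial (Fin k) ℤ), (∀ i, v i ∈ K) ∧
      x = MvPolynomial.aeval v P := by
  have h1 : x ∈ Algebra.adjoin ℤ K := by
    rw [Algebra.adjoin_int]
    exact hx
  rw [Algebra.adjoin_eq_range] at h1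
  obtain ⟨p, hp⟩ := h1
  obtain ⟨k, f, _, q, rfl⟩ := MvPolynomial.exists_fin_rename p
  refine ⟨k, fun i => (f i : ℝ), q, fun i => (f i).2, ?_⟩
  rw [← hp]
  change MvPolynomial.aeval (fun a : K => (a : ℝ)) (MvPolynomial.rename f q) = _
  rw [MvPolynomial.aeval_rename]
  rfl

theorem contDiff_aeval {k l : ℕ} (φ : Fin l → Fin k) (q : MvPolynomial (Fin l) ℤ) :
    ContDiff ℝ ∞ fun w : Fin k → ℝ => MvPolynomial.aeval (fun i => w (φ i)) q := by
  induction q using MvPolynomial.induction_on with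
  | C a => simp only [MvPolynomial.algHom_C]; exact contDiff_const
  | add p q hp hq => simp only [map_add]; exact hp.add hq
  | mul_X p i hp =>
    simp only [map_mul, MvPolynomial.aeval_X]
    exact hp.mul (contDiff_apply ℝ ℝ (φ i))

/-- the field generated by a thin set is a null set -/
theorem Thin.field {K : Set ℝ} (h : Thin K) : volume ((Subfield.closure K : Subfield ℝ) : Set ℝ) = 0 := by
  have key : ∀ (k l : ℕ) (p : MvPolynomial (Fin k) ℤ) (q : MvPolynomial (Fin l) ℤ),
      volume {x : ℝ | ∃ (v : Fin k → ℝ) (w : Fin l → ℝ), (∀ i, v i ∈ K) ∧ (∀ i, w i ∈ K) ∧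
        MvPolynomial.aeval w q ≠ 0 ∧ x = MvPolynomial.aeval v p / MvPolynomial.aeval w q} = 0 := by
    intro k l p q
    have hp := contDiff_aeval (Fin.castAdd l) p
    have hq := contDiff_aeval (Fin.natAdd k) q
    have h1 := h (k + l)
      {u | (MvPolynomial.aeval (fun i => u (Fin.natAdd k i)) q : ℝ) ≠ 0}
      (fun u => (MvPolynomial.aeval (fun i => u (Fin.castAdd l i)) p : ℝ) /
        MvPolynomial.aeval (fun i => u (Fin.natAdd k i)) q)
      (isOpen_ne_fun hq.continuous continuous_const)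
      (hp.contDiffOn.div hq.contDiffOn fun u hu => hu)
    refine measure_mono_null ?_ h1
    rintro x ⟨v, w, hv, hw, hne, rfl⟩
    refine ⟨Fin.append v w, ⟨?_, ?_⟩, ?_⟩
    · simpa using hne
    · intro i
      refine Fin.addCases (fun i => ?_) (fun i => ?_) i
      · simpa using hv i
      · simpa using hw i
    · simp
  have hc : ∀ k : ℕ, Countable (MvPolynomial (Fin k) ℤ) := fun k =>
    Cardinal.mk_le_aleph0_iff.1 (MvPolynomial.cardinalMk_le_max.trans (by simp))
  have h2 : ((Subfield.closure K : Subfield ℝ) : Set ℝ) ⊆ {0} ∪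
      ⋃ (k : ℕ), ⋃ (l : ℕ), ⋃ (p : MvPolynomial (Fin k) ℤ), ⋃ (q : MvPolynomial (Fin l) ℤ),
        {x : ℝ | ∃ (v : Fin k → ℝ) (w : Fin l → ℝ), (∀ i, v i ∈ K) ∧ (∀ i, w i ∈ K) ∧
          MvPolynomial.aeval w q ≠ 0 ∧ x = MvPolynomial.aeval v p / MvPolynomial.aeval w q} := by
    intro x hx
    obtain ⟨y, hy, z, hz, rfl⟩ := Subfield.mem_closure_iff.1 hx
    obtain ⟨k, v, p, hv, rfl⟩ := exists_poly hy
    obtain ⟨l, w, q, hw, rfl⟩ := exists_poly hz
    by_cases hne : MvPolynomial.aeval w q = (0 : ℝ)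
    · left
      rw [hne, div_zero]
      rfl
    · right
      simp only [mem_iUnion]
      exact ⟨k, l, p, q, v, w, hv, hw, hne, rfl⟩
  refine measure_mono_null h2 (measure_union_null (by simp) ?_)
  refine measure_iUnion_null fun k => measure_iUnion_null fun l => ?_
  have := hc k
  have := hc l
  exact measure_iUnion_null fun p => measure_iUnion_null fun q => key k l p q

end Pool.Agent.J6H86.NP
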